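import Pool.Agent.BK.Defs
import Pool.Agent.FKB.LatGeo

open Finset
noncomputable section
namespace FKB

variable {d : ℕ}

theorem cross_of_conn {A : Finset (Pt d × Pt d)} (hA : IsLat A) {c x y : Pt d} {R : ℕ}
    (hx : x ∈ cube c R) (hy : y ∉ cube c R ∨ y ∈ bd (cube c R)) (h : Conn A x y) :
    Cross c R A x := by
  by_contra hcon
  have hbd : ∀ v, Conn (A ∩ lat (cube c R)) x v → v ∉ bd (cube c R) :=
    fun v hv hb => hcon ⟨v, hb, hv⟩
  have key := h.inv (fun v => v ∈ cube c R ∧ Conn (A ∩ lat (cube c R)) x v) (by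
    intro e he
    have hl := hA e he
    constructor
    · rintro ⟨h1, h2⟩
      by_cases hlat : e ∈ lat (cube c R)
      · have hv := verts_lat _ e hlat
        exact ⟨hv.2, h2.trans' (Conn.edge (Finset.mem_inter.2 ⟨he, hlat⟩))⟩
      · exact absurd ((lat_local hl hlat).1 h1) (hbd _ h2)
    · rintro ⟨h1, h2⟩
      by_cases hlat : e ∈ lat (cube c R)
      · have hv := verts_lat _ e hlat
        exact ⟨hv.1, h2.trans' (Conn.edge (Finset.mem_inter.2 ⟨he, hlat⟩)).symm'⟩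
      · exact absurd ((lat_local hl hlat).2 h1) (hbd _ h2))
  have hy' := key.1 ⟨hx, Conn.rfl' _ _⟩
  rcases hy with hy | hy
  · exact hy hy'.1
  · exact hbd y hy'.2 hy

theorem Geo_bd {c c' : Pt d} {R R' : ℕ} (h2 : cube c' R' ⊆ cube c R) {y : Pt d}
    (hy : y ∈ bd (cube c R)) : y ∉ cube c' R' ∨ y ∈ bd (cube c' R') := by
  by_cases h : y ∈ cube c' R'
  · right
    rw [bd, Finset.mem_filter] at hy ⊢
    obtain ⟨-, i, hi⟩ := hy
    exact ⟨h, i, hi.imp (fun h3 h4 => h3 (h2 h4)) (fun h3 h4 => h3 (h2 h4))⟩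
  · exact Or.inl h

theorem Geo_isLat_inter (A : Finset (Pt d × Pt d)) (H : Finset (Pt d)) : IsLat (A ∩ lat H) :=
  fun e he => isLat_lat H e (Finset.mem_inter.1 he).2

theorem Geo_cross {c c' x : Pt d} {R R' : ℕ} (h2 : cube c' R' ⊆ cube c R)
    {A : Finset (Pt d × Pt d)} (hx : x ∈ cube c' R') (h : Cross c R A x) : Cross c' R' A x := by
  obtain ⟨y, hy, h⟩ := h
  obtain ⟨z, hz, h3⟩ := cross_of_conn (Geo_isLat_inter A (cube c R)) hx (Geo_bd h2 hy) h
  refine ⟨z, hz, h3.mono' ?_⟩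
  exact Finset.inter_subset_inter Finset.inter_subset_left (Finset.Subset.refl _)

theorem Geo_cube_mono (c : Pt d) {l l' : ℕ} (h : l ≤ l') : cube c l ⊆ cube c l' := by
  intro x hx
  rw [mem_cube] at hx ⊢
  intro i
  have h1 := hx i
  have h2 : (l : ℤ) ≤ l' := by exact_mod_cast h
  linarith

theorem Geo_inter {c c' : Pt d} {R R' : ℕ} (h2 : cube c' R' ⊆ cube c R)
    (A : Finset (Pt d × Pt d)) : A ∩ lat (cube c' R') ⊆ A ∩ lat (cube c R) :=
  Finset.inter_subset_inter (Finset.Subset.refl _) (lat_mono h2)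

theorem twoC_sub {c c' : Pt d} {l l' R R' : ℕ} (h1 : cube c l ⊆ cube c' l')
    (h2 : cube c' R' ⊆ cube c R) (h3 : l' ≤ R') {A : Finset (Pt d × Pt d)}
    (h : TwoC c l R A) : TwoC c' l' R' A := by
  obtain ⟨x, hx, y, hy, hcx, hcy, hn⟩ := h
  have hs := Geo_cube_mono c' h3
  refine ⟨x, h1 hx, y, h1 hy, Geo_cross h2 (hs (h1 hx)) hcx, Geo_cross h2 (hs (h1 hy)) hcy, ?_⟩
  exact fun h4 => hn (h4.mono' (Geo_inter h2 A))

theorem threeC_sub {c c' : Pt d} {l l' R R' : ℕ} (h1 : cube c l ⊆ cube c' l')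
    (h2 : cube c' R' ⊆ cube c R) (h3 : l' ≤ R') {A : Finset (Pt d × Pt d)}
    (h : ThreeC c l R A) : ThreeC c' l' R' A := by
  obtain ⟨x, hx, y, hy, z, hz, hcx, hcy, hcz, hn1, hn2, hn3⟩ := h
  have hs := Geo_cube_mono c' h3
  refine ⟨x, h1 hx, y, h1 hy, z, h1 hz, Geo_cross h2 (hs (h1 hx)) hcx,
    Geo_cross h2 (hs (h1 hy)) hcy, Geo_cross h2 (hs (h1 hz)) hcz, ?_, ?_, ?_⟩
  · exact fun h4 => hn1 (h4.mono' (Geo_inter h2 A))
  · exact fun h4 => hn2 (h4.mono' (Geo_inter h2 A))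
  · exact fun h4 => hn3 (h4.mono' (Geo_inter h2 A))

theorem Geo_sh_inter (v c : Pt d) (R : ℕ) (A : Finset (Pt d × Pt d)) :
    sh v A ∩ lat (cube (c + v) R) = (A ∩ lat (cube c R)).map ((tr v).prodMap (tr v)) := by
  rw [← tr_cube, tr_lat, sh, ← Finset.map_inter]

theorem Geo_conn_shift (v c : Pt d) (R : ℕ) (A : Finset (Pt d × Pt d)) (x y : Pt d) :
    Conn (sh v A ∩ lat (cube (c + v) R)) (x + v) (y + v) ↔ Conn (A ∩ lat (cube c R)) x y := by
  rw [Geo_sh_inter]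
  exact conn_map (tr v) _ x y

theorem Geo_cube_shift (v c x : Pt d) (l : ℕ) : x + v ∈ cube (c + v) l ↔ x ∈ cube c l := by
  rw [← tr_cube, tr_mem, add_sub_cancel_right]

theorem Geo_cross_shift (v c : Pt d) (R : ℕ) (A : Finset (Pt d × Pt d)) (x : Pt d) :
    Cross (c + v) R (sh v A) (x + v) ↔ Cross c R A x := by
  unfold Cross
  constructor
  · rintro ⟨y, hy, h⟩
    rw [← tr_cube, tr_bd, tr_mem] at hy
    refine ⟨y - v, hy, ?_⟩
    rw [← Geo_conn_shift v, sub_add_cancel]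
    exact h
  · rintro ⟨y, hy, h⟩
    refine ⟨y + v, ?_, (Geo_conn_shift v c R A x y).2 h⟩
    rw [← tr_cube, tr_bd, tr_mem, add_sub_cancel_right]
    exact hy

theorem twoC_shift {v c : Pt d} {l R : ℕ} {A : Finset (Pt d × Pt d)} :
    TwoC (c + v) l R (sh v A) ↔ TwoC c l R A := by
  unfold TwoC
  constructor
  · rintro ⟨x, hx, y, hy, h1, h2, h3⟩
    obtain ⟨x, rfl⟩ : ∃ x', x = x' + v := ⟨x - v, (sub_add_cancel x v).symm⟩
    obtain ⟨y, rfl⟩ : ∃ y', y = y' + v := ⟨y - v, (sub_add_cancel y v).symm⟩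
    rw [Geo_cube_shift] at hx hy
    rw [Geo_cross_shift] at h1 h2
    rw [Geo_conn_shift] at h3
    exact ⟨x, hx, y, hy, h1, h2, h3⟩
  · rintro ⟨x, hx, y, hy, h1, h2, h3⟩
    refine ⟨x + v, (Geo_cube_shift v c x l).2 hx, y + v, (Geo_cube_shift v c y l).2 hy,
      (Geo_cross_shift v c R A x).2 h1, (Geo_cross_shift v c R A y).2 h2, ?_⟩
    rw [Geo_conn_shift]
    exact h3

theorem threeC_shift {v c : Pt d} {l R : ℕ} {A : Finset (Pt d × Pt d)} :
    ThreeC (c + v) l R (sh v A) ↔ ThreeC c l R A := by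
  unfold ThreeC
  constructor
  · rintro ⟨x, hx, y, hy, z, hz, h1, h2, h3, h4, h5, h6⟩
    obtain ⟨x, rfl⟩ : ∃ x', x = x' + v := ⟨x - v, (sub_add_cancel x v).symm⟩
    obtain ⟨y, rfl⟩ : ∃ y', y = y' + v := ⟨y - v, (sub_add_cancel y v).symm⟩
    obtain ⟨z, rfl⟩ : ∃ z', z = z' + v := ⟨z - v, (sub_add_cancel z v).symm⟩
    rw [Geo_cube_shift] at hx hy hz
    rw [Geo_cross_shift] at h1 h2 h3
    rw [Geo_conn_shift] at h4 h5 h6
    exact ⟨x, hx, y, hy, z, hz, h1, h2, h3, h4, h5, h6⟩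
  · rintro ⟨x, hx, y, hy, z, hz, h1, h2, h3, h4, h5, h6⟩
    refine ⟨x + v, (Geo_cube_shift v c x l).2 hx, y + v, (Geo_cube_shift v c y l).2 hy,
      z + v, (Geo_cube_shift v c z l).2 hz,
      (Geo_cross_shift v c R A x).2 h1, (Geo_cross_shift v c R A y).2 h2,
      (Geo_cross_shift v c R A z).2 h3, ?_, ?_, ?_⟩
    · rw [Geo_conn_shift]
      exact h4
    · rw [Geo_conn_shift]
      exact h5
    · rw [Geo_conn_shift]
      exact h6

theorem Geo_inter_inter (A B : Finset (Pt d × Pt d)) : A ∩ B ∩ B = A ∩ B := by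
  rw [Finset.inter_assoc, Finset.inter_self]

theorem twoC_loc (c : Pt d) (l R : ℕ) :
    Loc (lat (cube c R)) (fun A => ind (TwoC c l R A)) := by
  intro A
  show ind (TwoC c l R A) = ind (TwoC c l R (A ∩ lat (cube c R)))
  unfold TwoC Cross
  rw [Geo_inter_inter]

theorem threeC_loc (c : Pt d) (l R : ℕ) :
    Loc (lat (cube c R)) (fun A => ind (ThreeC c l R A)) := by
  intro A
  show ind (ThreeC c l R A) = ind (ThreeC c l R (A ∩ lat (cube c R)))
  unfold ThreeC Cross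
  rw [Geo_inter_inter]

/-- opening a cube does not change the cluster of a point which is not joined to the cube -/
theorem Geo_not_joined {B : Finset (Pt d × Pt d)} {l : ℕ} {u : Pt d}
    (hu : ¬ Conn (B ∪ lat (cube (0 : Pt d) l)) u 0) {w : Pt d}
    (h : Conn (B ∪ lat (cube (0 : Pt d) l)) u w) : Conn B u w := by
  have key := h.inv (fun v => Conn B u v) (by
    intro e he
    rcases Finset.mem_union.1 he with h1 | h1
    · exact ⟨fun h2 => h2.trans' (Conn.edge h1), fun h2 => h2.trans' (Conn.edge h1).symm'⟩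
    · have hv := verts_lat _ e h1
      have h0 : (0 : Pt d) ∈ cube (0 : Pt d) l := latgeo_self_mem 0 l
      have hno : ∀ v ∈ cube (0 : Pt d) l, ¬ Conn B u v := by
        intro v hv hc
        refine hu ((hc.mono' Finset.subset_union_left).trans' ?_)
        exact (conn_lat_cube hv h0).mono' Finset.subset_union_right
      exact ⟨fun h2 => absurd h2 (hno _ hv.1), fun h2 => absurd h2 (hno _ hv.2)⟩)
  exact key.1 (Conn.rfl' _ _)

/-- opening a cube which meets the only two crossing clusters merges them -/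
theorem merge {A : Finset (Pt d × Pt d)} {l l' R : ℕ} (hl : l ≤ l') (hR : l' ≤ R)
    (h2 : TwoC (0 : Pt d) l R A) (h3 : ¬ ThreeC (0 : Pt d) l' R A) :
    ¬ TwoC (0 : Pt d) l' R (A ∪ lat (cube (0 : Pt d) l)) := by
  obtain ⟨x, hx, y, hy, hcx, hcy, hn⟩ := h2
  have hAB : (A ∪ lat (cube (0 : Pt d) l)) ∩ lat (cube (0 : Pt d) R) =
      A ∩ lat (cube (0 : Pt d) R) ∪ lat (cube (0 : Pt d) l) := by
    rw [Finset.union_inter_distrib_right]
    congr 1
    exact Finset.inter_eq_left.2 (lat_mono (Geo_cube_mono 0 (hl.trans hR)))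
  have h0 : (0 : Pt d) ∈ cube (0 : Pt d) l := latgeo_self_mem 0 l
  have hsub : cube (0 : Pt d) l ⊆ cube (0 : Pt d) l' := Geo_cube_mono 0 hl
  -- a crossing point which is not joined to the cube gives a third cluster
  have key : ∀ u ∈ cube (0 : Pt d) l', Cross 0 R (A ∪ lat (cube (0 : Pt d) l)) u →
      Conn (A ∩ lat (cube (0 : Pt d) R) ∪ lat (cube (0 : Pt d) l)) u 0 := by
    intro u hu hc
    by_contra hcon
    obtain ⟨w, hw, hcw⟩ := hc
    rw [hAB] at hcw
    have hcu : Cross 0 R A u := ⟨w, hw, Geo_not_joined hcon hcw⟩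
    have hno : ∀ v ∈ cube (0 : Pt d) l, ¬ Conn (A ∩ lat (cube (0 : Pt d) R)) u v := by
      intro v hv hc
      refine hcon ((hc.mono' Finset.subset_union_left).trans' ?_)
      exact (conn_lat_cube hv h0).mono' Finset.subset_union_right
    exact h3 ⟨x, hsub hx, y, hsub hy, u, hu, hcx, hcy, hcu, hn,
      fun h => hno y hy h.symm', fun h => hno x hx h.symm'⟩
  rintro ⟨u, hu, v, hv, hcu, hcv, huv⟩
  rw [hAB] at huv
  exact huv ((key u hu hcu).trans' (key v hv hcv).symm')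

end FKB
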