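import Pool.Agent.BK.LimB
import Pool.Agent.FKB.RankB

open Finset Filter
noncomputable section
namespace FKB

/-- finite energy, weights -/
theorem Open_wt {V : Type*} [DecidableEq V] {D E0 A : Finset (V × V)} {p q : ℝ} (hq : 1 ≤ q)
    (hp0 : 0 < p) (hp1 : p ≤ 1) (hE : E0 ⊆ D) (hA : A ⊆ D) :
    wt D (fun _ => p) q A ≤ (q / p) ^ E0.card * wt D (fun _ => p) q (A ∪ E0) := by
  have hq0 : 0 < q := lt_of_lt_of_le one_pos hq
  have hadm : Adm D (fun _ : V × V => p) := fun _ _ => ⟨hp0.le, hp1⟩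
  set r := (E0 \ A).card with hr
  have hAE : A ∪ E0 ⊆ D := union_subset hA hE
  have hW : 0 ≤ wt D (fun _ => p) q (A ∪ E0) := wt_nonneg hq0 hadm hAE
  have hcard1 : (A ∪ E0).card = A.card + r := by
    rw [← union_sdiff_self_eq_union, card_union_of_disjoint disjoint_sdiff]
  have hcard2 : (D \ A).card = (D \ (A ∪ E0)).card + r := by
    have h1 : (D \ A).card = D.card - A.card := card_sdiff_of_subset hA
    have h2 : (D \ (A ∪ E0)).card = D.card - (A ∪ E0).card := card_sdiff_of_subset hAE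
    have h3 := card_le_card hAE
    omega
  have hrk : rk (A ∪ E0) ≤ rk A + r := by
    have h1 := rk_submod A (E0 \ A)
    have h2 := rk_le_card (E0 \ A)
    rw [union_sdiff_self_eq_union] at h1
    omega
  have hqi : 0 < q⁻¹ := inv_pos.mpr hq0
  have hqi1 : q⁻¹ ≤ 1 := inv_le_one_of_one_le₀ hq
  have h1 : (q⁻¹) ^ rk A ≤ (q⁻¹) ^ rk (A ∪ E0) * q ^ r := by
    have h2 : (q⁻¹) ^ (rk A + r) ≤ (q⁻¹) ^ rk (A ∪ E0) :=
      pow_le_pow_of_le_one hqi.le hqi1 hrk
    calc (q⁻¹) ^ rk A = (q⁻¹) ^ (rk A + r) * q ^ r := by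
          rw [pow_add, mul_assoc, ← mul_pow, inv_mul_cancel₀ hq0.ne', one_pow, mul_one]
      _ ≤ _ := mul_le_mul_of_nonneg_right h2 (pow_nonneg hq0.le _)
  have h2 : (1 - p) ^ (D \ A).card ≤ (1 - p) ^ (D \ (A ∪ E0)).card := by
    rw [hcard2, pow_add]
    have h3 : (1 - p) ^ r ≤ 1 := pow_le_one₀ (by linarith) (by linarith)
    have h4 : 0 ≤ (1 - p) ^ (D \ (A ∪ E0)).card := pow_nonneg (by linarith) _
    nlinarith
  have h3 : wt D (fun _ => p) q A ≤ (q / p) ^ r * wt D (fun _ => p) q (A ∪ E0) := by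
    unfold wt
    simp only [prod_const]
    have e1 : (q / p) ^ r * (p ^ (A ∪ E0).card * (1 - p) ^ (D \ (A ∪ E0)).card *
        (q⁻¹) ^ rk (A ∪ E0)) =
        p ^ A.card * (1 - p) ^ (D \ (A ∪ E0)).card * ((q⁻¹) ^ rk (A ∪ E0) * q ^ r) := by
      rw [hcard1, pow_add, div_pow]
      have : p ^ r ≠ 0 := pow_ne_zero _ hp0.ne'
      field_simp
    rw [e1]
    have a1 : 0 ≤ p ^ A.card := pow_nonneg hp0.le _
    have a2 : 0 ≤ (1 - p) ^ (D \ (A ∪ E0)).card := pow_nonneg (by linarith) _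
    have a3 : 0 ≤ (q⁻¹) ^ rk A := pow_nonneg hqi.le _
    exact mul_le_mul (mul_le_mul_of_nonneg_left h2 a1) h1 a3 (mul_nonneg a1 a2)
  refine h3.trans (mul_le_mul_of_nonneg_right ?_ hW)
  have hqp : 1 ≤ q / p := by
    rw [le_div_iff₀ hp0]; linarith
  exact pow_le_pow_right₀ hqp (card_le_card sdiff_subset)

/-- finite energy: opening the edges of `E0` -/
theorem P_open {V : Type*} [DecidableEq V] {D E0 : Finset (V × V)} {p q : ℝ} (hq : 1 ≤ q)
    (hp0 : 0 < p) (hp1 : p ≤ 1) (hE : E0 ⊆ D) {S T : Finset (V × V) → Prop}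
    (h : ∀ A, A ⊆ D → S A → T (A ∪ E0)) :
    P D (fun _ => p) q S ≤ (2 * q / p) ^ E0.card * P D (fun _ => p) q T := by
  have hq0 : 0 < q := lt_of_lt_of_le one_pos hq
  have hadm : Adm D (fun _ : V × V => p) := fun _ _ => ⟨hp0.le, hp1⟩
  have hZ := Z_pos (q := q) hq0 hadm
  unfold P E
  rw [← mul_div_assoc]
  refine div_le_div_of_nonneg_right ?_ hZ.le
  have hc : (2 * q / p) ^ E0.card = (q / p) ^ E0.card * 2 ^ E0.card := by
    rw [← mul_pow]; congr 1; ring
  rw [hc]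
  have hqp : 0 ≤ (q / p) ^ E0.card := pow_nonneg (div_nonneg hq0.le hp0.le) _
  set g : Finset (V × V) → ℝ := fun A => wt D (fun _ => p) q A * ind (T A) with hg
  have hg0 : ∀ A, A ⊆ D → 0 ≤ g A := fun A hA =>
    mul_nonneg (wt_nonneg hq0 hadm hA) (ind_nonneg _)
  have h1 : ∑ A ∈ D.powerset, wt D (fun _ => p) q A * ind (S A) ≤
      (q / p) ^ E0.card * ∑ A ∈ D.powerset, g (A ∪ E0) := by
    rw [mul_sum]
    refine sum_le_sum fun A hA => ?_
    rw [mem_powerset] at hA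
    by_cases hS : S A
    · rw [ind_true hS, mul_one]
      show _ ≤ _ * (wt D (fun _ => p) q (A ∪ E0) * ind (T (A ∪ E0)))
      rw [ind_true (h A hA hS), mul_one]
      exact Open_wt hq hp0 hp1 hE hA
    · rw [ind_false hS, mul_zero]
      exact mul_nonneg hqp (hg0 _ (union_subset hA hE))
  have h2 : ∑ A ∈ D.powerset, g (A ∪ E0) ≤ 2 ^ E0.card * ∑ A ∈ D.powerset, g A := by
    have hinj : Set.InjOn (fun A : Finset (V × V) => ((A ∪ E0, A ∩ E0) :
        Finset (V × V) × Finset (V × V))) (D.powerset : Set (Finset (V × V))) := by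
      intro A _ B _ hAB
      have e1 : A ∪ E0 = B ∪ E0 := congrArg Prod.fst hAB
      have e2 : A ∩ E0 = B ∩ E0 := congrArg Prod.snd hAB
      ext x
      have f1 : x ∈ A ∪ E0 ↔ x ∈ B ∪ E0 := by rw [e1]
      have f2 : x ∈ A ∩ E0 ↔ x ∈ B ∩ E0 := by rw [e2]
      rw [mem_union, mem_union] at f1
      rw [mem_inter, mem_inter] at f2
      tauto
    have e1 : ∑ A ∈ D.powerset, g (A ∪ E0) =
        ∑ x ∈ D.powerset.image (fun A : Finset (V × V) => ((A ∪ E0, A ∩ E0) :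
          Finset (V × V) × Finset (V × V))), g x.1 := by
      rw [sum_image hinj]
    rw [e1]
    have e2 : 2 ^ E0.card * ∑ A ∈ D.powerset, g A =
        ∑ x ∈ D.powerset ×ˢ E0.powerset, g x.1 := by
      rw [sum_product]
      simp only [sum_const, card_powerset, nsmul_eq_mul]
      rw [mul_sum]
      push_cast
      rfl
    rw [e2]
    refine sum_le_sum_of_subset_of_nonneg ?_ ?_
    · intro x hx
      obtain ⟨A, hA, rfl⟩ := mem_image.mp hx
      rw [mem_powerset] at hA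
      exact mem_product.mpr ⟨mem_powerset.mpr (union_subset hA hE),
        mem_powerset.mpr inter_subset_right⟩
    · intro x hx _
      exact hg0 _ (mem_powerset.mp (mem_product.mp hx).1)
  calc _ ≤ (q / p) ^ E0.card * ∑ A ∈ D.powerset, g (A ∪ E0) := h1
    _ ≤ (q / p) ^ E0.card * (2 ^ E0.card * ∑ A ∈ D.powerset, g A) :=
        mul_le_mul_of_nonneg_left h2 hqp
    _ = _ := by ring

theorem Open_cube_mono {d : ℕ} {c : Pt d} {m m' : ℕ} (h : m ≤ m') : cube c m ⊆ cube c m' := by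
  intro x hx
  rw [mem_cube] at hx ⊢
  intro i
  have h1 := hx i
  have h2 : (m : ℤ) ≤ m' := by exact_mod_cast h
  omega

theorem Open_sub {d : ℕ} (E0 : Finset (Pt d × Pt d)) (hE : IsLat E0) :
    ∃ m : ℕ, ∀ m', m ≤ m' → E0 ⊆ lat (cube (0 : Pt d) m') := by
  refine ⟨∑ e ∈ E0, ∑ i, ((e.1 i).natAbs + (e.2 i).natAbs), fun m' hm => ?_⟩
  intro e he
  rw [latgeo_mem_lat, mem_cube, mem_cube]
  have h1 : ∑ i, ((e.1 i).natAbs + (e.2 i).natAbs) ≤ m' :=
    (single_le_sum (f := fun e : Pt d × Pt d => ∑ i, ((e.1 i).natAbs + (e.2 i).natAbs))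
      (fun _ _ => Nat.zero_le _) he).trans hm
  have h2 : ∀ i, (e.1 i).natAbs + (e.2 i).natAbs ≤ m' := fun i =>
    (single_le_sum (f := fun i => (e.1 i).natAbs + (e.2 i).natAbs)
      (fun _ _ => Nat.zero_le _) (mem_univ i)).trans h1
  refine ⟨⟨fun i => ?_, fun i => ?_⟩, hE e he⟩
  · have h3 := h2 i
    rw [Pi.zero_apply, sub_zero, abs_le]
    constructor <;> omega
  · have h3 := h2 i
    rw [Pi.zero_apply, sub_zero, abs_le]
    constructor <;> omega

theorem IP_open {d : ℕ} {E0 D0 D1 : Finset (Pt d × Pt d)} {p q : ℝ} (hq : 1 ≤ q)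
    (hp0 : 0 < p) (hp1 : p ≤ 1) (hE : IsLat E0) {S T : Finset (Pt d × Pt d) → Prop}
    (hS : Loc D0 (fun A => ind (S A))) (hT : Loc D1 (fun A => ind (T A)))
    (h : ∀ A, IsLat A → S A → T (A ∪ E0)) :
    IP p q S ≤ (2 * q / p) ^ E0.card * IP p q T := by
  have hq0 : 0 < q := lt_of_lt_of_le one_pos hq
  set K : ℝ := (2 * q / p) ^ E0.card with hK
  have hK0 : 0 ≤ K := pow_nonneg (div_nonneg (by linarith) hp0.le) _
  refine le_of_forall_pos_le_add fun ε hε => ?_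
  have hε' : 0 < ε / (K + 1) := by positivity
  obtain ⟨m1, h1⟩ := IE_unif hq hp0.le hp1 hS hε'
  obtain ⟨m2, h2⟩ := IE_unif hq hp0.le hp1 hT hε'
  obtain ⟨m3, h3⟩ := Open_sub E0 hE
  set m := max m1 (max m2 m3) with hm
  have g1 := h1 (cube 0 m) (Open_cube_mono (le_max_left _ _))
  have g2 := h2 (cube 0 m) (Open_cube_mono ((le_max_left _ _).trans (le_max_right _ _)))
  have g3 := h3 m ((le_max_right _ _).trans (le_max_right _ _))
  have g4 : P (lat (cube (0 : Pt d) m)) (fun _ => p) q S ≤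
      K * P (lat (cube (0 : Pt d) m)) (fun _ => p) q T :=
    P_open hq hp0 hp1 g3 fun A hA hSA => h A (fun e he => isLat_lat _ e (hA he)) hSA
  unfold IP
  unfold P at g4
  rw [abs_le] at g1 g2
  have g5 : (K + 1) * (ε / (K + 1)) = ε := by
    have : K + 1 ≠ 0 := by positivity
    field_simp
  nlinarith [g1.1, g2.2]

end FKB
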