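import Pool.Agent.BK.Comb
import Pool.Agent.BK.Open
import Pool.Agent.BK.Geo

open Finset Filter
noncomputable section
namespace FKB

section
variable {d : ℕ}

theorem three_bd (n : ℕ) :
    (bd (cube (0 : Pt d) n)).card ≤ d * (2 * (2 * n + 1) ^ (d - 1)) := by
  classical
  have hsub : bd (cube (0 : Pt d) n) ⊆ (Finset.univ : Finset (Fin d)).biUnion (fun i =>
      (Fintype.piFinset (fun j => if j = i then ({(n : ℤ)} : Finset ℤ) else
        Finset.Icc (-(n : ℤ)) n)) ∪
      (Fintype.piFinset (fun j => if j = i then ({-(n : ℤ)} : Finset ℤ) else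
        Finset.Icc (-(n : ℤ)) n))) := by
    intro x hx
    obtain ⟨hx1, i, hi⟩ := mem_bd_cube.1 hx
    rw [mem_cube] at hx1
    simp only [Finset.mem_biUnion, Finset.mem_univ, true_and, Finset.mem_union,
      Fintype.mem_piFinset]
    refine ⟨i, ?_⟩
    have hother : ∀ j, x j ∈ Finset.Icc (-(n : ℤ)) n := by
      intro j
      have := hx1 j
      simp only [Pi.zero_apply, sub_zero] at this
      rw [Finset.mem_Icc]
      exact abs_le.1 this
    simp only [Pi.zero_apply, sub_zero] at hi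
    rcases abs_eq (by positivity : (0 : ℤ) ≤ n) |>.1 hi with h | h
    · left
      intro j
      by_cases hj : j = i
      · subst hj; simp [h]
      · rw [if_neg hj]; exact hother j
    · right
      intro j
      by_cases hj : j = i
      · subst hj; simp [h]
      · rw [if_neg hj]; exact hother j
  have hcard : ∀ (i : Fin d) (a : ℤ), (Fintype.piFinset (fun j => if j = i then
      ({a} : Finset ℤ) else Finset.Icc (-(n : ℤ)) n)).card = (2 * n + 1) ^ (d - 1) := by
    intro i a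
    rw [Fintype.card_piFinset, ← Finset.mul_prod_erase _ _ (Finset.mem_univ i)]
    simp only [if_true, Finset.card_singleton, one_mul]
    have : ∀ j ∈ (Finset.univ : Finset (Fin d)).erase i, (if j = i then
      ({a} : Finset ℤ) else Finset.Icc (-(n : ℤ)) n).card = 2 * n + 1 := by
      intro j hj
      rw [if_neg (Finset.ne_of_mem_erase hj), Int.card_Icc]
      omega
    rw [Finset.prod_congr rfl this, Finset.prod_const, Finset.card_erase_of_mem
      (Finset.mem_univ i), Finset.card_univ, Fintype.card_fin]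
  calc (bd (cube (0 : Pt d) n)).card ≤ _ := Finset.card_le_card hsub
    _ ≤ ∑ i : Fin d, _ := Finset.card_biUnion_le
    _ ≤ ∑ _i : Fin d, (2 * (2 * n + 1) ^ (d - 1)) := by
        apply Finset.sum_le_sum
        intro i _
        refine (Finset.card_union_le _ _).trans ?_
        rw [hcard, hcard]
        omega
    _ = d * (2 * (2 * n + 1) ^ (d - 1)) := by simp

/-- the block `cube c l` is open and splits its cluster in `cube 0 n` into at least three parts -/
def Trif (c : Pt d) (l n : ℕ) (A : Finset (Pt d × Pt d)) : Prop :=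
  lat (cube c l) ⊆ A ∧ ∃ k ∈ cube c l, ∃ y1 ∈ bd (cube (0 : Pt d) n), ∃ y2 ∈ bd (cube (0 : Pt d) n),
    ∃ y3 ∈ bd (cube (0 : Pt d) n),
      Conn (A ∩ lat (cube 0 n)) k y1 ∧ Conn (A ∩ lat (cube 0 n)) k y2 ∧
      Conn (A ∩ lat (cube 0 n)) k y3 ∧
      ¬ Conn (offK (cube c l) (A ∩ lat (cube 0 n))) y1 y2 ∧
      ¬ Conn (offK (cube c l) (A ∩ lat (cube 0 n))) y2 y3 ∧
      ¬ Conn (offK (cube c l) (A ∩ lat (cube 0 n))) y1 y3

theorem trif_loc {c : Pt d} {l n : ℕ} (h : cube c l ⊆ cube 0 n) :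
    Loc (lat (cube (0 : Pt d) n)) (fun A => ind (Trif c l n A)) := by
  intro A
  apply ind_congr
  unfold Trif
  rw [inter_assoc, inter_self, subset_inter_iff]
  constructor
  · rintro ⟨h1, h2⟩
    exact ⟨⟨h1, lat_mono h⟩, h2⟩
  · rintro ⟨h1, h2⟩
    exact ⟨h1.1, h2⟩

theorem three_cube_sub {c : Pt d} {l n : ℕ} (h : ∀ i, |c i| + l ≤ n) : cube c l ⊆ cube 0 n := by
  intro x hx
  rw [mem_cube] at *
  intro i
  have h1 := abs_le.1 (hx i)
  have h2 := h i
  have h3 := abs_le.1 (le_refl |c i|)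
  rw [Pi.zero_apply, sub_zero, abs_le]
  constructor <;> linarith [h1.1, h1.2, h3.1, h3.2]

theorem three_cross {c x : Pt d} {l n : ℕ} (hc : ∀ i, |c i| + l + 1 ≤ n)
    {A : Finset (Pt d × Pt d)} (hA : IsLat A) (hx : x ∈ cube c l) (h : Cross c (2 * n) A x) :
    ∃ y ∈ bd (cube (0 : Pt d) n), Conn (A ∩ lat (cube 0 n)) x y := by
  obtain ⟨w, hw, hxw⟩ := h
  refine cross_of_conn hA (three_cube_sub (fun i => by linarith [hc i]) hx) (Or.inl ?_)
    (hxw.mono' inter_subset_left)
  intro hw'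
  obtain ⟨-, i, hi⟩ := mem_bd_cube.1 hw
  have h1 := mem_cube.1 hw' i
  rw [Pi.zero_apply, sub_zero] at h1
  have h2 : |w i - c i| ≤ |w i| + |c i| := abs_sub _ _
  have h3 := hc i
  push_cast at hi
  linarith

theorem three_trif {c : Pt d} {l n : ℕ} (hc : ∀ i, |c i| + l + 1 ≤ n)
    {A : Finset (Pt d × Pt d)} (hA : IsLat A) (h : ThreeC c l (2 * n) A) :
    Trif c l n (A ∪ lat (cube c l)) := by
  obtain ⟨x, hx, y, hy, z, hz, cx, cy, cz, nxy, nyz, nxz⟩ := h
  obtain ⟨x', hx', ex⟩ := three_cross hc hA hx cx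
  obtain ⟨y', hy', ey⟩ := three_cross hc hA hy cy
  obtain ⟨z', hz', ez⟩ := three_cross hc hA hz cz
  have hsub : cube c l ⊆ cube 0 n := three_cube_sub (fun i => by linarith [hc i])
  have hbig : cube (0 : Pt d) n ⊆ cube c (2 * n) := by
    intro u hu
    rw [mem_cube] at *
    intro i
    have h1 := hu i
    rw [Pi.zero_apply, sub_zero] at h1
    have h2 : |u i - c i| ≤ |u i| + |c i| := abs_sub _ _
    have h3 := hc i
    push_cast
    linarith
  have hL : lat (cube c l) ⊆ lat (cube (0 : Pt d) n) := lat_mono hsub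
  have hA' : A ∩ lat (cube (0 : Pt d) n) ⊆ (A ∪ lat (cube c l)) ∩ lat (cube 0 n) :=
    inter_subset_inter_right subset_union_left
  have hK' : lat (cube c l) ⊆ (A ∪ lat (cube c l)) ∩ lat (cube (0 : Pt d) n) :=
    subset_inter subset_union_right hL
  have hoff : offK (cube c l) ((A ∪ lat (cube c l)) ∩ lat (cube (0 : Pt d) n)) ⊆
      A ∩ lat (cube c (2 * n)) := by
    intro e he
    obtain ⟨h1, h2, h3⟩ := mem_filter.1 he
    rw [mem_inter] at h1
    refine mem_inter.2 ⟨?_, lat_mono hbig h1.2⟩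
    rcases mem_union.1 h1.1 with h4 | h4
    · exact h4
    · exact absurd (verts_lat _ e h4).1 h2
  have hin : A ∩ lat (cube (0 : Pt d) n) ⊆ A ∩ lat (cube c (2 * n)) :=
    inter_subset_inter_left (lat_mono hbig)
  refine ⟨subset_union_right, x, hx, x', hx', y', hy', z', hz', ex.mono' hA',
    ((conn_lat_cube hx hy).mono' hK').trans' (ey.mono' hA'),
    ((conn_lat_cube hx hz).mono' hK').trans' (ez.mono' hA'), ?_, ?_, ?_⟩
  · intro hh
    exact nxy (((ex.mono' hin).trans' (hh.mono' hoff)).trans' (ey.mono' hin).symm')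
  · intro hh
    exact nyz (((ey.mono' hin).trans' (hh.mono' hoff)).trans' (ez.mono' hin).symm')
  · intro hh
    exact nxz (((ex.mono' hin).trans' (hh.mono' hoff)).trans' (ez.mono' hin).symm')

theorem three_IE_sum {ι : Type*} (I : Finset ι) {p q : ℝ} (hq : 1 ≤ q) (hp0 : 0 ≤ p) (hp1 : p ≤ 1)
    {D0 : Finset (Pt d × Pt d)} {F : ι → Finset (Pt d × Pt d) → ℝ} (hF : ∀ i ∈ I, Loc D0 (F i)) :
    IE p q (fun A => ∑ i ∈ I, F i A) = ∑ i ∈ I, IE p q (F i) ∧
      Loc D0 (fun A => ∑ i ∈ I, F i A) := by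
  classical
  induction I using Finset.induction_on with
  | empty =>
    constructor
    · simp only [sum_empty]
      exact IE_const hq hp0 hp1 0
    · intro A
      simp only [sum_empty]
  | @insert a I ha ih =>
    obtain ⟨h1, h2⟩ := ih (fun i hi => hF i (mem_insert_of_mem hi))
    have h3 := hF a (mem_insert_self a I)
    constructor
    · simp only [sum_insert ha]
      rw [← h1]
      exact IE_add hq hp0 hp1 h3 h2
    · intro A
      simp only [sum_insert ha]
      rw [← h3 A]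
      exact congrArg (F a A + ·) (h2 A)

/-- the centre of the block with index `k` -/
def blk (l : ℕ) (k : Pt d) : Pt d := fun i => (2 * l + 1) * k i

theorem blk_sub {l m n : ℕ} (hn : n = (2 * l + 1) * m + l + 1) {k : Pt d}
    (hk : k ∈ cube (0 : Pt d) m) (i : Fin d) : |blk l k i| + l + 1 ≤ n := by
  have h1 := mem_cube.1 hk i
  rw [Pi.zero_apply, sub_zero] at h1
  unfold blk
  rw [abs_mul, abs_of_nonneg (by positivity), hn]
  push_cast
  nlinarith

theorem blk_disj {l : ℕ} {k k' : Pt d} (h : k ≠ k') :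
    Disjoint (cube (blk l k) l) (cube (blk l k') l) := by
  rw [disjoint_left]
  intro x hx hx'
  apply h
  funext i
  have h1 := abs_le.1 (mem_cube.1 hx i)
  have h2 := abs_le.1 (mem_cube.1 hx' i)
  unfold blk at h1 h2
  by_contra hne
  rcases lt_or_gt_of_ne hne with h3 | h3
  · have : (2 * (l : ℤ) + 1) * (k i + 1) ≤ (2 * l + 1) * k' i :=
      mul_le_mul_of_nonneg_left (by omega) (by positivity)
    linarith [h1.1, h1.2, h2.1, h2.2]
  · have : (2 * (l : ℤ) + 1) * (k' i + 1) ≤ (2 * l + 1) * k i :=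
      mul_le_mul_of_nonneg_left (by omega) (by positivity)
    linarith [h1.1, h1.2, h2.1, h2.2]

theorem three_sum_le {l m n : ℕ} (hn : n = (2 * l + 1) * m + l + 1) (A : Finset (Pt d × Pt d)) :
    ∑ k ∈ cube (0 : Pt d) m, ind (Trif (blk l k) l n A) ≤ ((bd (cube (0 : Pt d) n)).card : ℝ) := by
  classical
  have h1 : ∑ k ∈ cube (0 : Pt d) m, ind (Trif (blk l k) l n A) =
      (((cube (0 : Pt d) m).filter (fun k => Trif (blk l k) l n A)).card : ℝ) := by
    rw [card_filter]
    push_cast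
    apply sum_congr rfl
    intro k _
    by_cases hk : Trif (blk l k) l n A
    · rw [ind_true hk, if_pos hk]
    · rw [ind_false hk, if_neg hk]
  rw [h1]
  have h2 := trif_count ((cube (0 : Pt d) m).filter (fun k => Trif (blk l k) l n A))
    (fun k => cube (blk l k) l) (A ∩ lat (cube 0 n)) (bd (cube (0 : Pt d) n)) ?_ ?_ ?_ ?_
  · exact_mod_cast h2
  · intro k _ k' _ h
    exact blk_disj h
  · intro k hk
    have hk' := (mem_filter.1 hk).1
    rw [disjoint_left]
    intro x hx hx'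
    obtain ⟨-, i, hi⟩ := mem_bd_cube.1 hx'
    rw [Pi.zero_apply, sub_zero] at hi
    have h3 := mem_cube.1 hx i
    have h4 := blk_sub hn hk' i
    have h5 : |x i| ≤ |x i - blk l k i| + |blk l k i| := by
      have := abs_add_le (x i - blk l k i) (blk l k i)
      rwa [sub_add_cancel] at this
    linarith
  · intro k hk u hu v hv
    obtain ⟨hk', hT, -⟩ := mem_filter.1 hk
    refine (conn_lat_cube hu hv).mono' ?_
    intro e he
    have hv := verts_lat _ e he
    refine mem_filter.2 ⟨mem_inter.2 ⟨hT he, lat_mono ?_ he⟩, hv⟩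
    exact three_cube_sub (fun i => by linarith [blk_sub hn hk' i])
  · intro k hk
    exact (mem_filter.1 hk).2.2

theorem three_card_lat (c : Pt d) (l : ℕ) :
    (lat (cube c l)).card = (lat (cube (0 : Pt d) l)).card := by
  have h : cube c l = (cube (0 : Pt d) l).map (tr c) := by rw [tr_cube, zero_add]
  rw [h, tr_lat, card_map]

theorem three_IP_shift {p q : ℝ} (hq : 1 ≤ q) (hp0 : 0 ≤ p) (hp1 : p ≤ 1) (c : Pt d) (l R : ℕ) :
    IP p q (ThreeC (0 : Pt d) l R) = IP p q (ThreeC c l R) := by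
  unfold IP
  rw [← IE_shift hq hp0 hp1 (threeC_loc c l R) c]
  congr 1
  funext A
  apply ind_congr
  have := threeC_shift (v := c) (c := (0 : Pt d)) (l := l) (R := R) (A := A)
  rw [zero_add] at this
  exact this.symm

theorem three_count {p q : ℝ} (hq : 1 ≤ q) (hp0 : 0 < p) (hp1 : p ≤ 1) {l m n : ℕ}
    (hn : n = (2 * l + 1) * m + l + 1) :
    (2 * (m : ℝ) + 1) ^ d * IP p q (ThreeC (0 : Pt d) l (2 * n)) ≤
      (2 * q / p) ^ (lat (cube (0 : Pt d) l)).card * (bd (cube (0 : Pt d) n)).card := by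
  have hM : 0 ≤ (2 * q / p) ^ (lat (cube (0 : Pt d) l)).card := by positivity
  have hsub : ∀ k ∈ cube (0 : Pt d) m, cube (blk l k) l ⊆ cube (0 : Pt d) n := fun k hk =>
    three_cube_sub (fun i => by linarith [blk_sub hn hk i])
  have h1 : ∀ k ∈ cube (0 : Pt d) m, IP p q (ThreeC (0 : Pt d) l (2 * n)) ≤
      (2 * q / p) ^ (lat (cube (0 : Pt d) l)).card * IE p q (fun A => ind (Trif (blk l k) l n A)) := by
    intro k hk
    rw [three_IP_shift hq hp0.le hp1 (blk l k), ← three_card_lat (blk l k)]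
    exact IP_open hq hp0 hp1 (isLat_lat _) (threeC_loc _ _ _) (trif_loc (hsub k hk))
      (fun A hA hS => three_trif (blk_sub hn hk) hA hS)
  have h2 := sum_le_sum h1
  rw [sum_const, card_cube, nsmul_eq_mul, ← mul_sum] at h2
  push_cast at h2
  refine h2.trans (mul_le_mul_of_nonneg_left ?_ hM)
  obtain ⟨h3, h4⟩ := three_IE_sum (cube (0 : Pt d) m) hq hp0.le hp1
    (D0 := lat (cube (0 : Pt d) n)) (F := fun k A => ind (Trif (blk l k) l n A))
    (fun k hk => trif_loc (hsub k hk))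
  rw [← h3, ← IE_const (d := d) hq hp0.le hp1 ((bd (cube (0 : Pt d) n)).card : ℝ)]
  refine IE_mono hq hp0.le hp1 h4 (D1 := ∅) (fun A => rfl) ?_
  intro A _
  exact three_sum_le hn A

end

theorem three_small {d : ℕ} (hd : 1 ≤ d) {p q : ℝ} (hq : 1 ≤ q) (hp0 : 0 < p) (hp1 : p ≤ 1)
    (l : ℕ) {ε : ℝ} (hε : 0 < ε) :
    ∃ R0 : ℕ, ∀ R, R0 ≤ R → IP p q (ThreeC (0 : Pt d) l R) ≤ ε := by
  obtain ⟨e, rfl⟩ : ∃ e, d = e + 1 := ⟨d - 1, by omega⟩
  set M : ℝ := (2 * q / p) ^ (lat (cube (0 : Pt (e + 1)) l)).card with hM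
  have hM0 : 0 ≤ M := by positivity
  obtain ⟨m, hm⟩ := exists_nat_ge (M * ((e + 1) * (2 * (2 * l + 3) ^ e)) / ε)
  set n : ℕ := (2 * l + 1) * m + l + 1 with hn
  refine ⟨2 * n, fun R hR => ?_⟩
  have h1 : IP p q (ThreeC (0 : Pt (e + 1)) l R) ≤ IP p q (ThreeC (0 : Pt (e + 1)) l (2 * n)) := by
    refine IE_mono hq hp0.le hp1 (threeC_loc _ _ _) (threeC_loc _ _ _) ?_
    intro A _
    apply ind_mono
    intro h
    refine threeC_sub subset_rfl ?_ ?_ h
    · intro x hx
      rw [mem_cube] at *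
      intro i
      have := hx i
      have h3 : ((2 * n : ℕ) : ℤ) ≤ R := by exact_mod_cast hR
      linarith
    · have : l ≤ n := by omega
      omega
  refine h1.trans ?_
  have h2 := three_count (d := e + 1) hq hp0 hp1 hn
  have h3 := three_bd (d := e + 1) n
  rw [Nat.add_sub_cancel] at h3
  have h4 : ((bd (cube (0 : Pt (e + 1)) n)).card : ℝ) ≤
      (e + 1) * (2 * ((2 * l + 3) ^ e * (2 * (m : ℝ) + 1) ^ e)) := by
    have h5 : ((bd (cube (0 : Pt (e + 1)) n)).card : ℝ) ≤ (e + 1) * (2 * (2 * (n : ℝ) + 1) ^ e) := by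
      exact_mod_cast h3
    refine h5.trans ?_
    rw [← mul_pow]
    have h6 : 2 * (n : ℝ) + 1 ≤ (2 * l + 3) * (2 * (m : ℝ) + 1) := by
      have : (n : ℝ) = (2 * l + 1) * m + l + 1 := by rw [hn]; push_cast; ring
      rw [this]
      have : (0 : ℝ) ≤ m := Nat.cast_nonneg m
      nlinarith
    have h7 : (2 * (n : ℝ) + 1) ^ e ≤ ((2 * l + 3) * (2 * (m : ℝ) + 1)) ^ e :=
      pow_le_pow_left₀ (by positivity) h6 e
    have h8 : (0 : ℝ) ≤ (e + 1) := by positivity
    exact mul_le_mul_of_nonneg_left (by linarith) h8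
  have hm2 : M * ((e + 1) * (2 * (2 * l + 3) ^ e)) ≤ ε * (2 * (m : ℝ) + 1) := by
    rw [div_le_iff₀ hε] at hm
    have : (0 : ℝ) ≤ m := Nat.cast_nonneg m
    nlinarith
  have hpos : (0 : ℝ) < (2 * (m : ℝ) + 1) ^ (e + 1) := by positivity
  refine le_of_mul_le_mul_left ?_ hpos
  refine h2.trans ((mul_le_mul_of_nonneg_left h4 hM0).trans ?_)
  have h9 : (0 : ℝ) ≤ (2 * (m : ℝ) + 1) ^ e := by positivity
  calc M * ((e + 1) * (2 * ((2 * l + 3) ^ e * (2 * (m : ℝ) + 1) ^ e)))
      = (M * ((e + 1) * (2 * (2 * l + 3) ^ e))) * (2 * (m : ℝ) + 1) ^ e := by ring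
    _ ≤ (ε * (2 * (m : ℝ) + 1)) * (2 * (m : ℝ) + 1) ^ e := mul_le_mul_of_nonneg_right hm2 h9
    _ = (2 * (m : ℝ) + 1) ^ (e + 1) * ε := by ring

end FKB
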