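import Pool.Agent.BK.Mix
import Pool.Agent.BK.Three

open Finset Filter
noncomputable section
namespace FKB

section helpers

variable {d : ℕ}

private theorem loc_const (D0 : Finset (Pt d × Pt d)) (c : ℝ) : Loc D0 (fun _ => c) := fun _ => rfl

private theorem loc_add {D0 : Finset (Pt d × Pt d)} {F G : Finset (Pt d × Pt d) → ℝ}
    (hF : Loc D0 F) (hG : Loc D0 G) : Loc D0 (fun A => F A + G A) := by
  intro A
  show F A + G A = F (A ∩ D0) + G (A ∩ D0)
  rw [← hF A, ← hG A]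

private theorem loc_mul {D0 : Finset (Pt d × Pt d)} {F G : Finset (Pt d × Pt d) → ℝ}
    (hF : Loc D0 F) (hG : Loc D0 G) : Loc D0 (fun A => F A * G A) := by
  intro A
  show F A * G A = F (A ∩ D0) * G (A ∩ D0)
  rw [← hF A, ← hG A]

private theorem loc_neg_ind {D0 : Finset (Pt d × Pt d)} {S : Finset (Pt d × Pt d) → Prop}
    (hS : Loc D0 (fun A => ind (S A))) : Loc D0 (fun A => ind (¬ S A)) := by
  intro A
  show ind (¬ S A) = ind (¬ S (A ∩ D0))
  rw [ind_not, ind_not]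
  have := hS A
  simp only at this
  rw [this]

private theorem loc_and_ind {D0 : Finset (Pt d × Pt d)} {S T : Finset (Pt d × Pt d) → Prop}
    (hS : Loc D0 (fun A => ind (S A))) (hT : Loc D0 (fun A => ind (T A))) :
    Loc D0 (fun A => ind (S A ∧ T A)) := by
  intro A
  show ind (S A ∧ T A) = ind (S (A ∩ D0) ∧ T (A ∩ D0))
  rw [ind_and, ind_and]
  have h1 := hS A
  have h2 := hT A
  simp only at h1 h2
  rw [h1, h2]

private theorem cube_mono (c : Pt d) {n m : ℕ} (h : n ≤ m) : cube c n ⊆ cube c m := by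
  intro x hx
  rw [mem_cube] at hx ⊢
  intro i
  have := hx i
  have h' : (n : ℤ) ≤ m := by exact_mod_cast h
  linarith

variable {p q : ℝ}

private theorem IP_nonneg (hq : 1 ≤ q) (hp0 : 0 ≤ p) (hp1 : p ≤ 1)
    {D0 : Finset (Pt d × Pt d)} {S : Finset (Pt d × Pt d) → Prop}
    (hS : Loc D0 (fun A => ind (S A))) : 0 ≤ IP p q S := by
  have h := IE_mono hq hp0 hp1 (loc_const D0 0) hS (fun A _ => ind_nonneg (S A))
  rwa [IE_const hq hp0 hp1] at h

private theorem IP_le_one (hq : 1 ≤ q) (hp0 : 0 ≤ p) (hp1 : p ≤ 1)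
    {D0 : Finset (Pt d × Pt d)} {S : Finset (Pt d × Pt d) → Prop}
    (hS : Loc D0 (fun A => ind (S A))) : IP p q S ≤ 1 := by
  have h := IE_mono hq hp0 hp1 hS (loc_const D0 1) (fun A _ => ind_le_one (S A))
  rwa [IE_const hq hp0 hp1] at h

private theorem IP_mono (hq : 1 ≤ q) (hp0 : 0 ≤ p) (hp1 : p ≤ 1)
    {D0 D1 : Finset (Pt d × Pt d)} {S T : Finset (Pt d × Pt d) → Prop}
    (hS : Loc D0 (fun A => ind (S A))) (hT : Loc D1 (fun A => ind (T A)))
    (h : ∀ A, S A → T A) : IP p q S ≤ IP p q T :=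
  IE_mono hq hp0 hp1 hS hT (fun A _ => ind_mono (h A))

/-- translation invariance of the probability of `TwoC` -/
private theorem IP_two_shift (hq : 1 ≤ q) (hp0 : 0 ≤ p) (hp1 : p ≤ 1) (v : Pt d) (l R : ℕ) :
    IP p q (TwoC v l R) = IP p q (TwoC (0 : Pt d) l R) := by
  have h := IE_shift hq hp0 hp1 (twoC_loc v l R) v
  unfold IP
  rw [← h]
  congr 1
  funext A
  have h2 := twoC_shift (v := v) (c := (0 : Pt d)) (l := l) (R := R) (A := A)
  rw [zero_add] at h2
  exact ind_congr h2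

private theorem two_nonneg (hq : 1 ≤ q) (hp0 : 0 ≤ p) (hp1 : p ≤ 1) (l R : ℕ) :
    0 ≤ IP p q (TwoC (0 : Pt d) l R) := IP_nonneg hq hp0 hp1 (twoC_loc 0 l R)

private theorem two_le_one (hq : 1 ≤ q) (hp0 : 0 ≤ p) (hp1 : p ≤ 1) (l R : ℕ) :
    IP p q (TwoC (0 : Pt d) l R) ≤ 1 := IP_le_one hq hp0 hp1 (twoC_loc 0 l R)

private theorem two_anti (hq : 1 ≤ q) (hp0 : 0 ≤ p) (hp1 : p ≤ 1) {l l' R R' : ℕ}
    (h1 : l ≤ l') (h2 : R' ≤ R) (h3 : l' ≤ R') :
    IP p q (TwoC (0 : Pt d) l R) ≤ IP p q (TwoC (0 : Pt d) l' R') :=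
  IP_mono hq hp0 hp1 (twoC_loc 0 l R) (twoC_loc 0 l' R')
    (fun _ hA => twoC_sub (cube_mono 0 h1) (cube_mono 0 h2) h3 hA)

private theorem al_bdd (hq : 1 ≤ q) (hp0 : 0 ≤ p) (hp1 : p ≤ 1) (l : ℕ) :
    BddBelow (Set.range (fun k : ℕ => IP p q (TwoC (0 : Pt d) l (l + k)))) :=
  ⟨0, by rintro _ ⟨k, rfl⟩; exact two_nonneg hq hp0 hp1 _ _⟩

private theorem al_le (hq : 1 ≤ q) (hp0 : 0 ≤ p) (hp1 : p ≤ 1) {l R : ℕ} (h : l ≤ R) :
    al d p q l ≤ IP p q (TwoC (0 : Pt d) l R) := by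
  obtain ⟨k, rfl⟩ := Nat.exists_eq_add_of_le h
  exact ciInf_le (al_bdd hq hp0 hp1 l) k

private theorem al_nonneg (hq : 1 ≤ q) (hp0 : 0 ≤ p) (hp1 : p ≤ 1) (l : ℕ) :
    0 ≤ al d p q l := le_ciInf fun _ => two_nonneg hq hp0 hp1 _ _

private theorem al_le_one (hq : 1 ≤ q) (hp0 : 0 ≤ p) (hp1 : p ≤ 1) (l : ℕ) :
    al d p q l ≤ 1 := (al_le hq hp0 hp1 le_rfl).trans (two_le_one hq hp0 hp1 l l)

private theorem al_mono (hq : 1 ≤ q) (hp0 : 0 ≤ p) (hp1 : p ≤ 1) {l l' : ℕ} (h : l ≤ l') :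
    al d p q l ≤ al d p q l' :=
  le_ciInf fun k => (al_le hq hp0 hp1 (h.trans (Nat.le_add_right l' k))).trans
    (two_anti hq hp0 hp1 h le_rfl (Nat.le_add_right l' k))

private theorem al_lim (hq : 1 ≤ q) (hp0 : 0 ≤ p) (hp1 : p ≤ 1) (l : ℕ) {δ : ℝ} (hδ : 0 < δ) :
    ∃ R0 : ℕ, l ≤ R0 ∧ ∀ R, R0 ≤ R → IP p q (TwoC (0 : Pt d) l R) ≤ al d p q l + δ := by
  obtain ⟨k, hk⟩ := exists_lt_of_ciInf_lt
    (show (⨅ k : ℕ, IP p q (TwoC (0 : Pt d) l (l + k))) < al d p q l + δ by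
      show al d p q l < _
      linarith)
  exact ⟨l + k, Nat.le_add_right _ _, fun R hR =>
    (two_anti hq hp0 hp1 le_rfl hR (Nat.le_add_right _ _)).trans hk.le⟩

private theorem alp_bdd (hq : 1 ≤ q) (hp0 : 0 ≤ p) (hp1 : p ≤ 1) :
    BddAbove (Set.range (fun l : ℕ => al d p q l)) :=
  ⟨1, by rintro _ ⟨k, rfl⟩; exact al_le_one hq hp0 hp1 k⟩

private theorem al_le_alp' (hq : 1 ≤ q) (hp0 : 0 ≤ p) (hp1 : p ≤ 1) (l : ℕ) :
    al d p q l ≤ alp d p q := le_ciSup (alp_bdd hq hp0 hp1) l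

private theorem alp_approx {δ : ℝ} (hδ : 0 < δ) :
    ∃ l : ℕ, alp d p q - δ < al d p q l :=
  exists_lt_of_lt_ciSup (show alp d p q - δ < ⨆ l : ℕ, al d p q l by
    show _ < alp d p q
    linarith)

end helpers

theorem al_le_alp {d : ℕ} {p q : ℝ} (hq : 1 ≤ q) (hp0 : 0 < p) (hp1 : p ≤ 1) (l : ℕ) :
    0 ≤ al d p q l ∧ al d p q l ≤ alp d p q ∧ alp d p q ≤ 1 :=
  ⟨al_nonneg hq hp0.le hp1 l, al_le_alp' hq hp0.le hp1 l,
    ciSup_le fun l => al_le_one hq hp0.le hp1 l⟩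

/-- the main estimate behind `alp_sq` -/
private theorem alp_sq_aux {d : ℕ} (hd : 1 ≤ d) {p q : ℝ} (hq : 1 ≤ q) (hp0 : 0 < p) (hp1 : p ≤ 1)
    {δ : ℝ} (hδ : 0 < δ) (l : ℕ) (hl : alp d p q - δ < al d p q l) (R : ℕ) (hR : l ≤ R) :
    alp d p q - 4 * δ ≤ IP p q (TwoC (0 : Pt d) l R) ^ 2 := by
  obtain ⟨M, hM⟩ := IE_mix hq hp0.le hp1 (twoC_loc (0 : Pt d) l R) hδ
  -- the far cube
  obtain ⟨N, hN⟩ : ∃ N : ℕ, N = M + R + 1 := ⟨_, rfl⟩
  obtain ⟨v, hv⟩ : ∃ v : Pt d, v = Pi.single (⟨0, by omega⟩ : Fin d) (N : ℤ) := ⟨_, rfl⟩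
  have hdisj : Disjoint (lat (cube v R)) (lat (cube (0 : Pt d) M)) := by
    rw [Finset.disjoint_left]
    intro e he he'
    have h1 := (verts_lat _ e he).1
    have h2 := (verts_lat _ e he').1
    rw [mem_cube] at h1 h2
    have h1' := h1 ⟨0, by omega⟩
    have h2' := h2 ⟨0, by omega⟩
    rw [hv, Pi.single_eq_same, abs_le] at h1'
    rw [Pi.zero_apply, abs_le] at h2'
    have : (N : ℤ) = M + R + 1 := by rw [hN]; push_cast; ring
    rw [this] at h1'
    omega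
  have hmix := hM (lat (cube v R)) (fun A => ind (TwoC v l R A)) (twoC_loc v l R)
    (fun A => ⟨ind_nonneg _, ind_le_one _⟩) hdisj
  -- geometry of cubes
  have habs : ∀ i, |v i| ≤ (N : ℤ) := by
    intro i
    rw [hv, Pi.single_apply]
    split_ifs
    · rw [abs_of_nonneg (by positivity)]
    · rw [abs_zero]; positivity
  have hc1 : ∀ n : ℕ, cube (0 : Pt d) n ⊆ cube v (n + N) := by
    intro n x hx
    rw [mem_cube] at hx ⊢
    intro i
    have h1 := hx i
    have h2 := habs i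
    rw [Pi.zero_apply, sub_zero] at h1
    rw [abs_le] at h1 h2 ⊢
    push_cast
    constructor <;> linarith [h1.1, h1.2, h2.1, h2.2]
  have hc2 : ∀ n : ℕ, cube v n ⊆ cube (0 : Pt d) (n + N) := by
    intro n x hx
    rw [mem_cube] at hx ⊢
    intro i
    have h1 := hx i
    have h2 := habs i
    rw [Pi.zero_apply, sub_zero]
    rw [abs_le] at h1 h2 ⊢
    push_cast
    constructor <;> linarith [h1.1, h1.2, h2.1, h2.2]
  -- the large scale
  obtain ⟨S0, hS0, hS0'⟩ := al_lim (d := d) hq hp0.le hp1 (l + N) hδ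
  obtain ⟨S, hS⟩ : ∃ S : ℕ, S = S0 + R := ⟨_, rfl⟩
  have hB : IP p q (TwoC v (l + N) S) ≤ alp d p q + δ := by
    rw [IP_two_shift hq hp0.le hp1]
    refine (hS0' S (by omega)).trans ?_
    linarith [al_le_alp' (d := d) hq hp0.le hp1 (l + N)]
  have hU : alp d p q - δ ≤ IP p q (TwoC (0 : Pt d) l (S + N)) :=
    hl.le.trans (al_le hq hp0.le hp1 (by omega))
  have hW : alp d p q - δ ≤ IP p q (TwoC v l S) := by
    rw [IP_two_shift hq hp0.le hp1]
    exact hl.le.trans (al_le hq hp0.le hp1 (by omega))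
  -- the common set of edges
  obtain ⟨D, hD⟩ : ∃ D : Finset (Pt d × Pt d), D = lat (cube (0 : Pt d) (S + N)) ∪
    lat (cube v S) ∪ lat (cube v R) ∪ lat (cube (0 : Pt d) R) := ⟨_, rfl⟩
  have d1 : lat (cube (0 : Pt d) (S + N)) ⊆ D := by
    rw [hD]
    exact subset_union_left.trans (subset_union_left.trans subset_union_left)
  have d2 : lat (cube v S) ⊆ D := by
    rw [hD]
    exact subset_union_right.trans (subset_union_left.trans subset_union_left)
  have d3 : lat (cube v R) ⊆ D := by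
    rw [hD]
    exact subset_union_right.trans subset_union_left
  have d4 : lat (cube (0 : Pt d) R) ⊆ D := by
    rw [hD]
    exact subset_union_right
  have lU : Loc D (fun A => ind (TwoC (0 : Pt d) l (S + N) A)) := (twoC_loc _ _ _).mono d1
  have lW : Loc D (fun A => ind (TwoC v l S A)) := (twoC_loc _ _ _).mono d2
  have lB : Loc D (fun A => ind (TwoC v (l + N) S A)) := (twoC_loc _ _ _).mono d2
  have lF : Loc D (fun A => ind (TwoC (0 : Pt d) l R A)) := (twoC_loc _ _ _).mono d4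
  have lG : Loc D (fun A => ind (TwoC v l R A)) := (twoC_loc _ _ _).mono d3
  have hkey : IE p q (fun A => ind (TwoC (0 : Pt d) l (S + N) A) + ind (TwoC v l S A)) ≤
      IE p q (fun A => ind (TwoC (0 : Pt d) l R A) * ind (TwoC v l R A) +
        ind (TwoC v (l + N) S A)) := by
    refine IE_mono hq hp0.le hp1 (loc_add lU lW) (loc_add (loc_mul lF lG) lB) ?_
    intro A _
    have i1 : TwoC (0 : Pt d) l (S + N) A → TwoC (0 : Pt d) l R A := fun h =>
      twoC_sub (cube_mono 0 le_rfl) (cube_mono 0 (by omega)) hR h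
    have i2 : TwoC v l S A → TwoC v l R A := fun h =>
      twoC_sub (cube_mono v le_rfl) (cube_mono v (by omega)) hR h
    have i3 : TwoC (0 : Pt d) l (S + N) A → TwoC v (l + N) S A := fun h =>
      twoC_sub (hc1 l) (hc2 S) (by omega) h
    have i4 : TwoC v l S A → TwoC v (l + N) S A := fun h =>
      twoC_sub (cube_mono v (by omega)) (cube_mono v le_rfl) (by omega) h
    by_cases h1 : TwoC (0 : Pt d) l (S + N) A
    · rw [ind_true h1, ind_true (i1 h1), ind_true (i3 h1)]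
      linarith [ind_mono i2]
    · by_cases h2 : TwoC v l S A
      · rw [ind_false h1, ind_true h2, ind_true (i4 h2)]
        have := mul_nonneg (ind_nonneg (TwoC (0 : Pt d) l R A)) (ind_nonneg (TwoC v l R A))
        linarith
      · rw [ind_false h1, ind_false h2]
        have := mul_nonneg (ind_nonneg (TwoC (0 : Pt d) l R A)) (ind_nonneg (TwoC v l R A))
        linarith [ind_nonneg (TwoC v (l + N) S A)]
  rw [IE_add hq hp0.le hp1 lU lW, IE_add hq hp0.le hp1 (loc_mul lF lG) lB] at hkey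
  have e1 : IE p q (fun A => ind (TwoC v l R A)) = IP p q (TwoC (0 : Pt d) l R) := by
    rw [← IP_two_shift hq hp0.le hp1 v l R]; rfl
  have e2 : IE p q (fun A => ind (TwoC (0 : Pt d) l R A)) = IP p q (TwoC (0 : Pt d) l R) := rfl
  rw [e1, e2] at hmix
  have e3 : IE p q (fun A => ind (TwoC (0 : Pt d) l (S + N) A)) =
    IP p q (TwoC (0 : Pt d) l (S + N)) := rfl
  have e4 : IE p q (fun A => ind (TwoC v l S A)) = IP p q (TwoC v l S) := rfl
  have e5 : IE p q (fun A => ind (TwoC v (l + N) S A)) = IP p q (TwoC v (l + N) S) := rfl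
  rw [e3, e4, e5] at hkey
  rw [abs_le] at hmix
  have := hmix.2
  rw [pow_two]
  linarith

theorem alp_sq {d : ℕ} (hd : 1 ≤ d) {p q : ℝ} (hq : 1 ≤ q) (hp0 : 0 < p) (hp1 : p ≤ 1) :
    alp d p q ≤ alp d p q ^ 2 := by
  refine le_of_forall_pos_le_add fun ε hε => ?_
  set δ : ℝ := min (ε / 12) 1 with hδ
  have hδ0 : 0 < δ := lt_min (by linarith) one_pos
  have hδ1 : δ ≤ 1 := min_le_right _ _
  have hδε : δ ≤ ε / 12 := min_le_left _ _
  obtain ⟨l, hl⟩ := alp_approx (d := d) (p := p) (q := q) hδ0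
  obtain ⟨R, hR, hR'⟩ := al_lim (d := d) hq hp0.le hp1 l hδ0
  have h := alp_sq_aux hd hq hp0 hp1 hδ0 l hl R hR
  have h1 := hR' R le_rfl
  have h2 := two_nonneg (d := d) hq hp0.le hp1 l R
  obtain ⟨h3, h4, h5⟩ := al_le_alp (d := d) hq hp0 hp1 l
  have h6 : IP p q (TwoC (0 : Pt d) l R) ^ 2 ≤ (alp d p q + δ) ^ 2 := by
    apply pow_le_pow_left₀ h2
    linarith
  have h7 : 0 ≤ alp d p q := h3.trans h4
  nlinarith

theorem alp_merge {d : ℕ} (hd : 1 ≤ d) {p q : ℝ} (hq : 1 ≤ q) (hp0 : 0 < p) (hp1 : p ≤ 1)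
    (l : ℕ) :
    al d p q l ≤ (2 * q / p) ^ (lat (cube (0 : Pt d) l)).card * (1 - alp d p q) := by
  set C : ℝ := (2 * q / p) ^ (lat (cube (0 : Pt d) l)).card with hC
  have hC0 : 0 ≤ C := by
    rw [hC]
    have : 0 ≤ 2 * q / p := div_nonneg (by linarith) hp0.le
    positivity
  -- first step
  have step1 : ∀ l', l ≤ l' → al d p q l ≤ C * (1 - al d p q l') := by
    intro l' hl'
    refine le_of_forall_pos_le_add fun ε hε => ?_
    obtain ⟨R0, hR0⟩ := three_small hd hq hp0 hp1 l' hε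
    set R : ℕ := R0 + l' with hR
    have h3 := hR0 R (by omega)
    have l2 : Loc (lat (cube (0 : Pt d) R)) (fun A => ind (TwoC (0 : Pt d) l R A)) :=
      twoC_loc _ _ _
    have l2' : Loc (lat (cube (0 : Pt d) R)) (fun A => ind (TwoC (0 : Pt d) l' R A)) :=
      twoC_loc _ _ _
    have l3 : Loc (lat (cube (0 : Pt d) R)) (fun A => ind (ThreeC (0 : Pt d) l' R A)) :=
      threeC_loc _ _ _
    have lS := loc_and_ind l2 (loc_neg_ind l3)
    have lT := loc_neg_ind l2'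
    have hopen := IP_open hq hp0 hp1 (isLat_lat (cube (0 : Pt d) l)) lS lT
      (fun A _ hA => merge hl' (by omega) hA.1 hA.2)
    have hT : IP p q (fun A => ¬ TwoC (0 : Pt d) l' R A) + IP p q (TwoC (0 : Pt d) l' R) = 1 := by
      unfold IP
      rw [← IE_add hq hp0.le hp1 lT l2']
      have e : (fun A => ind (¬ TwoC (0 : Pt d) l' R A) + ind (TwoC (0 : Pt d) l' R A)) =
          fun _ => (1 : ℝ) := by
        funext A
        rw [ind_not]; ring
      rw [e, IE_const hq hp0.le hp1]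
    have hS : IP p q (TwoC (0 : Pt d) l R) ≤
        IP p q (fun A => TwoC (0 : Pt d) l R A ∧ ¬ ThreeC (0 : Pt d) l' R A) +
          IP p q (ThreeC (0 : Pt d) l' R) := by
      unfold IP
      rw [← IE_add hq hp0.le hp1 lS l3]
      refine IE_mono hq hp0.le hp1 l2 (loc_add lS l3) ?_
      intro A _
      rw [ind_and, ind_not]
      have a1 := ind_zero_or_one (TwoC (0 : Pt d) l R A)
      have a2 := ind_zero_or_one (ThreeC (0 : Pt d) l' R A)
      rcases a1 with a1 | a1 <;> rcases a2 with a2 | a2 <;> rw [a1, a2] <;> norm_num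
    have h4 : al d p q l ≤ IP p q (TwoC (0 : Pt d) l R) := al_le hq hp0.le hp1 (by omega)
    have h5 : al d p q l' ≤ IP p q (TwoC (0 : Pt d) l' R) := al_le hq hp0.le hp1 (by omega)
    have h6 : C * IP p q (fun A => ¬ TwoC (0 : Pt d) l' R A) ≤ C * (1 - al d p q l') :=
      mul_le_mul_of_nonneg_left (by linarith) hC0
    linarith
  -- second step
  refine le_of_forall_pos_le_add fun ε hε => ?_
  obtain ⟨l', hl'⟩ := alp_approx (d := d) (p := p) (q := q) (δ := ε / (C + 1)) (by positivity)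
  have h1 := step1 (max l l') (le_max_left _ _)
  have h2 := al_mono (d := d) hq hp0.le hp1 (le_max_right l l')
  have h3 : C * (1 - al d p q (max l l')) ≤ C * (1 - alp d p q + ε / (C + 1)) :=
    mul_le_mul_of_nonneg_left (by linarith) hC0
  have h4 : C * (ε / (C + 1)) ≤ ε := by
    rw [mul_div_assoc', div_le_iff₀ (by linarith)]
    nlinarith
  have h5 : C * (1 - alp d p q + ε / (C + 1)) = C * (1 - alp d p q) + C * (ε / (C + 1)) := by ring
  linarith

end FKB
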