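import Pool.Agent.BK.Defs
import Pool.Agent.FKB.Clus

open Finset
noncomputable section
namespace FKB

theorem Comb_mem_offK {V : Type*} [DecidableEq V] {K : Finset V} {A : Finset (V × V)} {e : V × V} :
    e ∈ offK K A ↔ e ∈ A ∧ e.1 ∉ K ∧ e.2 ∉ K := by
  unfold offK
  rw [Finset.mem_filter]

theorem Comb_mem_inK {V : Type*} [DecidableEq V] {K : Finset V} {A : Finset (V × V)} {e : V × V} :
    e ∈ inK K A ↔ e ∈ A ∧ e.1 ∈ K ∧ e.2 ∈ K := by
  unfold inK
  rw [Finset.mem_filter]

/-- first visit of `K ∪ K'` -/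
theorem Comb_first {V : Type*} [DecidableEq V] {K K' : Finset V} {A : Finset (V × V)}
    (hd : Disjoint K K') {v w : V} (hvw : Conn A v w) (hw : w ∈ K ∨ w ∈ K') :
    (∃ k' ∈ K', Conn (offK K A) v k') ∨ (∃ k ∈ K, Conn (offK K' A) v k) := by
  have hdl := Finset.disjoint_left.1 hd
  by_contra hcon
  push Not at hcon
  obtain ⟨h1, h2⟩ := hcon
  have hvK : v ∉ K := fun h => h2 v h (Conn.rfl' _ _)
  have hvK' : v ∉ K' := fun h => h1 v h (Conn.rfl' _ _)
  -- invariant set
  have key := hvw.inv (fun x => x ∉ K ∧ x ∉ K' ∧ Conn (offK K A) v x ∧ Conn (offK K' A) v x) (by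
    intro e he
    constructor
    · rintro ⟨a1, a2, a3, a4⟩
      have b1 : e.2 ∉ K' := by
        intro hb
        have : e.2 ∉ K := fun h => hdl h hb
        exact h1 _ hb (a3.trans' (Conn.edge (Comb_mem_offK.2 ⟨he, a1, this⟩)))
      have b2 : e.2 ∉ K := by
        intro hb
        exact h2 _ hb (a4.trans' (Conn.edge (Comb_mem_offK.2 ⟨he, a2, b1⟩)))
      exact ⟨b2, b1, a3.trans' (Conn.edge (Comb_mem_offK.2 ⟨he, a1, b2⟩)),
        a4.trans' (Conn.edge (Comb_mem_offK.2 ⟨he, a2, b1⟩))⟩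
    · rintro ⟨a1, a2, a3, a4⟩
      have b1 : e.1 ∉ K' := by
        intro hb
        have : e.1 ∉ K := fun h => hdl h hb
        exact h1 _ hb (a3.trans' (Conn.edge (Comb_mem_offK.2 ⟨he, this, a1⟩)).symm')
      have b2 : e.1 ∉ K := by
        intro hb
        exact h2 _ hb (a4.trans' (Conn.edge (Comb_mem_offK.2 ⟨he, b1, a2⟩)).symm')
      exact ⟨b2, b1, a3.trans' (Conn.edge (Comb_mem_offK.2 ⟨he, b2, a1⟩)).symm',
        a4.trans' (Conn.edge (Comb_mem_offK.2 ⟨he, b1, a2⟩)).symm'⟩)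
  have h3 := key.1 ⟨hvK, hvK', Conn.rfl' _ _, Conn.rfl' _ _⟩
  rcases hw with h | h
  · exact h3.1 h
  · exact h3.2.1 h

theorem Comb_in_off {V : Type*} [DecidableEq V] {K K' : Finset V} {A : Finset (V × V)}
    (hd : Disjoint K K') : inK K' A ⊆ offK K A := by
  intro e he
  rw [Comb_mem_inK] at he
  rw [Comb_mem_offK]
  exact ⟨he.1, fun h => Finset.disjoint_left.1 hd h he.2.1,
    fun h => Finset.disjoint_left.1 hd h he.2.2⟩

theorem Comb_off_sub {V : Type*} [DecidableEq V] {K : Finset V} {A : Finset (V × V)} :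
    offK K A ⊆ A := Finset.filter_subset _ _

/-- the vector attached to a block -/
theorem Comb_vec {V : Type*} [DecidableEq V] (K : Finset V) (A : Finset (V × V)) (B : Finset V)
    (k b0 : V) (htri : ∃ y1 ∈ B, ∃ y2 ∈ B, ∃ y3 ∈ B,
      Conn A k y1 ∧ Conn A k y2 ∧ Conn A k y3 ∧ ¬ Conn (offK K A) y1 y2 ∧
      ¬ Conn (offK K A) y2 y3 ∧ ¬ Conn (offK K A) y1 y3) :
    ∃ g : V → ℝ, (∑ x ∈ B, g x = 0) ∧ (∃ x ∈ B, g x ≠ 0) ∧
      (∀ x ∈ B, ∀ y ∈ B, Conn (offK K A) x y → g x = g y) ∧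
      (∀ x ∈ B, g x ≠ 0 → Conn A k x ∧ ¬ Conn (offK K A) x b0) := by
  classical
  have h2 : ∃ y ∈ B, ∃ y' ∈ B, Conn A k y ∧ Conn A k y' ∧ ¬ Conn (offK K A) y y' ∧
      ¬ Conn (offK K A) y b0 ∧ ¬ Conn (offK K A) y' b0 := by
    obtain ⟨y1, h1, y2, h2, y3, h3, c1, c2, c3, n12, n23, n13⟩ := htri
    by_cases d1 : Conn (offK K A) y1 b0
    · refine ⟨y2, h2, y3, h3, c2, c3, n23, fun h => n12 (d1.trans' h.symm'),
        fun h => n13 (d1.trans' h.symm')⟩
    · by_cases d2 : Conn (offK K A) y2 b0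
      · exact ⟨y1, h1, y3, h3, c1, c3, n13, d1, fun h => n23 (d2.trans' h.symm')⟩
      · exact ⟨y1, h1, y2, h2, c1, c2, n12, d1, d2⟩
  obtain ⟨y, hy, y', hy', cy, cy', n, ny, ny'⟩ := h2
  have hcard : ∀ z ∈ B, (0 : ℝ) < ((B.filter (fun x => Conn (offK K A) z x)).card : ℝ) := by
    intro z hz
    have : 0 < (B.filter (fun x => Conn (offK K A) z x)).card :=
      Finset.card_pos.2 ⟨z, Finset.mem_filter.2 ⟨hz, Conn.rfl' _ _⟩⟩
    exact_mod_cast this
  have hsum : ∀ z ∈ B, ∑ x ∈ B, (if Conn (offK K A) z x then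
      (((B.filter (fun x => Conn (offK K A) z x)).card : ℝ))⁻¹ else 0) = 1 := by
    intro z hz
    rw [← Finset.sum_filter, Finset.sum_const, nsmul_eq_mul]
    exact mul_inv_cancel₀ (hcard z hz).ne'
  refine ⟨fun x => (if Conn (offK K A) y x then
      (((B.filter (fun x => Conn (offK K A) y x)).card : ℝ))⁻¹ else 0) -
      (if Conn (offK K A) y' x then
      (((B.filter (fun x => Conn (offK K A) y' x)).card : ℝ))⁻¹ else 0), ?_, ?_, ?_, ?_⟩
  · rw [Finset.sum_sub_distrib, hsum y hy, hsum y' hy', sub_self]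
  · refine ⟨y, hy, ?_⟩
    have h1 : Conn (offK K A) y y := Conn.rfl' _ _
    have h2 : ¬ Conn (offK K A) y' y := fun h => n h.symm'
    simp only [if_pos h1, if_neg h2, sub_zero]
    exact (inv_pos.2 (hcard y hy)).ne'
  · intro x _ z _ hxz
    have e1 : Conn (offK K A) y x ↔ Conn (offK K A) y z :=
      ⟨fun h => h.trans' hxz, fun h => h.trans' hxz.symm'⟩
    have e2 : Conn (offK K A) y' x ↔ Conn (offK K A) y' z :=
      ⟨fun h => h.trans' hxz, fun h => h.trans' hxz.symm'⟩
    simp only [e1, e2]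
  · intro x _ hx
    by_cases h1 : Conn (offK K A) y x
    · exact ⟨cy.trans' (h1.mono' Comb_off_sub), fun h => ny (h1.trans' h)⟩
    · by_cases h2 : Conn (offK K A) y' x
      · exact ⟨cy'.trans' (h2.mono' Comb_off_sub), fun h => ny' (h2.trans' h)⟩
      · exact absurd (by simp [h1, h2]) hx

/-- the number of disjoint blocks whose removal splits their cluster into at least three parts
reaching `B` is at most the number of points of `B` -/
theorem trif_count {V ι : Type*} [DecidableEq V] (I : Finset ι) (K : ι → Finset V)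
    (A : Finset (V × V)) (B : Finset V)
    (hdisj : ∀ i ∈ I, ∀ j ∈ I, i ≠ j → Disjoint (K i) (K j))
    (hB : ∀ i ∈ I, Disjoint (K i) B)
    (hconn : ∀ i ∈ I, ∀ u ∈ K i, ∀ v ∈ K i, Conn (inK (K i) A) u v)
    (htri : ∀ i ∈ I, ∃ k ∈ K i, ∃ y1 ∈ B, ∃ y2 ∈ B, ∃ y3 ∈ B,
      Conn A k y1 ∧ Conn A k y2 ∧ Conn A k y3 ∧ ¬ Conn (offK (K i) A) y1 y2 ∧
      ¬ Conn (offK (K i) A) y2 y3 ∧ ¬ Conn (offK (K i) A) y1 y3) :
    I.card ≤ B.card := by
  classical
  rcases I.eq_empty_or_nonempty with rfl | ⟨i0, hi0⟩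
  · simp
  have : Nonempty V := ⟨(htri i0 hi0).choose⟩
  -- choose the points `k i`
  choose! k hk hk' using htri
  -- the roots
  let R : V → Finset V := fun v => B.filter (fun b => Conn A v b)
  let rt : V → V := fun v => if h : (R v).Nonempty then h.choose else v
  have hrt : ∀ i ∈ I, rt (k i) ∈ B ∧ Conn A (k i) (rt (k i)) := by
    intro i hi
    obtain ⟨y1, h1, _, _, _, _, c1, _⟩ := hk' i hi
    have hne : (R (k i)).Nonempty := ⟨y1, Finset.mem_filter.2 ⟨h1, c1⟩⟩
    have h2 : rt (k i) = hne.choose := dif_pos hne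
    have h3 := hne.choose_spec
    rw [← h2] at h3
    exact Finset.mem_filter.1 h3
  have hRcongr : ∀ u v, Conn A u v → R u = R v := by
    intro u v huv
    ext b
    simp only [R, Finset.mem_filter]
    exact and_congr_right fun _ => ⟨fun h => huv.symm'.trans' h, fun h => huv.trans' h⟩
  have hrteq : ∀ i ∈ I, ∀ j ∈ I, Conn A (k i) (k j) → rt (k i) = rt (k j) := by
    intro i hi j hj hij
    have h1 := hRcongr _ _ hij
    have hne : (R (k i)).Nonempty := ⟨rt (k i), Finset.mem_filter.2 (hrt i hi)⟩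
    have hne' : (R (k j)).Nonempty := ⟨rt (k j), Finset.mem_filter.2 (hrt j hj)⟩
    have h2 : rt (k i) = hne.choose := dif_pos hne
    have h3 : rt (k j) = hne'.choose := dif_pos hne'
    rw [h2, h3]
    congr 1
    ext b
    rw [h1]
  -- the vectors
  have hvec := fun i (hi : i ∈ I) => Comb_vec (K i) A B (k i) (rt (k i)) (hk' i hi)
  choose! g g1 g2 g3 g4 using hvec
  -- inner connectivity
  have hin : ∀ i ∈ I, ∀ j ∈ I, i ≠ j → ∀ u ∈ K j, ∀ v ∈ K j, Conn (offK (K i) A) u v := by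
    intro i hi j hj hij u hu v hv
    exact (hconn j hj u hu v hv).mono' (Comb_in_off (hdisj i hi j hj hij))
  -- case (a)
  have caseA : ∀ i ∈ I, ∀ j ∈ I, i ≠ j → Conn A (k i) (k j) →
      ¬ Conn (offK (K i) A) (k j) (rt (k i)) → ∑ x ∈ B, g i x * g j x = 0 := by
    intro i hi j hj hij hc hn
    have hd := hdisj i hi j hj hij
    have hr := hrteq i hi j hj hc
    -- `k i` is joined to the root off `K j`
    have hki : Conn (offK (K j) A) (k i) (rt (k i)) := by
      rcases Comb_first hd (hrt i hi).2.symm' (Or.inl (hk i hi)) with ⟨k', hk', h⟩ | ⟨k', hk', h⟩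
      · exact absurd ((hin i hi j hj hij _ (hk j hj) _ hk').trans' h.symm') hn
      · exact (hin j hj i hi hij.symm _ (hk i hi) _ hk').trans' h.symm'
    have hclass : ∀ x ∈ B, g j x ≠ 0 → Conn (offK (K i) A) x (k j) := by
      intro x hx hgx
      obtain ⟨h1, h2⟩ := g4 j hj x hx hgx
      rcases Comb_first hd h1.symm' (Or.inr (hk j hj)) with ⟨k', hk', h⟩ | ⟨k', hk', h⟩
      · exact h.trans' (hin i hi j hj hij _ hk' _ (hk j hj))
      · exfalso
        apply h2
        rw [← hr]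
        exact (h.trans' (hin j hj i hi hij.symm _ hk' _ (hk i hi))).trans' hki
    obtain ⟨x0, hx0, hgx0⟩ := g2 j hj
    have hconst : ∀ x ∈ B, g i x * g j x = g i x0 * g j x := by
      intro x hx
      by_cases hgx : g j x = 0
      · rw [hgx, mul_zero, mul_zero]
      · rw [g3 i hi x hx x0 hx0 ((hclass x hx hgx).trans' (hclass x0 hx0 hgx0).symm')]
    rw [Finset.sum_congr rfl hconst, ← Finset.mul_sum, g1 j hj, mul_zero]
  have hortho : ∀ i ∈ I, ∀ j ∈ I, i ≠ j → ∑ x ∈ B, g i x * g j x = 0 := by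
    intro i hi j hj hij
    by_cases hc : Conn A (k i) (k j)
    · by_cases h1 : Conn (offK (K i) A) (k j) (rt (k i))
      · by_cases h2 : Conn (offK (K j) A) (k i) (rt (k j))
        · apply Finset.sum_eq_zero
          intro x hx
          by_contra hne
          have hgi : g i x ≠ 0 := fun h => hne (by rw [h, zero_mul])
          have hgj : g j x ≠ 0 := fun h => hne (by rw [h, mul_zero])
          obtain ⟨a1, a2⟩ := g4 i hi x hx hgi
          obtain ⟨b1, b2⟩ := g4 j hj x hx hgj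
          rcases Comb_first (hdisj i hi j hj hij) a1.symm' (Or.inl (hk i hi)) with
            ⟨k', hk', h⟩ | ⟨k', hk', h⟩
          · exact a2 ((h.trans' (hin i hi j hj hij _ hk' _ (hk j hj))).trans' h1)
          · exact b2 ((h.trans' (hin j hj i hi hij.symm _ hk' _ (hk i hi))).trans' h2)
        · rw [← caseA j hj i hi hij.symm hc.symm' h2]
          exact Finset.sum_congr rfl fun x _ => mul_comm _ _
      · exact caseA i hi j hj hij hc h1
    · apply Finset.sum_eq_zero
      intro x hx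
      by_contra hne
      have hgi : g i x ≠ 0 := fun h => hne (by rw [h, zero_mul])
      have hgj : g j x ≠ 0 := fun h => hne (by rw [h, mul_zero])
      exact hc ((g4 i hi x hx hgi).1.trans' (g4 j hj x hx hgj).1.symm')
  -- linear algebra
  let v : I → EuclideanSpace ℝ B := fun i => WithLp.toLp 2 (fun x : B => g i x)
  have hv0 : ∀ i, v i ≠ 0 := by
    intro i h
    obtain ⟨x, hx, hgx⟩ := g2 i i.2
    apply hgx
    have := congrFun (congrArg WithLp.ofLp h) ⟨x, hx⟩
    simpa [v] using this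
  have hvo : Pairwise fun i j => inner ℝ (v i) (v j) = 0 := by
    intro i j hij
    have h1 := hortho i i.2 j j.2 (fun h => hij (Subtype.ext h))
    rw [PiLp.inner_apply]
    simp only [v]
    rw [← h1, ← Finset.sum_coe_sort B (fun x => g i x * g j x)]
    apply Finset.sum_congr rfl
    intro x _
    simp [mul_comm]
  have hli := linearIndependent_of_ne_zero_of_inner_eq_zero hv0 hvo
  have := hli.fintype_card_le_finrank
  simpa using this

end FKB
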