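import Pool.Agent.BK.Lower

/-!
Comparison of random-cluster measures with different cluster weights, and the lower bound for a
real cluster weight `q` from the statement `MainCube` for another cluster weight `Q`.
-/

open Finset Filter
noncomputable section
namespace FKB

section comparison

variable {V : Type*} [DecidableEq V]

/-- Holley's criterion for two random-cluster measures with different cluster weights -/
theorem compQ_E_le {D : Finset (V × V)} {w w' : V × V → ℝ} {q Q : ℝ} (hq : 0 < q) (hQ : 0 < Q)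
    (hw : Adm D w) (hw' : Adm D w')
    (hfour : ∀ A, A ⊆ D → ∀ B, B ⊆ D →
      wt D w Q A * wt D w' q B ≤ wt D w Q (A ∩ B) * wt D w' q (A ∪ B))
    {F : Finset (V × V) → ℝ} (hF : Inc D F) : E D w Q F ≤ E D w' q F := by
  have hZ := Z_pos hQ hw
  have hZ' := Z_pos hq hw'
  have hg : ∀ A, A ⊆ D → 0 ≤ F A - F ∅ := fun A hA =>
    sub_nonneg.2 (hF ∅ A (Finset.empty_subset _) hA)
  have key := holley_four_aux (D := D) (fun A => wt D w Q A * (F A - F ∅)) (fun A => wt D w' q A)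
    (fun A => wt D w Q A) (fun A => wt D w' q A * (F A - F ∅))
    (fun A hA => mul_nonneg (wt_nonneg hQ hw hA) (hg A hA))
    (fun A hA => wt_nonneg hq hw' hA) (fun A hA => wt_nonneg hQ hw hA)
    (fun A hA => mul_nonneg (wt_nonneg hq hw' hA) (hg A hA))
    (fun A hA B hB => by
      have a1 : A ∩ B ⊆ D := fun e he => hA (Finset.mem_inter.1 he).1
      have a2 : A ∪ B ⊆ D := Finset.union_subset hA hB
      have b1 := hfour A hA B hB
      have b2 : F A - F ∅ ≤ F (A ∪ B) - F ∅ :=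
        sub_le_sub_right (hF A (A ∪ B) Finset.subset_union_left a2) _
      calc wt D w Q A * (F A - F ∅) * wt D w' q B
          = (wt D w Q A * wt D w' q B) * (F A - F ∅) := by ring
        _ ≤ (wt D w Q (A ∩ B) * wt D w' q (A ∪ B)) * (F (A ∪ B) - F ∅) :=
            mul_le_mul b1 b2 (hg A hA)
              (mul_nonneg (wt_nonneg hQ hw a1) (wt_nonneg hq hw' a2))
        _ = _ := by ring)
  have h1 : E D w Q (fun A => F A - F ∅) ≤ E D w' q (fun A => F A - F ∅) := by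
    unfold E
    rw [div_le_div_iff₀ hZ hZ']
    unfold Z
    linarith [key]
  have h2 := E_sub (D := D) (w := w) (q := Q) F (fun _ => F ∅)
  have h3 := E_sub (D := D) (w := w') (q := q) F (fun _ => F ∅)
  rw [E_const hQ hw] at h2
  rw [E_const hq hw'] at h3
  rw [h2, h3] at h1
  linarith

/-- a smaller cluster weight gives a larger measure -/
theorem E_anti_q {D : Finset (V × V)} {w : V × V → ℝ} {q Q : ℝ} (hq : 1 ≤ q) (hqQ : q ≤ Q)
    (hw : Adm D w) {F : Finset (V × V) → ℝ} (hF : Inc D F) : E D w Q F ≤ E D w q F := by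
  have hq0 : 0 < q := by linarith
  have hQ0 : 0 < Q := by linarith
  refine compQ_E_le hq0 hQ0 hw hw (fun A hA B hB => ?_) hF
  have hAB : A ∩ B ⊆ D := fun e he => hA (Finset.mem_inter.1 he).1
  have hAB' : A ∪ B ⊆ D := Finset.union_subset hA hB
  have h0 := holley_wt_four hq hw hw (fun e _ => le_rfl) hA hB
  have hQq : ∀ {C : Finset (V × V)}, wt D w Q C = wt D w q C * (q / Q) ^ rk C := by
    intro C
    unfold wt
    rw [div_pow, inv_pow, inv_pow]
    field_simp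
  rw [hQq, hQq]
  have hr : rk (A ∩ B) ≤ rk A := rk_mono Finset.inter_subset_left
  have hle : (q / Q) ^ rk A ≤ (q / Q) ^ rk (A ∩ B) :=
    pow_le_pow_of_le_one (by positivity) ((div_le_one hQ0).2 hqQ) hr
  have hn : 0 ≤ wt D w q (A ∩ B) * wt D w q (A ∪ B) :=
    mul_nonneg (wt_nonneg hq0 hw hAB) (wt_nonneg hq0 hw hAB')
  calc wt D w q A * (q / Q) ^ rk A * wt D w q B
      = (wt D w q A * wt D w q B) * (q / Q) ^ rk A := by ring
    _ ≤ (wt D w q (A ∩ B) * wt D w q (A ∪ B)) * (q / Q) ^ rk (A ∩ B) :=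
        mul_le_mul h0 hle (by positivity) hn
    _ = _ := by ring

theorem compQ_wt_const {D : Finset (V × V)} (p q : ℝ) {A : Finset (V × V)} (hA : A ⊆ D) :
    wt D (fun _ => p) q A = p ^ A.card * (1 - p) ^ (D.card - A.card) * (q⁻¹) ^ rk A := by
  unfold wt
  rw [Finset.prod_const, Finset.prod_const, Finset.card_sdiff_of_subset hA]

/-- the rank grows at most by one for each new edge -/
theorem compQ_rk_le (A B : Finset (V × V)) : rk A ≤ rk (A ∩ B) + (A \ B).card := by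
  have h1 : A = (A ∩ B) ∪ (A \ B) := by
    ext e
    simp only [Finset.mem_union, Finset.mem_inter, Finset.mem_sdiff]
    by_cases h : e ∈ B <;> simp [h]
  have h2 := rk_submod (A ∩ B) (A \ B)
  rw [← h1] at h2
  have h3 := rk_le_card (A \ B)
  omega

/-- the second comparison inequality: a larger cluster weight and a larger `p / (q (1 - p))` -/
theorem E_comp_odds {D : Finset (V × V)} {q Q p P : ℝ} (hQ : 1 ≤ Q) (hQq : Q ≤ q) (hP0 : 0 ≤ P)
    (hP1 : P ≤ 1) (hp0 : 0 ≤ p) (hp1 : p ≤ 1) (hodds : P * (1 - p) * q ≤ p * (1 - P) * Q)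
    {F : Finset (V × V) → ℝ} (hF : Inc D F) :
    E D (fun _ => P) Q F ≤ E D (fun _ => p) q F := by
  have hQ0 : 0 < Q := by linarith
  have hq0 : 0 < q := by linarith
  refine compQ_E_le hq0 hQ0 (fun _ _ => ⟨hP0, hP1⟩) (fun _ _ => ⟨hp0, hp1⟩)
    (fun A hA B hB => ?_) hF
  have hAB : A ∩ B ⊆ D := fun e he => hA (Finset.mem_inter.1 he).1
  have hAB' : A ∪ B ⊆ D := Finset.union_subset hA hB
  rw [compQ_wt_const P Q hA, compQ_wt_const p q hB, compQ_wt_const P Q hAB,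
    compQ_wt_const p q hAB']
  obtain ⟨m, hm⟩ : ∃ m, (A ∩ B).card = m := ⟨_, rfl⟩
  obtain ⟨a, ha⟩ : ∃ a, (A \ B).card = a := ⟨_, rfl⟩
  obtain ⟨b, hb⟩ : ∃ b, (B \ A).card = b := ⟨_, rfl⟩
  have c1 : A.card = m + a := by
    rw [← hm, ← ha, Finset.card_inter_add_card_sdiff]
  have c2 : B.card = m + b := by
    rw [← hm, ← hb, Finset.inter_comm, Finset.card_inter_add_card_sdiff]
  have c3 : (A ∪ B).card = m + a + b := by
    have := Finset.card_union_add_card_inter A B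
    omega
  obtain ⟨c, hc⟩ : ∃ c, D.card = m + a + b + c := by
    have := Finset.card_le_card hAB'
    exact ⟨D.card - (m + a + b), by omega⟩
  have r1 : rk (A ∩ B) ≤ rk A := rk_mono Finset.inter_subset_left
  have r2 : rk B ≤ rk (A ∪ B) := rk_mono Finset.subset_union_right
  have r3 := rk_submod A B
  have r4 := compQ_rk_le A B
  rw [ha] at r4
  obtain ⟨s, hs⟩ := Nat.exists_eq_add_of_le r1
  obtain ⟨t, ht⟩ := Nat.exists_eq_add_of_le r2
  have hts : t ≤ s := by omega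
  have hsa : s ≤ a := by omega
  rw [hm, c1, c2, c3, hc, hs, ht]
  have e1 : m + a + b + c - (m + a) = b + c := by omega
  have e2 : m + a + b + c - (m + b) = a + c := by omega
  have e3 : m + a + b + c - m = a + b + c := by omega
  have e4 : m + a + b + c - (m + a + b) = c := by omega
  rw [e1, e2, e3, e4]
  have hi0 : 0 < Q⁻¹ := inv_pos.2 hQ0
  have hj0 : 0 < q⁻¹ := inv_pos.2 hq0
  have hi1 : Q⁻¹ ≤ 1 := inv_le_one_of_one_le₀ hQ
  have hji : q⁻¹ ≤ Q⁻¹ := inv_anti₀ hQ0 hQq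
  have h1p : 0 ≤ 1 - p := by linarith
  have h1P : 0 ≤ 1 - P := by linarith
  -- the core inequality
  have hbase : P * (1 - p) * Q⁻¹ ≤ p * (1 - P) * q⁻¹ := by
    have h := mul_le_mul_of_nonneg_right hodds (mul_nonneg hi0.le hj0.le)
    have l1 : P * (1 - p) * q * (Q⁻¹ * q⁻¹) = P * (1 - p) * Q⁻¹ := by
      field_simp
    have l2 : p * (1 - P) * Q * (Q⁻¹ * q⁻¹) = p * (1 - P) * q⁻¹ := by
      field_simp
    rw [l1, l2] at h
    exact h
  have hpow : (P * (1 - p)) ^ a * (Q⁻¹) ^ a ≤ (p * (1 - P)) ^ a * (q⁻¹) ^ a := by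
    rw [← mul_pow, ← mul_pow]
    exact pow_le_pow_left₀ (mul_nonneg (mul_nonneg hP0 h1p) hi0.le) hbase a
  have hcore : (P * (1 - p)) ^ a * (Q⁻¹) ^ s ≤ (p * (1 - P)) ^ a * (q⁻¹) ^ t := by
    have h2 : (q⁻¹) ^ a * (Q⁻¹) ^ s ≤ (Q⁻¹) ^ a * (q⁻¹) ^ t := by
      obtain ⟨u, hu⟩ := Nat.exists_eq_add_of_le (hts.trans hsa)
      rw [hu, pow_add, pow_add]
      have h3 : (q⁻¹) ^ u ≤ (Q⁻¹) ^ u := pow_le_pow_left₀ hj0.le hji u
      have h4 : (Q⁻¹) ^ s ≤ (Q⁻¹) ^ t := pow_le_pow_of_le_one hi0.le hi1 hts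
      have h5 : (q⁻¹) ^ u * (Q⁻¹) ^ s ≤ (Q⁻¹) ^ u * (Q⁻¹) ^ t :=
        mul_le_mul h3 h4 (by positivity) (by positivity)
      calc (q⁻¹) ^ t * (q⁻¹) ^ u * (Q⁻¹) ^ s = (q⁻¹) ^ t * ((q⁻¹) ^ u * (Q⁻¹) ^ s) := by ring
        _ ≤ (q⁻¹) ^ t * ((Q⁻¹) ^ u * (Q⁻¹) ^ t) :=
            mul_le_mul_of_nonneg_left h5 (by positivity)
        _ = _ := by ring
    have h6 : (P * (1 - p)) ^ a * (Q⁻¹) ^ s * (Q⁻¹) ^ a ≤
        (p * (1 - P)) ^ a * (q⁻¹) ^ t * (Q⁻¹) ^ a := by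
      calc (P * (1 - p)) ^ a * (Q⁻¹) ^ s * (Q⁻¹) ^ a
          = ((P * (1 - p)) ^ a * (Q⁻¹) ^ a) * (Q⁻¹) ^ s := by ring
        _ ≤ ((p * (1 - P)) ^ a * (q⁻¹) ^ a) * (Q⁻¹) ^ s :=
            mul_le_mul_of_nonneg_right hpow (by positivity)
        _ = (p * (1 - P)) ^ a * ((q⁻¹) ^ a * (Q⁻¹) ^ s) := by ring
        _ ≤ (p * (1 - P)) ^ a * ((Q⁻¹) ^ a * (q⁻¹) ^ t) :=
            mul_le_mul_of_nonneg_left h2 (pow_nonneg (mul_nonneg hp0 h1P) a)
        _ = _ := by ring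
    exact le_of_mul_le_mul_right h6 (by positivity)
  rw [mul_pow, mul_pow] at hcore
  have hcommon : 0 ≤ P ^ m * (1 - P) ^ (b + c) * p ^ (m + b) * (1 - p) ^ c *
      (Q⁻¹) ^ rk (A ∩ B) * (q⁻¹) ^ rk B := by positivity
  calc P ^ (m + a) * (1 - P) ^ (b + c) * (Q⁻¹) ^ (rk (A ∩ B) + s) *
        (p ^ (m + b) * (1 - p) ^ (a + c) * (q⁻¹) ^ rk B)
      = (P ^ m * (1 - P) ^ (b + c) * p ^ (m + b) * (1 - p) ^ c *
        (Q⁻¹) ^ rk (A ∩ B) * (q⁻¹) ^ rk B) * (P ^ a * (1 - p) ^ a * (Q⁻¹) ^ s) := by ring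
    _ ≤ (P ^ m * (1 - P) ^ (b + c) * p ^ (m + b) * (1 - p) ^ c *
        (Q⁻¹) ^ rk (A ∩ B) * (q⁻¹) ^ rk B) * (p ^ a * (1 - P) ^ a * (q⁻¹) ^ t) :=
        mul_le_mul_of_nonneg_left hcore hcommon
    _ = _ := by ring

end comparison

/-- `(r, Q)` is dominated by `(p, q)`, on every finite set of edges -/
def QDom (d : ℕ) (r Q p q : ℝ) : Prop :=
  ∀ (D : Finset (Pt d × Pt d)) (F : Finset (Pt d × Pt d) → ℝ), Inc D F →
    E D (fun _ => r) Q F ≤ E D (fun _ => p) q F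

theorem qdom_le {d : ℕ} {r p q Q : ℝ} (hq : 1 ≤ q) (hqQ : q ≤ Q) (hP0 : 0 ≤ r) (hPp : r ≤ p)
    (hp1 : p ≤ 1) : QDom d r Q p q := by
  intro D F hF
  have hQ : 1 ≤ Q := hq.trans hqQ
  refine (E_holley hQ (fun _ _ => ⟨hP0, hPp.trans hp1⟩) (fun _ _ => ⟨hP0.trans hPp, hp1⟩)
    (fun _ _ => hPp) hF).trans ?_
  exact E_anti_q hq hqQ (fun _ _ => ⟨hP0.trans hPp, hp1⟩) hF

theorem qdom_odds {d : ℕ} {r p q Q : ℝ} (hQ : 1 ≤ Q) (hQq : Q ≤ q) (hP0 : 0 ≤ r)
    (hP1 : r ≤ 1) (hp0 : 0 ≤ p) (hp1 : p ≤ 1) (hodds : r * (1 - p) * q ≤ p * (1 - r) * Q) :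
    QDom d r Q p q :=
  fun _ _ hF => E_comp_odds hQ hQq hP0 hP1 hp0 hp1 hodds hF

/-- the lower bound at `(p, q)` when `(p, q)` dominates a supercritical `(r, Q)` for which
`MainCube` is known -/
theorem blower_boxQ {d : ℕ} {q Q r p : ℝ} (hd : 1 ≤ d) (hq : 1 ≤ q) (hQ : 1 ≤ Q)
    (HM : MainCube d Q) (hP0 : 0 < r) (hP1 : r ≤ 1) (hp0 : 0 < p) (hp1 : p ≤ 1)
    (hdom : QDom d r Q p q) (hsup : ∃ p', 0 ≤ p' ∧ p' < r ∧ 0 < th0 d p' Q)
    {ε : ℝ} (hε : 0 < ε) :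
    ∃ n0 : ℕ, ∀ a b : Pt d, (∀ i, a i ≤ -(n0 : ℤ)) → (∀ i, (n0 : ℤ) ≤ b i) →
      th0 d p q - ε ≤ P (lat (Finset.Icc a b)) (fun _ => p) q
          (fun A => ∃ y ∈ bd (Finset.Icc a b), Conn A 0 y) := by
  have hq0 : (0 : ℝ) < q := by linarith
  obtain ⟨p', h00, h0p, hpos⟩ := hsup
  obtain ⟨p2, hp2a, hp2b, hth, hlc⟩ := limB_point hQ h00 h0p hP1 hpos
  have hp2'0 : 0 < p2 := lt_of_le_of_lt h00 hp2a
  have hp2'1 : p2 < 1 := lt_of_lt_of_le hp2b hP1
  have hε3 : 0 < ε / 3 := by linarith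
  obtain ⟨l, n1, hn1⟩ := hit hd hQ HM hp2'0 hp2'1 hth hlc hε3
  obtain ⟨R, hlR, m0, hm0⟩ := uniq_fin hd hq hp0 hp1 l hε3
  obtain ⟨m1, hm1⟩ : ∃ m1 : ℕ, th0 d p q - ε / 3 < fth d m1 R p q := by
    have h1 : th0 d p q ≤ ⨆ m : ℕ, fth d m R p q :=
      ciInf_le (limA_bddBelow hq hp0.le hp1) R
    exact exists_lt_of_lt_ciSup (lt_of_lt_of_le (by linarith) h1)
  refine ⟨max n1 (max m0 (max m1 (R + 1))), fun a b ha hb => ?_⟩
  set n := max n1 (max m0 (max m1 (R + 1))) with hn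
  have hle1 : n1 ≤ n := le_max_left _ _
  have hle2 : m0 ≤ n := (le_max_left _ _).trans (le_max_right _ _)
  have hle3 : m1 ≤ n := (le_max_left _ _).trans ((le_max_right _ _).trans (le_max_right _ _))
  have hle4 : R + 1 ≤ n := (le_max_right _ _).trans ((le_max_right _ _).trans (le_max_right _ _))
  have hle1' : (n1 : ℤ) ≤ n := by exact_mod_cast hle1
  set L := Finset.Icc a b with hL
  set D := lat L with hD
  have hadm : Adm D (fun _ : Pt d × Pt d => p) := fun _ _ => ⟨hp0.le, hp1⟩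
  -- the three events
  have e1 : 1 - ε / 3 ≤ P D (fun _ => p) q
      (fun A => ∃ x ∈ cube (0 : Pt d) l, ∃ y ∈ bd L, Conn A x y) := by
    have h1 := hn1 a b (fun i => by linarith [ha i]) (fun i => by linarith [hb i])
    have hinc : Inc D (fun A => ind (∃ x ∈ cube (0 : Pt d) l, ∃ y ∈ bd L, Conn A x y)) := by
      intro A B hAB _
      apply ind_mono
      rintro ⟨x, hx, y, hy, hc⟩
      exact ⟨x, hx, y, hy, hc.mono' hAB⟩
    refine h1.trans ?_
    refine le_trans ?_ (hdom D _ hinc)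
    exact E_dom hQ (fun _ _ => ⟨hp2'0.le, hp2'1.le⟩) (fun _ _ => ⟨hP0.le, hP1⟩)
      (Finset.Subset.refl _) (fun _ _ => hp2b.le) hinc
  have e2 : P D (fun _ => p) q (TwoC (0 : Pt d) l R) ≤ ε / 3 :=
    hm0 L (Lower_sub hle2 ha hb)
  have e3 : th0 d p q - ε / 3 ≤ P D (fun _ => p) q (fun A => Far R A 0) := by
    refine hm1.le.trans ?_
    exact E_dom hq (fun _ _ => ⟨hp0.le, hp1⟩) hadm (lat_mono (Lower_sub hle3 ha hb))
      (fun _ _ => le_refl p) (limA_inc_far _ _ _)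
  have e1' : P D (fun _ => p) q
      (fun A => ¬ ∃ x ∈ cube (0 : Pt d) l, ∃ y ∈ bd L, Conn A x y) ≤ ε / 3 := by
    rw [P_compl hq0 hadm]; linarith
  have e4 : P D (fun _ => p) q (fun A => Far R A 0) ≤
      P D (fun _ => p) q (fun A => ∃ y ∈ bd L, Conn A 0 y) +
      (P D (fun _ => p) q (fun A => ¬ ∃ x ∈ cube (0 : Pt d) l, ∃ y ∈ bd L, Conn A x y) +
      P D (fun _ => p) q (TwoC (0 : Pt d) l R)) := by
    unfold P
    rw [← E_add, ← E_add]
    refine E_mono hq0 hadm fun A hA => ?_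
    by_cases hF : Far R A 0
    · have hIL : IsLat A := fun e he => isLat_lat _ e (hA he)
      rw [ind_true hF]
      by_cases h1 : ∃ x ∈ cube (0 : Pt d) l, ∃ y ∈ bd L, Conn A x y
      · by_cases h2 : TwoC (0 : Pt d) l R A
        · rw [ind_true h2]
          have := ind_nonneg (∃ y ∈ bd L, Conn A 0 y)
          have := ind_nonneg (¬ ∃ x ∈ cube (0 : Pt d) l, ∃ y ∈ bd L, Conn A x y)
          linarith
        · have h3 : ∃ y ∈ bd L, Conn A 0 y := by
            obtain ⟨x, hx, y, hy, hc⟩ := h1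
            have hyR : y ∉ cube (0 : Pt d) R := Lower_bd (Lower_sub hle4 ha hb) hy
            have hx' : x ∈ cube (0 : Pt d) R := Lower_cube_mono hlR hx
            have hcr : Cross (0 : Pt d) R A x := cross_of_conn hIL hx' (Or.inl hyR) hc
            have h4 : Conn (A ∩ lat (cube (0 : Pt d) R)) 0 x := by
              by_contra hcon
              exact h2 ⟨0, latgeo_self_mem 0 l, x, hx, hF, hcr, hcon⟩
            exact ⟨y, hy, (h4.mono' inter_subset_left).trans' hc⟩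
          rw [ind_true h3]
          have := ind_nonneg (TwoC (0 : Pt d) l R A)
          have := ind_nonneg (¬ ∃ x ∈ cube (0 : Pt d) l, ∃ y ∈ bd L, Conn A x y)
          linarith
      · rw [ind_true h1]
        have := ind_nonneg (∃ y ∈ bd L, Conn A 0 y)
        have := ind_nonneg (TwoC (0 : Pt d) l R A)
        linarith
    · rw [ind_false hF]
      have h1 := ind_nonneg (∃ y ∈ bd L, Conn A 0 y)
      have h2 := ind_nonneg (TwoC (0 : Pt d) l R A)
      have h3 := ind_nonneg (¬ ∃ x ∈ cube (0 : Pt d) l, ∃ y ∈ bd L, Conn A x y)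
      linarith
  linarith

end FKB
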