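import Pool.Agent.FKB.WiredT
import Pool.Agent.FKB.Basic

/-!
Uniqueness of the infinite cluster for the free random-cluster measure (Burton-Keane), in terms of
limits of free measures of large boxes.
-/

open Finset Filter
noncomputable section
namespace FKB

variable {d : ℕ}

/-- `F` depends only on the edges in `D0` -/
def Loc (D0 : Finset (Pt d × Pt d)) (F : Finset (Pt d × Pt d) → ℝ) : Prop :=
  ∀ A, F A = F (A ∩ D0)

/-- translation of a set of edges -/
def sh (v : Pt d) (A : Finset (Pt d × Pt d)) : Finset (Pt d × Pt d) :=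
  A.map ((tr v).prodMap (tr v))

/-- free infinite-volume expectation (meaningful for `F` depending on finitely many edges) -/
def IE (p q : ℝ) (F : Finset (Pt d × Pt d) → ℝ) : ℝ :=
  limUnder atTop (fun m : ℕ => E (lat (cube (0 : Pt d) m)) (fun _ => p) q F)

/-- free infinite-volume probability -/
def IP (p q : ℝ) (S : Finset (Pt d × Pt d) → Prop) : ℝ := IE p q (fun A => ind (S A))

/-- `x` is joined to the boundary of `cube c R` inside this cube -/
def Cross (c : Pt d) (R : ℕ) (A : Finset (Pt d × Pt d)) (x : Pt d) : Prop :=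
  ∃ y ∈ bd (cube c R), Conn (A ∩ lat (cube c R)) x y

/-- two points of `cube c l` are joined to the boundary of `cube c R`, but not to each other -/
def TwoC (c : Pt d) (l R : ℕ) (A : Finset (Pt d × Pt d)) : Prop :=
  ∃ x ∈ cube c l, ∃ y ∈ cube c l, Cross c R A x ∧ Cross c R A y ∧
    ¬ Conn (A ∩ lat (cube c R)) x y

/-- three points of `cube c l` are joined to the boundary of `cube c R`, pairwise not joined -/
def ThreeC (c : Pt d) (l R : ℕ) (A : Finset (Pt d × Pt d)) : Prop :=
  ∃ x ∈ cube c l, ∃ y ∈ cube c l, ∃ z ∈ cube c l, Cross c R A x ∧ Cross c R A y ∧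
    Cross c R A z ∧ ¬ Conn (A ∩ lat (cube c R)) x y ∧ ¬ Conn (A ∩ lat (cube c R)) y z ∧
    ¬ Conn (A ∩ lat (cube c R)) x z

/-- limit in `R` of the probability of `TwoC 0 l R` -/
def al (d : ℕ) (p q : ℝ) (l : ℕ) : ℝ := ⨅ k : ℕ, IP p q (TwoC (0 : Pt d) l (l + k))

/-- probability of two infinite clusters -/
def alp (d : ℕ) (p q : ℝ) : ℝ := ⨆ l : ℕ, al d p q l

section
variable {V : Type*} [DecidableEq V]
/-- the edges of `A` off `K` -/
def offK (K : Finset V) (A : Finset (V × V)) : Finset (V × V) :=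
  A.filter (fun e => e.1 ∉ K ∧ e.2 ∉ K)
/-- the edges of `A` inside `K` -/
def inK (K : Finset V) (A : Finset (V × V)) : Finset (V × V) :=
  A.filter (fun e => e.1 ∈ K ∧ e.2 ∈ K)
end

end FKB
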