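import Pool.Agent.BK.Defs
import Pool.Agent.FKB.DomainA
import Pool.Agent.FKB.LatGeo

open Finset Filter
noncomputable section
namespace FKB

variable {d : ℕ}

theorem loc_mobius {D0 : Finset (Pt d × Pt d)} {F : Finset (Pt d × Pt d) → ℝ} (hF : Loc D0 F) :
    ∃ a : Finset (Pt d × Pt d) → ℝ, ∀ A, F A = ∑ B ∈ D0.powerset, a B * ind (B ⊆ A) := by
  classical
  induction D0 using Finset.induction_on generalizing F with
  | empty =>
    refine ⟨fun _ => F ∅, fun A => ?_⟩
    have h := hF A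
    rw [Finset.inter_empty] at h
    simp [ind, h]
  | insert e D0 he ih =>
    have h0 : Loc D0 (fun A => F (A.erase e)) := by
      intro A
      show F (A.erase e) = F ((A ∩ D0).erase e)
      rw [hF (A.erase e), hF ((A ∩ D0).erase e)]
      congr 1
      ext x
      simp only [Finset.mem_inter, Finset.mem_erase, Finset.mem_insert]
      constructor
      · rintro ⟨⟨hx, hA⟩, h | h⟩
        · exact absurd h hx
        · exact ⟨⟨hx, hA, h⟩, Or.inr h⟩
      · rintro ⟨⟨hx, hA, hD⟩, _⟩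
        exact ⟨⟨hx, hA⟩, Or.inr hD⟩
    have h1 : Loc D0 (fun A => F (insert e A) - F (A.erase e)) := by
      intro A
      show F (insert e A) - F (A.erase e) = F (insert e (A ∩ D0)) - F ((A ∩ D0).erase e)
      have h2 : F (A.erase e) = F ((A ∩ D0).erase e) := h0 A
      rw [← h2, hF (insert e A), hF (insert e (A ∩ D0))]
      congr 2
      ext x
      simp only [Finset.mem_inter, Finset.mem_insert]
      constructor
      · rintro ⟨h | h, h' | h'⟩
        · exact ⟨Or.inl h, Or.inl h'⟩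
        · exact ⟨Or.inl h, Or.inr h'⟩
        · exact ⟨Or.inl h', Or.inl h'⟩
        · exact ⟨Or.inr ⟨h, h'⟩, Or.inr h'⟩
      · rintro ⟨h | h, h'⟩
        · exact ⟨Or.inl h, h'⟩
        · exact ⟨Or.inr h.1, h'⟩
    obtain ⟨a0, ha0⟩ := ih h0
    obtain ⟨a1, ha1⟩ := ih h1
    refine ⟨fun B => if e ∈ B then a1 (B.erase e) else a0 B, fun A => ?_⟩
    rw [Finset.sum_powerset_insert he]
    have e0 : ∑ B ∈ D0.powerset, (if e ∈ B then a1 (B.erase e) else a0 B) * ind (B ⊆ A) =
        F (A.erase e) := by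
      rw [ha0 A]
      refine Finset.sum_congr rfl fun B hB => ?_
      have : e ∉ B := fun h => he (Finset.mem_powerset.mp hB h)
      rw [if_neg this]
    have e1 : ∑ B ∈ D0.powerset, (if e ∈ insert e B then a1 ((insert e B).erase e)
        else a0 (insert e B)) * ind (insert e B ⊆ A) =
        ind (e ∈ A) * (F (insert e A) - F (A.erase e)) := by
      rw [ha1 A, Finset.mul_sum]
      refine Finset.sum_congr rfl fun B hB => ?_
      have hB' : e ∉ B := fun h => he (Finset.mem_powerset.mp hB h)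
      rw [if_pos (Finset.mem_insert_self e B), Finset.erase_insert hB']
      unfold ind
      by_cases h1 : e ∈ A
      · by_cases h2 : B ⊆ A
        · rw [if_pos (Finset.insert_subset h1 h2), if_pos h1, if_pos h2]; ring
        · rw [if_neg (fun h => h2 ((Finset.subset_insert e B).trans h)), if_neg h2]; ring
      · rw [if_neg (fun h => h1 (h (Finset.mem_insert_self e B))), if_neg h1]; ring
    rw [e0, e1]
    unfold ind
    by_cases h1 : e ∈ A
    · rw [if_pos h1, Finset.insert_eq_of_mem h1]; ring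
    · rw [if_neg h1, Finset.erase_eq_of_notMem h1]; ring

theorem bkl_in_cube (H : Finset (Pt d)) : ∃ m : ℕ, H ⊆ cube (0 : Pt d) m := by
  refine ⟨∑ x ∈ H, ∑ i, (x i).natAbs, fun x hx => ?_⟩
  rw [mem_cube]
  intro i
  have h1 : (x i).natAbs ≤ ∑ i, (x i).natAbs :=
    Finset.single_le_sum (f := fun i => (x i).natAbs) (fun _ _ => Nat.zero_le _)
      (Finset.mem_univ i)
  have h2 : ∑ i, (x i).natAbs ≤ ∑ x ∈ H, ∑ i, (x i).natAbs :=
    Finset.single_le_sum (f := fun x : Pt d => ∑ i, (x i).natAbs) (fun _ _ => Nat.zero_le _) hx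
  have h3 : ((x i).natAbs : ℤ) ≤ ((∑ x ∈ H, ∑ i, (x i).natAbs : ℕ) : ℤ) := by
    exact_mod_cast h1.trans h2
  rw [Pi.zero_apply, sub_zero]
  rw [Int.natCast_natAbs] at h3
  exact h3

theorem bkl_cube_mono {m n : ℕ} (h : m ≤ n) : cube (0 : Pt d) m ⊆ cube (0 : Pt d) n := by
  intro x hx
  rw [mem_cube] at hx ⊢
  intro i
  exact (hx i).trans (by exact_mod_cast h)

/-- the limit exists, along all boxes (and all sets) -/
theorem IE_unif {p q : ℝ} (hq : 1 ≤ q) (hp0 : 0 ≤ p) (hp1 : p ≤ 1) {D0 : Finset (Pt d × Pt d)}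
    {F : Finset (Pt d × Pt d) → ℝ} (hF : Loc D0 F) {ε : ℝ} (hε : 0 < ε) :
    ∃ m0 : ℕ, ∀ H : Finset (Pt d), cube (0 : Pt d) m0 ⊆ H →
      |E (lat H) (fun _ => p) q F - IE p q F| ≤ ε := by
  classical
  have hq0 : 0 < q := lt_of_lt_of_le one_pos hq
  have hadm : ∀ D : Finset (Pt d × Pt d), Adm D (fun _ => p) := fun D e _ => ⟨hp0, hp1⟩
  obtain ⟨a, ha⟩ := loc_mobius hF
  -- the basic functions
  set f : Finset (Pt d × Pt d) → Finset (Pt d × Pt d) → ℝ := fun B A => ind (B ⊆ A) with hf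
  have hinc : ∀ (B D : Finset (Pt d × Pt d)), Inc D (f B) := by
    intro B D A A' hAA' _
    simp only [hf, ind]
    split_ifs with h1 h2
    · exact le_refl _
    · exact absurd (h1.trans hAA') h2
    · exact zero_le_one
    · exact le_refl _
  have hdom : ∀ (B : Finset (Pt d × Pt d)) (H H' : Finset (Pt d)), H ⊆ H' →
      E (lat H) (fun _ => p) q (f B) ≤ E (lat H') (fun _ => p) q (f B) := by
    intro B H H' hH
    exact E_dom hq (hadm _) (hadm _) (lat_mono hH) (fun _ _ => le_refl _) (hinc B _)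
  have hle1 : ∀ (B : Finset (Pt d × Pt d)) (H : Finset (Pt d)),
      E (lat H) (fun _ => p) q (f B) ≤ 1 := by
    intro B H
    exact P_le_one (S := fun A => B ⊆ A) hq0 (hadm _)
  have hmono : ∀ B : Finset (Pt d × Pt d),
      Monotone (fun m : ℕ => E (lat (cube (0 : Pt d) m)) (fun _ => p) q (f B)) := by
    intro B m n hmn
    exact hdom B _ _ (bkl_cube_mono hmn)
  have hbdd : ∀ B : Finset (Pt d × Pt d),
      BddAbove (Set.range (fun m : ℕ => E (lat (cube (0 : Pt d) m)) (fun _ => p) q (f B))) := by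
    intro B
    refine ⟨1, ?_⟩
    rintro _ ⟨m, rfl⟩
    exact hle1 B _
  set L : Finset (Pt d × Pt d) → ℝ :=
    fun B => ⨆ m : ℕ, E (lat (cube (0 : Pt d) m)) (fun _ => p) q (f B) with hL
  have htend : ∀ B, Tendsto (fun m : ℕ => E (lat (cube (0 : Pt d) m)) (fun _ => p) q (f B))
      atTop (nhds (L B)) := fun B => tendsto_atTop_ciSup (hmono B) (hbdd B)
  have hexp : ∀ D : Finset (Pt d × Pt d), E D (fun _ => p) q F =
      ∑ B ∈ D0.powerset, a B * E D (fun _ => p) q (f B) := by
    intro D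
    have h1 : E D (fun _ => p) q F = E D (fun _ => p) q
        (fun A => ∑ B ∈ D0.powerset, a B * ind (B ⊆ A)) := E_congr (fun A _ => ha A)
    rw [h1, E_sum D0.powerset (fun B A => a B * ind (B ⊆ A))]
    refine Finset.sum_congr rfl fun B _ => ?_
    exact E_smul (a B) (f B)
  have hIE : IE p q F = ∑ B ∈ D0.powerset, a B * L B := by
    unfold IE
    apply Tendsto.limUnder_eq
    have h1 : (fun m : ℕ => E (lat (cube (0 : Pt d) m)) (fun _ => p) q F) =
        fun m : ℕ => ∑ B ∈ D0.powerset, a B *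
          E (lat (cube (0 : Pt d) m)) (fun _ => p) q (f B) := by
      funext m
      exact hexp _
    rw [h1]
    exact tendsto_finsetSum _ fun B _ => (htend B).const_mul (a B)
  have hsmall : Tendsto (fun m : ℕ => ∑ B ∈ D0.powerset, |a B| *
      (L B - E (lat (cube (0 : Pt d) m)) (fun _ => p) q (f B))) atTop (nhds 0) := by
    have h1 : Tendsto (fun m : ℕ => ∑ B ∈ D0.powerset, |a B| *
        (L B - E (lat (cube (0 : Pt d) m)) (fun _ => p) q (f B))) atTop
        (nhds (∑ B ∈ D0.powerset, |a B| * (L B - L B))) :=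
      tendsto_finsetSum _ fun B _ => ((htend B).const_sub (L B)).const_mul _
    simpa using h1
  obtain ⟨m0, hm0⟩ := (hsmall.eventually (Iio_mem_nhds hε)).exists
  refine ⟨m0, fun H hH => ?_⟩
  obtain ⟨m2, hm2⟩ := bkl_in_cube H
  rw [hexp, hIE, ← Finset.sum_sub_distrib]
  refine (Finset.abs_sum_le_sum_abs _ _).trans ?_
  refine le_trans ?_ (le_of_lt hm0)
  refine Finset.sum_le_sum fun B _ => ?_
  rw [← mul_sub, abs_mul]
  refine mul_le_mul_of_nonneg_left ?_ (abs_nonneg _)
  have h1 : E (lat (cube (0 : Pt d) m0)) (fun _ => p) q (f B) ≤ E (lat H) (fun _ => p) q (f B) :=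
    hdom B _ _ hH
  have h2 : E (lat H) (fun _ => p) q (f B) ≤ L B :=
    (hdom B _ _ hm2).trans (le_ciSup (hbdd B) m2)
  rw [abs_le]
  constructor <;> linarith

end FKB
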