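import Pool.Agent.FKB.FinC
import Pool.Agent.BK.LimA

open Finset MeasureTheory Filter
noncomputable section
namespace FKB

/-- a finite set of edges as a 0-1 function -/
def exist_cfg {d : ℕ} (A : Finset (Pt d × Pt d)) : Pt d × Pt d → Bool := by
  classical exact fun e => decide (e ∈ A)

/-- the law of the free model of a cube, on the space of 0-1 functions -/
def exist_law (d : ℕ) (p q : ℝ) (m : ℕ) : Measure (Pt d × Pt d → Bool) :=
  ∑ A ∈ (lat (cube (0 : Pt d) m)).powerset,
    ENNReal.ofReal (wt (lat (cube (0 : Pt d) m)) (fun _ => p) q A /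
      Z (lat (cube (0 : Pt d) m)) (fun _ => p) q) • Measure.dirac (exist_cfg A)

theorem exist_law_apply {d : ℕ} {p q : ℝ} (hq : 0 < q) (hp0 : 0 ≤ p) (hp1 : p ≤ 1) (m : ℕ)
    {S : Set (Pt d × Pt d → Bool)} (hS : MeasurableSet S) :
    exist_law d p q m S = ENNReal.ofReal
      (E (lat (cube (0 : Pt d) m)) (fun _ => p) q (fun A => ind (exist_cfg A ∈ S))) := by
  classical
  have hadm := finC_adm (lat (cube (0 : Pt d) m)) hp0 hp1
  have hZ : 0 < Z (lat (cube (0 : Pt d) m)) (fun _ => p) q := Z_pos hq hadm
  unfold exist_law E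
  rw [Finset.sum_div, ENNReal.ofReal_sum_of_nonneg]
  · rw [Measure.finsetSum_apply]
    refine Finset.sum_congr rfl fun A hA => ?_
    rw [Measure.smul_apply, Measure.dirac_apply' _ hS, smul_eq_mul]
    by_cases h : exist_cfg A ∈ S
    · rw [Set.indicator_of_mem h]
      simp [ind_true h]
    · rw [Set.indicator_of_notMem h]
      simp [ind_false h]
  · intro A hA
    refine div_nonneg (mul_nonneg (wt_nonneg hq hadm (Finset.mem_powerset.mp hA)) ?_) hZ.le
    exact ind_nonneg _

theorem exist_law_prob {d : ℕ} {p q : ℝ} (hq : 0 < q) (hp0 : 0 ≤ p) (hp1 : p ≤ 1) (m : ℕ) :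
    IsProbabilityMeasure (exist_law d p q m) := by
  constructor
  rw [exist_law_apply hq hp0 hp1 m MeasurableSet.univ]
  have : (fun A : Finset (Pt d × Pt d) => ind (exist_cfg A ∈ Set.univ)) = fun _ => (1 : ℝ) := by
    funext A
    exact ind_true (Set.mem_univ _)
  rw [this, E_const hq (finC_adm _ hp0 hp1)]
  simp

/-- the set of edges of a 0-1 function -/
def exist_set {d : ℕ} (x : Pt d × Pt d → Bool) : Set (Pt d × Pt d) := {e | x e = true}

theorem exist_set_meas {d : ℕ} : Measurable (exist_set (d := d)) := by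
  rw [measurable_set_iff]
  intro e
  have : MeasurableSet {x : Pt d × Pt d → Bool | x e = true} :=
    (show Measurable (fun x : Pt d × Pt d → Bool => x e) from measurable_pi_apply e)
      (measurableSet_singleton true)
  exact measurableSet_setOfPred.mp this

theorem exist_set_cfg {d : ℕ} (A : Finset (Pt d × Pt d)) :
    exist_set (exist_cfg A) = (A : Set (Pt d × Pt d)) := by
  classical
  ext e
  simp [exist_set, exist_cfg]

theorem exist_cyl_meas {d : ℕ} (F T : Finset (Pt d × Pt d)) :
    MeasurableSet {ω : Set (Pt d × Pt d) | ω ∩ (F : Set (Pt d × Pt d)) = (T : Set _)} := by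
  by_cases hT : T ⊆ F
  · have : {ω : Set (Pt d × Pt d) | ω ∩ (F : Set (Pt d × Pt d)) = (T : Set _)} =
        ⋂ e ∈ F, {ω : Set (Pt d × Pt d) | e ∈ ω ↔ e ∈ T} := by
      ext ω
      simp only [Set.mem_ofPred_eq, Set.mem_iInter]
      constructor
      · intro h e he
        rw [← Finset.mem_coe (s := T), ← h]
        simp [he]
      · intro h
        ext e
        constructor
        · rintro ⟨h1, h2⟩
          exact (h e h2).1 h1
        · intro h1
          exact ⟨(h e (hT h1)).2 h1, hT h1⟩
    rw [this]
    apply Finset.measurableSet_biInter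
    intro e _
    by_cases he : e ∈ T
    · simp only [he, iff_true]
      exact measurableSet_setOfPred.2 (measurable_set_mem e)
    · simp only [he, iff_false]
      exact measurableSet_setOfPred.2 (measurable_set_notMem e)
  · have : {ω : Set (Pt d × Pt d) | ω ∩ (F : Set (Pt d × Pt d)) = (T : Set _)} = ∅ := by
      ext ω
      simp only [Set.mem_ofPred_eq, Set.mem_empty_iff_false, iff_false]
      intro h
      apply hT
      intro e he
      have : e ∈ ω ∩ (F : Set (Pt d × Pt d)) := by rw [h]; exact he
      exact this.2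
    rw [this]
    exact MeasurableSet.empty

/-- the free infinite-volume measure exists -/
theorem exists_freeLimit (d : ℕ) {p q : ℝ} (hq : 1 ≤ q) (hp0 : 0 ≤ p) (hp1 : p ≤ 1) :
    ∃ μ : Measure (Set (Pt d × Pt d)), IsFreeLimit μ p q := by
  classical
  have hq0 : 0 < q := lt_of_lt_of_le one_pos hq
  let ν : ℕ → ProbabilityMeasure (Pt d × Pt d → Bool) := fun m =>
    ⟨exist_law d p q m, exist_law_prob hq0 hp0 hp1 m⟩
  let U : Ultrafilter ℕ := Ultrafilter.of atTop
  have hU : (U : Filter ℕ) ≤ atTop := Ultrafilter.of_le atTop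
  obtain ⟨ν0, hν0⟩ : ∃ ν0, Tendsto ν U (nhds ν0) := by
    obtain ⟨x, -, hx⟩ := isCompact_univ.ultrafilter_le_nhds (U.map ν) (by simp)
    exact ⟨x, hx⟩
  -- cylinder events
  have hcyl : ∀ F T : Finset (Pt d × Pt d),
      IsClopen {x : Pt d × Pt d → Bool | exist_set x ∩ (F : Set (Pt d × Pt d)) = T} := by
    intro F T
    by_cases hTF : T ⊆ F
    · have h1 : {x : Pt d × Pt d → Bool | exist_set x ∩ (F : Set (Pt d × Pt d)) = T} =
          ⋂ e ∈ F, {x : Pt d × Pt d → Bool | x e = decide (e ∈ T)} := by
        ext x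
        simp only [Set.mem_iInter, Set.mem_ofPred_eq]
        constructor
        · intro hx e he
          have h2 : e ∈ exist_set x ∩ (F : Set (Pt d × Pt d)) ↔ e ∈ (T : Set (Pt d × Pt d)) := by
            rw [hx]
          by_cases heT : e ∈ T
          · have h3 := h2.mpr (Finset.mem_coe.mpr heT)
            have h4 : x e = true := h3.1
            simp [h4, heT]
          · have h3 : ¬ x e = true := fun h4 =>
              heT (Finset.mem_coe.mp (h2.mp ⟨h4, Finset.mem_coe.mpr he⟩))
            simp [heT, h3]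
        · intro hx
          ext e
          constructor
          · rintro ⟨h2, h3⟩
            have h4 := hx e (Finset.mem_coe.mp h3)
            have h5 : x e = true := h2
            rw [h5] at h4
            simpa using h4.symm
          · intro h2
            have h3 : e ∈ F := hTF (Finset.mem_coe.mp h2)
            refine ⟨?_, Finset.mem_coe.mpr h3⟩
            have h4 := hx e h3
            show x e = true
            rw [h4]
            simpa using h2
      rw [h1]
      refine isClopen_biInter_finset fun e _ => ?_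
      exact (isClopen_discrete {decide (e ∈ T)}).preimage (continuous_apply e)
    · have h1 : {x : Pt d × Pt d → Bool | exist_set x ∩ (F : Set (Pt d × Pt d)) = T} = ∅ := by
        rw [Set.eq_empty_iff_forall_notMem]
        intro x hx
        apply hTF
        intro e he
        have h2 : e ∈ exist_set x ∩ (F : Set (Pt d × Pt d)) := by
          rw [hx]
          exact Finset.mem_coe.mpr he
        exact Finset.mem_coe.mp h2.2
      rw [h1]
      exact isClopen_empty
  refine ⟨(ν0 : Measure (Pt d × Pt d → Bool)).map exist_set, ?_, ?_⟩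
  · exact Measure.isProbabilityMeasure_map exist_set_meas.aemeasurable
  intro F T a b hab
  -- the cylinder functional
  let G : Finset (Pt d × Pt d) → ℝ := fun A => ind ((A : Set (Pt d × Pt d)) ∩ F = T)
  have hG : Loc F G := by
    intro A
    refine ind_congr ?_
    rw [Finset.coe_inter, Set.inter_assoc, Set.inter_self]
  -- convergence along exhausting boxes
  have h1 : Tendsto (fun m => phi0 (Finset.Icc (a m) (b m)) p q
        {ω | ω ∩ (F : Set (Pt d × Pt d)) = (T : Set (Pt d × Pt d))}) atTop (nhds (IE p q G)) := by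
    rw [Metric.tendsto_atTop]
    intro ε hε
    obtain ⟨m0, hm0⟩ := IE_unif hq hp0 hp1 hG (half_pos hε)
    obtain ⟨m1, hm1⟩ := Filter.eventually_atTop.mp (finC_exhausts hab m0)
    refine ⟨m1, fun m hm => ?_⟩
    have hsub : cube (0 : Pt d) m0 ⊆ Finset.Icc (a m) (b m) := by
      intro x hx
      obtain ⟨h2, h3⟩ := hm1 m hm
      unfold cube at hx
      rw [Finset.mem_Icc, Pi.le_def, Pi.le_def] at hx ⊢
      refine ⟨fun i => (h2 i).trans ?_, fun i => le_trans ?_ (h3 i)⟩
      · simpa using hx.1 i
      · simpa using hx.2 i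
    have h4 := hm0 _ hsub
    rw [Real.dist_eq, phi0_eq _ _ hq0]
    exact lt_of_le_of_lt h4 (half_lt_self hε)
  -- the limit is the measure of the cylinder
  have h2 : Tendsto (fun m => E (lat (cube (0 : Pt d) m)) (fun _ => p) q G) atTop
      (nhds (IE p q G)) := by
    rw [Metric.tendsto_atTop]
    intro ε hε
    obtain ⟨m0, hm0⟩ := IE_unif hq hp0 hp1 hG (half_pos hε)
    refine ⟨m0, fun m hm => ?_⟩
    have hsub : cube (0 : Pt d) m0 ⊆ cube (0 : Pt d) m := by
      unfold cube
      apply Finset.Icc_subset_Icc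
      · rw [Pi.le_def]
        intro i
        simp only [Pi.zero_apply, zero_sub, neg_le_neg_iff, Nat.cast_le]
        exact hm
      · rw [Pi.le_def]
        intro i
        simp only [Pi.zero_apply, zero_add, Nat.cast_le]
        exact hm
    rw [Real.dist_eq]
    exact lt_of_le_of_lt (hm0 _ hsub) (half_lt_self hε)
  have hC := hcyl F T
  have h3 := ProbabilityMeasure.tendsto_measure_of_isClopen_of_tendsto hν0 hC
  have h4 : ∀ m, ((ν m {x : Pt d × Pt d → Bool |
      exist_set x ∩ (F : Set (Pt d × Pt d)) = T} : NNReal) : ℝ) =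
      E (lat (cube (0 : Pt d) m)) (fun _ => p) q G := by
    intro m
    have h5 : ((ν m {x : Pt d × Pt d → Bool |
      exist_set x ∩ (F : Set (Pt d × Pt d)) = T} : NNReal) : ℝ) =
      (exist_law d p q m).real {x : Pt d × Pt d → Bool |
      exist_set x ∩ (F : Set (Pt d × Pt d)) = T} := rfl
    rw [h5, Measure.real, exist_law_apply hq0 hp0 hp1 m hC.isOpen.measurableSet, ENNReal.toReal_ofReal]
    · refine E_congr fun A _ => ind_congr ?_
      rw [Set.mem_ofPred_eq, exist_set_cfg]
    · exact P_nonneg hq0 (finC_adm _ hp0 hp1) _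
  have h5 : Tendsto (fun m => ((ν m {x : Pt d × Pt d → Bool |
      exist_set x ∩ (F : Set (Pt d × Pt d)) = T} : NNReal) : ℝ)) U
      (nhds ((ν0 {x : Pt d × Pt d → Bool |
      exist_set x ∩ (F : Set (Pt d × Pt d)) = T} : NNReal) : ℝ)) :=
    (NNReal.tendsto_coe).mpr h3
  have h6 : ((ν0 {x : Pt d × Pt d → Bool |
      exist_set x ∩ (F : Set (Pt d × Pt d)) = T} : NNReal) : ℝ) = IE p q G := by
    refine tendsto_nhds_unique h5 ?_
    simp only [h4]
    exact h2.mono_left hU
  have h7 : ((ν0 : Measure (Pt d × Pt d → Bool)).map exist_set).real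
      {ω | ω ∩ (F : Set (Pt d × Pt d)) = (T : Set (Pt d × Pt d))} = IE p q G := by
    rw [← h6, Measure.real, Measure.map_apply exist_set_meas]
    · rfl
    · exact exist_cyl_meas F T
  rw [h7]
  exact h1

end FKB
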