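import Pool.Agent.BK.Lower
import Pool.Agent.BK.Exist
import Pool.Agent.FKQ.Fin

open Finset MeasureTheory Filter
noncomputable section
namespace FKB

theorem tendsto_of_low {d : ℕ} {q : ℝ} (hd : 1 ≤ d) (hq : 1 ≤ q) {p : ℝ} (hp0 : 0 ≤ p)
    (hp1 : p ≤ 1)
    (hlow : ∀ ε : ℝ, 0 < ε → ∃ n0 : ℕ, ∀ a b : Pt d, (∀ i, a i ≤ -(n0 : ℤ)) →
      (∀ i, (n0 : ℤ) ≤ b i) → th0 d p q - ε ≤ finC_beta a b p q)
    (a b : ℕ → Pt d) (hab : Exhausts a b) :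
    Tendsto (fun m => phi0 (Finset.Icc (a m) (b m)) p q
        (toBoundary (Finset.Icc (a m) (b m)))) atTop (nhds (th0 d p q)) := by
  have hq0 : (0 : ℝ) < q := by linarith
  have hphi : (fun m => phi0 (Finset.Icc (a m) (b m)) p q
        (toBoundary (Finset.Icc (a m) (b m)))) = fun m => finC_beta (a m) (b m) p q := by
    funext m
    exact finC_phi _ _ _ hq0
  rw [hphi]
  rw [Metric.tendsto_atTop]
  intro ε hε
  obtain ⟨n1, h1⟩ := hlow (ε / 2) (by linarith)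
  obtain ⟨n2, h2⟩ := upper_box (d := d) (p := p) (q := q) hd hq hp0 hp1
    (ε := ε / 2) (by linarith)
  have he := (finC_exhausts hab n1).and (finC_exhausts hab n2)
  obtain ⟨M, hM⟩ := eventually_atTop.1 he
  refine ⟨M, fun m hm => ?_⟩
  obtain ⟨⟨ha1, hb1⟩, ha2, hb2⟩ := hM m hm
  have e1 := h1 (a m) (b m) ha1 hb1
  have e2 := h2 (a m) (b m) ha2 hb2
  have e3 : finC_beta (a m) (b m) p q ≤ th0 d p q + ε / 2 := e2
  rw [Real.dist_eq, abs_lt]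
  constructor <;> linarith

theorem th0_nonneg {d : ℕ} {p q : ℝ} (hq : 1 ≤ q) (hp0 : 0 ≤ p) (hp1 : p ≤ 1) :
    0 ≤ th0 d p q := le_ciInf fun _ => limA_sup_nonneg hq hp0 hp1

/-- the free critical point -/
def pcF (d : ℕ) (q : ℝ) : ℝ := sSup {p : ℝ | 0 ≤ p ∧ p ≤ 1 ∧ th0 d p q = 0}

theorem pcF_aux (d : ℕ) {q : ℝ} (hq : 1 ≤ q) : 0 ≤ pcF d q ∧ pcF d q ≤ 1 ∧
    (∀ p, 0 ≤ p → p ≤ 1 → p < pcF d q → th0 d p q = 0) ∧
    (∀ p, 0 ≤ p → p ≤ 1 → pcF d q < p → 0 < th0 d p q) := by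
  set S : Set ℝ := {p : ℝ | 0 ≤ p ∧ p ≤ 1 ∧ th0 d p q = 0} with hS
  have h0 : (0 : ℝ) ∈ S :=
    ⟨le_rfl, zero_le_one, le_antisymm (finC_zero hq) (th0_nonneg hq le_rfl zero_le_one)⟩
  have hb : BddAbove S := ⟨1, fun x hx => hx.2.1⟩
  refine ⟨le_csSup hb h0, csSup_le ⟨0, h0⟩ (fun x hx => hx.2.1), ?_, ?_⟩
  · intro p hp0 hp1 hlt
    obtain ⟨x, hx, hpx⟩ := exists_lt_of_lt_csSup ⟨0, h0⟩ hlt
    have h1 := th0_mono (d := d) hq hp0 hpx.le hx.2.1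
    rw [hx.2.2] at h1
    exact le_antisymm h1 (th0_nonneg hq hp0 hp1)
  · intro p hp0 hp1 hlt
    rcases (th0_nonneg (d := d) hq hp0 hp1).eq_or_lt with h | h
    · exact absurd (le_csSup hb ⟨hp0, hp1, h.symm⟩) (not_le.2 hlt)
    · exact h

theorem final_all_of {d : ℕ} {q : ℝ} (hd : 1 ≤ d) (hq : 1 ≤ q) (HM : MainCube d q) :
    ∃ pc : ℝ, 0 ≤ pc ∧ pc ≤ 1 ∧ ∀ p : ℝ, 0 ≤ p → p ≤ 1 →
      (∃ μ : Measure (Set (Pt d × Pt d)), IsFreeLimit μ p q) ∧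
      ∀ μ : Measure (Set (Pt d × Pt d)), IsFreeLimit μ p q →
        (p < pc → μ.real toInfinity = 0) ∧ (pc < p → 0 < μ.real toInfinity) ∧
        (p ≠ pc → ∀ a b : ℕ → Pt d, Exhausts a b →
          Tendsto (fun m => phi0 (Finset.Icc (a m) (b m)) p q
            (toBoundary (Finset.Icc (a m) (b m)))) atTop (nhds (μ.real toInfinity))) := by
  obtain ⟨h1, h2, h3, h4⟩ := pcF_aux d hq
  refine ⟨pcF d q, h1, h2, fun p hp0 hp1 => ⟨exists_freeLimit d hq hp0 hp1, fun μ hμ => ?_⟩⟩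
  rw [free_limit_th0 hd hq hp0 hp1 hμ]
  refine ⟨h3 p hp0 hp1, h4 p hp0 hp1, fun hne a b hab => ?_⟩
  refine tendsto_of_low hd hq hp0 hp1 ?_ a b hab
  intro ε hε
  rcases lt_or_gt_of_ne hne with hlt | hgt
  · refine ⟨0, fun a b _ _ => ?_⟩
    rw [h3 p hp0 hp1 hlt]
    have := P_nonneg (D := lat (Finset.Icc a b)) (w := fun _ => p) (by linarith : 0 < q)
      (finC_adm _ hp0 hp1) (fun A => ∃ y ∈ bd (Finset.Icc a b), Conn A 0 y)
    unfold finC_beta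
    linarith
  · have hpp : 0 < p := lt_of_le_of_lt h1 hgt
    exact blower_box hd hq HM hpp hp1 ⟨(pcF d q + p) / 2, by linarith, by linarith,
      h4 _ (by linarith) (by linarith) (by linarith)⟩ hε

/-- all Potts models in dimension at least three, all `p` except the critical one -/
theorem final_all {d q : ℕ} (hd : 3 ≤ d) (hq : 2 ≤ q) :
    ∃ pc : ℝ, 0 ≤ pc ∧ pc ≤ 1 ∧ ∀ p : ℝ, 0 ≤ p → p ≤ 1 →
      (∃ μ : Measure (Set (Pt d × Pt d)), IsFreeLimit μ p (q : ℝ)) ∧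
      ∀ μ : Measure (Set (Pt d × Pt d)), IsFreeLimit μ p (q : ℝ) →
        (p < pc → μ.real toInfinity = 0) ∧ (pc < p → 0 < μ.real toInfinity) ∧
        (p ≠ pc → ∀ a b : ℕ → Pt d, Exhausts a b →
          Tendsto (fun m => phi0 (Finset.Icc (a m) (b m)) p (q : ℝ)
            (toBoundary (Finset.Icc (a m) (b m)))) atTop (nhds (μ.real toInfinity))) :=
  final_all_of (by omega) (by
    have : 1 ≤ q := by omega
    exact_mod_cast this) (mainCube_int hd hq)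

end FKB
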