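import Pool.Agent.BK.Final
import Pool.Agent.BK.CompQ

open Finset MeasureTheory Filter
noncomputable section
namespace FKB

/-- the lower bound at `(p, q)` from a dominated supercritical `(r, Q)` -/
theorem blower_dom {d : ℕ} {q Q r p : ℝ} (hd : 1 ≤ d) (hq : 1 ≤ q) (hQ : 1 ≤ Q)
    (HM : MainCube d Q) (hr : pcF d Q < r) (hr1 : r ≤ 1) (hp0 : 0 < p) (hp1 : p ≤ 1)
    (hdom : QDom d r Q p q) {ε : ℝ} (hε : 0 < ε) :
    ∃ n0 : ℕ, ∀ a b : Pt d, (∀ i, a i ≤ -(n0 : ℤ)) → (∀ i, (n0 : ℤ) ≤ b i) →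
      th0 d p q - ε ≤ P (lat (Finset.Icc a b)) (fun _ => p) q
          (fun A => ∃ y ∈ bd (Finset.Icc a b), Conn A 0 y) := by
  obtain ⟨h1, h2, h3, h4⟩ := pcF_aux d hQ
  have hr0 : 0 < r := lt_of_le_of_lt h1 hr
  exact blower_boxQ hd hq hQ HM hr0 hr1 hp0 hp1 hdom
    ⟨(pcF d Q + r) / 2, by linarith, by linarith, h4 _ (by linarith) (by linarith) (by linarith)⟩ hε

/-- the comparison of odds forces `p` to be positive -/
theorem pos_of_odds {p q r Q : ℝ} (hq : 0 < q) (hr : 0 < r)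
    (hp0 : 0 ≤ p) (hodds : r * (1 - p) * q ≤ p * (1 - r) * Q) : 0 < p := by
  rcases hp0.eq_or_lt with h | h
  · exfalso
    rw [← h] at hodds
    have : 0 < r * (1 - 0) * q := by
      have : 0 < r * q := mul_pos hr hq
      linarith
    linarith
  · exact h

/-- All real cluster weights in dimension at least three: the limit holds below the critical point,
and at every `p` above the critical point of an integer cluster weight `Q ≥ q`, and at every `p`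
whose parameter `p / (q (1 - p))` is at least `r / (Q (1 - r))` for an integer `Q ≤ q` and some
`r` above the critical point of `Q`. -/
theorem final_real {d : ℕ} (hd : 3 ≤ d) :
    ∃ pc : ℝ → ℝ, (∀ q : ℝ, 1 ≤ q → 0 ≤ pc q ∧ pc q ≤ 1) ∧
      ∀ q : ℝ, 1 ≤ q → ∀ p : ℝ, 0 ≤ p → p ≤ 1 →
      (∃ μ : Measure (Set (Pt d × Pt d)), IsFreeLimit μ p q) ∧
      ∀ μ : Measure (Set (Pt d × Pt d)), IsFreeLimit μ p q →
        (p < pc q → μ.real toInfinity = 0) ∧ (pc q < p → 0 < μ.real toInfinity) ∧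
        ((p < pc q ∨ (∃ Q : ℕ, 2 ≤ Q ∧ q ≤ Q ∧ pc Q < p) ∨
            (∃ Q : ℕ, 2 ≤ Q ∧ (Q : ℝ) ≤ q ∧ ∃ r : ℝ, pc Q < r ∧ r ≤ 1 ∧
              r * (1 - p) * q ≤ p * (1 - r) * Q)) →
          ∀ a b : ℕ → Pt d, Exhausts a b →
          Tendsto (fun m => phi0 (Finset.Icc (a m) (b m)) p q
            (toBoundary (Finset.Icc (a m) (b m)))) atTop (nhds (μ.real toInfinity))) := by
  have hd1 : 1 ≤ d := by omega
  refine ⟨pcF d, fun q hq => ⟨(pcF_aux d hq).1, (pcF_aux d hq).2.1⟩, fun q hq p hp0 hp1 =>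
    ⟨exists_freeLimit d hq hp0 hp1, fun μ hμ => ?_⟩⟩
  obtain ⟨h1, h2, h3, h4⟩ := pcF_aux d hq
  rw [free_limit_th0 hd1 hq hp0 hp1 hμ]
  refine ⟨h3 p hp0 hp1, h4 p hp0 hp1, fun hcase a b hab => ?_⟩
  refine tendsto_of_low hd1 hq hp0 hp1 ?_ a b hab
  intro ε hε
  rcases hcase with hlt | ⟨Q, hQ2, hqQ, hgt⟩ | ⟨Q, hQ2, hQq, r, hr, hr1, hodds⟩
  · refine ⟨0, fun a b _ _ => ?_⟩
    rw [h3 p hp0 hp1 hlt]
    have := P_nonneg (D := lat (Finset.Icc a b)) (w := fun _ => p) (by linarith : 0 < q)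
      (finC_adm _ hp0 hp1) (fun A => ∃ y ∈ bd (Finset.Icc a b), Conn A 0 y)
    unfold finC_beta
    linarith
  · have hQ1 : (1 : ℝ) ≤ Q := by
      have : 1 ≤ Q := by omega
      exact_mod_cast this
    have hpp : 0 < p := lt_of_le_of_lt (pcF_aux d hQ1).1 hgt
    exact blower_dom hd1 hq hQ1 (mainCube_int hd hQ2) hgt hp1 hpp hp1
      (qdom_le hq hqQ hp0 le_rfl hp1) hε
  · have hQ1 : (1 : ℝ) ≤ Q := by
      have : 1 ≤ Q := by omega
      exact_mod_cast this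
    have hr0 : 0 < r := lt_of_le_of_lt (pcF_aux d hQ1).1 hr
    have hpp : 0 < p := pos_of_odds (by linarith) hr0 hp0 hodds
    exact blower_dom hd1 hq hQ1 (mainCube_int hd hQ2) hr hr1 hpp hp1
      (qdom_odds hQ1 hQq hr0.le hr1 hp0 hp1 hodds) hε

end FKB
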