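import Pool.Agent.FKQ.Lim
import Pool.Agent.FKB.Top

open Finset Filter
noncomputable section
namespace FKB

/-- translated form of the face event -/
theorem hit_face {d : ℕ} (p q : ℝ) (x : Pt d) (N : ℕ) (j : Fin d) (s : ℤ) :
    P (lat (cube x N)) (fun _ => p) q
        (fun A => ∃ y ∈ cube x N, y j = x j + s * N ∧ Conn A x y) =
      P (lat (cube (0 : Pt d) N)) (fun _ => p) q
        (fun A => ∃ y ∈ cube (0 : Pt d) N, y j = s * N ∧ Conn A 0 y) := by
  have hx : cube x N = (cube (0 : Pt d) N).map (tr x) := by rw [tr_cube, zero_add]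
  unfold P
  rw [hx, tr_lat, E_map (tr x) (lat (cube (0 : Pt d) N))]
  refine E_congr (fun A _ => ind_congr ?_)
  constructor
  · rintro ⟨y, hy, hj, hc⟩
    rw [Finset.mem_map] at hy
    obtain ⟨y', hy', rfl⟩ := hy
    refine ⟨y', hy', ?_, ?_⟩
    · rw [tr_apply, Pi.add_apply] at hj
      linarith
    · have h : x = tr x 0 := by rw [tr_apply, zero_add]
      rw [h] at hc
      have hc' : Conn (A.map ((tr x).prodMap (tr x))) (tr x 0) (tr x y') := by
        rw [← h] at hc ⊢
        exact hc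
      exact (conn_map (tr x) A 0 y').1 hc'
  · rintro ⟨y, hy, hj, hc⟩
    refine ⟨tr x y, Finset.mem_map_of_mem _ hy, ?_, ?_⟩
    · rw [tr_apply, Pi.add_apply, hj]
      ring
    · have h := (conn_map (tr x) A 0 y).2 hc
      rwa [show tr x 0 = x by rw [tr_apply, zero_add]] at h

/-- one point of the bulk is joined to the boundary with probability about `th1` -/
theorem hit_point {d : ℕ} {q : ℝ} (hd : 1 ≤ d) (hq : 1 ≤ q) {p v : ℝ} (hp0 : 0 < p)
    (hp1 : p < 1) {n1 : ℕ}
    (H : ∀ N : ℕ, n1 ≤ N → ∀ (j : Fin d) (s : ℤ), (s = 1 ∨ s = -1) →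
      v ≤ P (lat (cube (0 : Pt d) N)) (fun _ => p) q
          (fun A => ∃ y ∈ cube (0 : Pt d) N, y j = s * N ∧ Conn A 0 y))
    {a b x : Pt d} (ha : ∀ i, (n1 : ℤ) ≤ x i - a i) (hb : ∀ i, (n1 : ℤ) ≤ b i - x i) :
    v ≤ P (lat (Finset.Icc a b)) (fun _ => p) q
      (fun A => ∃ y ∈ bd (Finset.Icc a b), Conn A x y) := by
  have hq0 : (0 : ℝ) < q := by linarith
  have hne : (Finset.univ : Finset (Fin d)).Nonempty := ⟨⟨0, by omega⟩, Finset.mem_univ _⟩
  obtain ⟨j, _, hj⟩ := Finset.exists_min_image Finset.univ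
    (fun i => min (x i - a i) (b i - x i)) hne
  have hgj : (n1 : ℤ) ≤ min (x j - a j) (b j - x j) := le_min (ha j) (hb j)
  obtain ⟨N, hN⟩ : ∃ N : ℕ, (N : ℤ) = min (x j - a j) (b j - x j) :=
    ⟨(min (x j - a j) (b j - x j)).toNat, Int.toNat_of_nonneg (by
      have : (0 : ℤ) ≤ n1 := Int.natCast_nonneg _
      linarith)⟩
  have hN0 : n1 ≤ N := by
    have : (n1 : ℤ) ≤ N := by rw [hN]; exact hgj
    exact_mod_cast this
  have hsub : cube x N ⊆ Finset.Icc a b := by
    intro z hz
    rw [mem_cube] at hz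
    rw [Finset.mem_Icc]
    have hz' : ∀ i, -(N : ℤ) ≤ z i - x i ∧ z i - x i ≤ N := fun i => abs_le.mp (hz i)
    have hNi : ∀ i, (N : ℤ) ≤ x i - a i ∧ (N : ℤ) ≤ b i - x i := by
      intro i
      have := hj i (Finset.mem_univ i)
      rw [← hN] at this
      exact le_min_iff.mp this
    constructor
    · intro i; linarith [(hz' i).1, (hNi i).1]
    · intro i; linarith [(hz' i).2, (hNi i).2]
  obtain ⟨s, hs, hface⟩ : ∃ s : ℤ, (s = 1 ∨ s = -1) ∧
      ∀ y ∈ cube x N, y j = x j + s * N → y ∈ bd (Finset.Icc a b) := by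
    rcases min_choice (x j - a j) (b j - x j) with hm | hm
    · refine ⟨-1, Or.inr rfl, ?_⟩
      intro y hy hyj
      unfold bd
      rw [Finset.mem_filter]
      refine ⟨hsub hy, j, Or.inr ?_⟩
      intro hcon
      rw [Finset.mem_Icc] at hcon
      have h3 := hcon.1 j
      simp only [Pi.sub_apply, Pi.single_eq_same] at h3
      rw [hyj, hN, hm] at h3
      linarith
    · refine ⟨1, Or.inl rfl, ?_⟩
      intro y hy hyj
      unfold bd
      rw [Finset.mem_filter]
      refine ⟨hsub hy, j, Or.inl ?_⟩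
      intro hcon
      rw [Finset.mem_Icc] at hcon
      have h3 := hcon.2 j
      simp only [Pi.add_apply, Pi.single_eq_same] at h3
      rw [hyj, hN, hm] at h3
      linarith
  have hmain := H N hN0 j s hs
  rw [← hit_face p q x N j s] at hmain
  have s1 : P (lat (cube x N)) (fun _ => p) q
      (fun A => ∃ y ∈ cube x N, y j = x j + s * N ∧ Conn A x y) ≤
      P (lat (Finset.Icc a b)) (fun _ => p) q
      (fun A => ∃ y ∈ cube x N, y j = x j + s * N ∧ Conn A x y) := by
    apply E_dom hq (fun _ _ => ⟨hp0.le, hp1.le⟩) (fun _ _ => ⟨hp0.le, hp1.le⟩) (lat_mono hsub)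
      (fun _ _ => le_rfl)
    intro A B hAB _
    apply ind_mono
    rintro ⟨y, hy, hyj, hc⟩
    exact ⟨y, hy, hyj, hc.mono' hAB⟩
  have s2 : P (lat (Finset.Icc a b)) (fun _ => p) q
      (fun A => ∃ y ∈ cube x N, y j = x j + s * N ∧ Conn A x y) ≤
      P (lat (Finset.Icc a b)) (fun _ => p) q
          (fun A => ∃ y ∈ bd (Finset.Icc a b), Conn A x y) := by
    apply P_mono hq0 (fun _ _ => ⟨hp0.le, hp1.le⟩)
    intro A _ _ _
    rintro ⟨y, hy, hyj, hc⟩
    exact ⟨y, hface y hy hyj, hc⟩
  linarith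

/-- a point joined to the boundary of a large box is far -/
theorem hit_far {d : ℕ} {l0 : ℕ} {a b x : Pt d} (ha : ∀ i, (l0 : ℤ) + 1 ≤ x i - a i)
    (hb : ∀ i, (l0 : ℤ) + 1 ≤ b i - x i) {A : Finset (Pt d × Pt d)}
    (hA : A ⊆ lat (Finset.Icc a b)) (h : ∃ y ∈ bd (Finset.Icc a b), Conn A x y) :
    Far l0 A x := by
  obtain ⟨y, hy, hc⟩ := h
  by_contra hf
  have hy' := notFar_cluster (fun e he => isLat_lat _ e (hA he)) hf hc
  rw [mem_cube] at hy'
  unfold bd at hy
  rw [Finset.mem_filter] at hy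
  obtain ⟨hyI, i, hi⟩ := hy
  rw [Finset.mem_Icc] at hyI
  have hyb : ∀ k, a k + 1 ≤ y k ∧ y k + 1 ≤ b k := by
    intro k
    have h1 := abs_le.mp (hy' k)
    exact ⟨by linarith [ha k, h1.1], by linarith [hb k, h1.2]⟩
  rcases hi with hi | hi
  · apply hi
    rw [Finset.mem_Icc]
    constructor
    · intro k
      by_cases hk : k = i
      · subst hk
        simp only [Pi.add_apply, Pi.single_eq_same]
        linarith [(hyb k).1]
      · simp only [Pi.add_apply, Pi.single_eq_of_ne hk, add_zero]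
        linarith [(hyb k).1]
    · intro k
      by_cases hk : k = i
      · subst hk
        simp only [Pi.add_apply, Pi.single_eq_same]
        linarith [(hyb k).2]
      · simp only [Pi.add_apply, Pi.single_eq_of_ne hk, add_zero]
        linarith [(hyb k).2]
  · apply hi
    rw [Finset.mem_Icc]
    constructor
    · intro k
      by_cases hk : k = i
      · subst hk
        simp only [Pi.sub_apply, Pi.single_eq_same]
        linarith [(hyb k).1]
      · simp only [Pi.sub_apply, Pi.single_eq_of_ne hk, sub_zero]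
        linarith [(hyb k).1]
    · intro k
      by_cases hk : k = i
      · subst hk
        simp only [Pi.sub_apply, Pi.single_eq_same]
        linarith [(hyb k).2]
      · simp only [Pi.sub_apply, Pi.single_eq_of_ne hk, sub_zero]
        linarith [(hyb k).2]

/-- a large cube meets the giant cluster -/
theorem hit {d : ℕ} {q : ℝ} (hd : 1 ≤ d) (hq : 1 ≤ q) (HM : MainCube d q) {p : ℝ} (hp0 : 0 < p)
    (hp1 : p < 1) (hth : 0 < th1 d p q)
    (hleft : ∀ s : ℝ, 0 < s → ∃ p0, 0 < p0 ∧ p0 < p ∧ (1 - s) * th1 d p q ≤ th1 d p0 q)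
    {ε : ℝ} (hε : 0 < ε) :
    ∃ l n0 : ℕ, ∀ a b : Pt d, (∀ i, a i ≤ -(n0 : ℤ)) → (∀ i, (n0 : ℤ) ≤ b i) →
      1 - ε ≤ P (lat (Finset.Icc a b)) (fun _ => p) q
        (fun A => ∃ x ∈ cube (0 : Pt d) l, ∃ y ∈ bd (Finset.Icc a b), Conn A x y) := by
  classical
  have hq0 : (0 : ℝ) < q := by linarith
  set θ : ℝ := th1 d p q with hθ
  set s : ℝ := min ε 1 / 4 with hs
  have hs0 : 0 < s := by
    have : 0 < min ε 1 := lt_min hε one_pos
    linarith
  have hs4 : s ≤ 1 / 4 := by
    have : min ε 1 ≤ 1 := min_le_right _ _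
    linarith
  have hsε : 4 * s ≤ ε := by
    have : min ε 1 ≤ ε := min_le_left _ _
    linarith
  obtain ⟨n1, hn1⟩ := HM p hp0 hp1 hth hleft (s * θ) (by positivity)
  obtain ⟨l0, hl0⟩ := th_lt_of_pos (d := d) (p := p) (q := q) hq hp0.le hp1.le
    (r := (1 + s) * θ) (by rw [← hθ]; nlinarith)
  have hθl : θ ≤ th d l0 p q := th1_le hq hp0.le hp1.le
  have hθl0 : 0 < th d l0 p q := lt_of_lt_of_le hth hθl
  obtain ⟨c, hc, hch⟩ := chernoff (d := d) (l := l0) hq hp0.le hp1.le hθl0 hs0
  obtain ⟨l, hl⟩ := exists_nat_gt (1 / (c * (s * θ)))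
  refine ⟨l, l + n1 + l0 + 1, ?_⟩
  intro a b ha hb
  set D : Finset (Pt d × Pt d) := lat (Finset.Icc a b) with hD
  set T : Finset (Pt d) := cube (0 : Pt d) l with hT
  have hadm : Adm D (fun _ => p) := fun _ _ => ⟨hp0.le, hp1.le⟩
  obtain ⟨n, hn⟩ : ∃ n : ℝ, n = (T.card : ℝ) := ⟨_, rfl⟩
  have hln : (l : ℝ) ≤ n := by
    rw [hn, hT, card_cube]
    have h1 : l ≤ 2 * l + 1 := by omega
    have h2 : 2 * l + 1 ≤ (2 * l + 1) ^ d := Nat.le_self_pow (by omega) _
    exact_mod_cast h1.trans h2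
  have hcs : 0 < c * (s * θ) := by positivity
  have hn1' : 1 / (c * (s * θ)) < n := hl.trans_le hln
  have hn0 : 0 < n := lt_trans (by positivity) hn1'
  have hexp : Real.exp (-c * n) ≤ s * θ := by
    have h1 : c * n ≤ Real.exp (c * n) := by
      have := Real.add_one_le_exp (c * n)
      linarith only [this]
    rw [div_lt_iff₀ hcs] at hn1'
    have h2 : Real.exp (-c * n) * Real.exp (c * n) = 1 := by
      rw [← Real.exp_add]
      simp
    have h3 : Real.exp (-c * n) * (c * n) ≤ 1 := by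
      rw [← h2]
      exact mul_le_mul_of_nonneg_left h1 (Real.exp_pos _).le
    have h5 : 0 < c * n := by positivity
    by_contra hlt
    push Not at hlt
    have h6 : s * θ * (c * n) < Real.exp (-c * n) * (c * n) :=
      mul_lt_mul_of_pos_right hlt h5
    have h7 : s * θ * (c * n) = n * (c * (s * θ)) := by ring
    linarith only [h6, h3, hn1', h7]
  -- positions
  have hposx : ∀ x ∈ T, ∀ i, ((n1 : ℤ) + l0 + 1 ≤ x i - a i) ∧ ((n1 : ℤ) + l0 + 1 ≤ b i - x i) := by
    intro x hx i
    rw [hT, mem_cube] at hx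
    have h1 := abs_le.mp (hx i)
    simp only [Pi.zero_apply, sub_zero] at h1
    have h2 := ha i
    have h3 := hb i
    push_cast at h2 h3
    exact ⟨by linarith [h1.1], by linarith [h1.2]⟩
  set J : Finset (Pt d × Pt d) → Pt d → Prop :=
    fun A x => ∃ y ∈ bd (Finset.Icc a b), Conn A x y with hJ
  have hpt : ∀ x ∈ T, (1 - s) * θ ≤ P D (fun _ => p) q (fun A => J A x) := by
    intro x hx
    have h := hit_point hd hq hp0 hp1 (v := th1 d p q - s * θ) (n1 := n1) hn1 (a := a) (b := b)
      (x := x) (fun i => by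
        have := (hposx x hx i).1
        have : (0 : ℤ) ≤ l0 := Int.natCast_nonneg _
        linarith) (fun i => by
        have := (hposx x hx i).2
        have : (0 : ℤ) ≤ l0 := Int.natCast_nonneg _
        linarith)
    have e : (1 - s) * θ = th1 d p q - s * θ := by rw [← hθ]; ring
    rw [e]
    exact h
  set U : Finset (Pt d × Pt d) → Prop := fun A => ∃ x ∈ T, J A x with hU
  set Fb : Finset (Pt d × Pt d) → Prop :=
    fun A => (1 + s) * th d l0 p q * T.card < nFar l0 A T with hFb
  have hbound : ∀ A, A ⊆ D → ∑ x ∈ T, ind (J A x) ≤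
      (1 + s) * th d l0 p q * n * ind (U A) + n * ind (Fb A) := by
    intro A hA
    have hcard : ∑ x ∈ T, ind (J A x) ≤ n := by
      calc ∑ x ∈ T, ind (J A x) ≤ ∑ _x ∈ T, (1 : ℝ) :=
            Finset.sum_le_sum fun x _ => ind_le_one _
        _ = n := by rw [Finset.sum_const, nsmul_eq_mul, mul_one, hn]
    have i1 : 0 ≤ (1 + s) * th d l0 p q * n * ind (U A) :=
      mul_nonneg (by positivity) (ind_nonneg _)
    have i2 : 0 ≤ n * ind (Fb A) := mul_nonneg hn0.le (ind_nonneg _)
    by_cases hu : U A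
    · by_cases hf : Fb A
      · rw [ind_true hf, mul_one]
        linarith only [hcard, i1]
      · rw [ind_true hu, ind_false hf]
        have hf' : (nFar l0 A T : ℝ) ≤ (1 + s) * th d l0 p q * n := by
          rw [hn]
          exact not_lt.1 hf
        have h1 : ∑ x ∈ T, ind (J A x) ≤ (nFar l0 A T : ℝ) := by
          have h2 : ∑ x ∈ T, ind (J A x) = ((T.filter (fun x => J A x)).card : ℝ) := by
            rw [Finset.card_filter]
            push_cast
            refine Finset.sum_congr rfl fun x _ => ?_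
            by_cases h : J A x
            · rw [ind_true h, if_pos h]
            · rw [ind_false h, if_neg h]
          rw [h2]
          have h3 : (T.filter (fun x => J A x)).card ≤ nFar l0 A T := by
            refine latgeo_nFar T _ (Finset.filter_subset _ _) ?_
            intro x hx
            rw [Finset.mem_filter] at hx
            refine hit_far (fun i => ?_) (fun i => ?_) hA hx.2
            · have := (hposx x hx.1 i).1
              have : (0 : ℤ) ≤ n1 := Int.natCast_nonneg _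
              linarith
            · have := (hposx x hx.1 i).2
              have : (0 : ℤ) ≤ n1 := Int.natCast_nonneg _
              linarith
          exact_mod_cast h3
        linarith only [h1, hf']
    · have h0 : ∑ x ∈ T, ind (J A x) = 0 := by
        refine Finset.sum_eq_zero fun x hx => ind_false ?_
        intro h
        exact hu ⟨x, hx, h⟩
      rw [h0]
      linarith only [i1, i2]
  have hE1 : (1 - s) * θ * n ≤ E D (fun _ => p) q (fun A => ∑ x ∈ T, ind (J A x)) := by
    rw [E_sum T]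
    calc (1 - s) * θ * n = ∑ _x ∈ T, (1 - s) * θ := by
          rw [Finset.sum_const, nsmul_eq_mul, hn]
          ring
      _ ≤ _ := Finset.sum_le_sum fun x hx => hpt x hx
  have hE2 : E D (fun _ => p) q (fun A => ∑ x ∈ T, ind (J A x)) ≤
      (1 + s) * th d l0 p q * n * P D (fun _ => p) q U + n * P D (fun _ => p) q Fb := by
    refine (E_mono hq0 hadm hbound).trans (le_of_eq ?_)
    rw [E_add, E_smul, E_smul]
    rfl
  have hFbP : P D (fun _ => p) q Fb ≤ s * θ := by
    have h1 := hch D (fun _ => p) (isLat_lat _) hadm T (fun _ _ _ _ _ => le_rfl)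
    rw [← hn] at h1
    refine le_trans ?_ hexp
    have h2 : P D (fun _ => p) q Fb =
        P D (fun _ => p) q (fun A => (1 + s) * th d l0 p q * n < nFar l0 A T) := by
      rw [hFb, hn]
    rw [h2]
    exact h1
  obtain ⟨t, ht⟩ : ∃ t, t = P D (fun _ => p) q U := ⟨_, rfl⟩
  have ht0 : 0 ≤ t := by rw [ht]; exact P_nonneg hq0 hadm U
  rw [← ht] at hE2
  show 1 - ε ≤ P D (fun _ => p) q U
  rw [← ht]
  have h1 : (1 + s) * th d l0 p q * n * t ≤ (1 + s) * ((1 + s) * θ) * n * t := by
    have h2 : (1 + s) * th d l0 p q ≤ (1 + s) * ((1 + s) * θ) :=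
      mul_le_mul_of_nonneg_left hl0.le (by linarith)
    exact mul_le_mul_of_nonneg_right (mul_le_mul_of_nonneg_right h2 hn0.le) ht0
  have h3 : n * P D (fun _ => p) q Fb ≤ n * (s * θ) := mul_le_mul_of_nonneg_left hFbP hn0.le
  have h4 : (1 - 2 * s) * (θ * n) ≤ (1 + s) ^ 2 * t * (θ * n) := by
    have e1 : (1 + s) * ((1 + s) * θ) * n * t = (1 + s) ^ 2 * t * (θ * n) := by ring
    have e2 : (1 - 2 * s) * (θ * n) = (1 - s) * θ * n - n * (s * θ) := by ring
    rw [e2, ← e1]
    linarith only [hE1, hE2, h1, h3]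
  have h5 : 1 - 2 * s ≤ (1 + s) ^ 2 * t := le_of_mul_le_mul_right h4 (by positivity)
  have h6 : 1 - 4 * s ≤ t := by
    by_contra hlt
    push Not at hlt
    have h7 : (1 + s) ^ 2 * t < (1 + s) ^ 2 * (1 - 4 * s) :=
      mul_lt_mul_of_pos_left hlt (by positivity)
    have h8 : (1 + s) ^ 2 * (1 - 4 * s) ≤ 1 - 2 * s := by
      have : 0 ≤ s ^ 2 * (7 + 4 * s) := by positivity
      nlinarith
    linarith
  linarith

end FKB
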