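import Pool.Agent.BK.LimA
import Pool.Agent.FKB.Holley

open Finset Filter
noncomputable section
namespace FKB

variable {d : ℕ}

theorem Loc.mono {D0 D1 : Finset (Pt d × Pt d)} {F : Finset (Pt d × Pt d) → ℝ} (hF : Loc D0 F)
    (h : D0 ⊆ D1) : Loc D1 F := by
  intro A
  rw [hF A, hF (A ∩ D1), inter_assoc, inter_eq_right.2 h]

theorem limB_cube_mono {c : Pt d} {m n : ℕ} (h : m ≤ n) : cube c m ⊆ cube c n := by
  intro x hx
  rw [mem_cube] at hx ⊢
  intro i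
  have h1 := hx i
  have h2 : (m : ℤ) ≤ n := by exact_mod_cast h
  omega

theorem limB_adm {D : Finset (Pt d × Pt d)} {p : ℝ} (hp0 : 0 ≤ p) (hp1 : p ≤ 1) :
    Adm D (fun _ => p) := fun _ _ => ⟨hp0, hp1⟩

theorem limB_tendsto {p q : ℝ} (hq : 1 ≤ q) (hp0 : 0 ≤ p) (hp1 : p ≤ 1)
    {D0 : Finset (Pt d × Pt d)} {F : Finset (Pt d × Pt d) → ℝ} (hF : Loc D0 F) :
    Tendsto (fun m : ℕ => E (lat (cube (0 : Pt d) m)) (fun _ => p) q F) atTop
      (nhds (IE p q F)) := by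
  rw [Metric.tendsto_atTop]
  intro ε hε
  obtain ⟨m0, hm0⟩ := IE_unif hq hp0 hp1 hF (half_pos hε)
  refine ⟨m0, fun m hm => ?_⟩
  rw [Real.dist_eq]
  have := hm0 (cube 0 m) (limB_cube_mono hm)
  linarith

theorem Loc.add {D0 D1 : Finset (Pt d × Pt d)}
    {F G : Finset (Pt d × Pt d) → ℝ} (hF : Loc D0 F) (hG : Loc D1 G) :
    Loc (D0 ∪ D1) (fun A => F A + G A) := by
  intro A
  have h1 := (hF.mono subset_union_left : Loc (D0 ∪ D1) F) A
  have h2 := (hG.mono subset_union_right : Loc (D0 ∪ D1) G) A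
  show F A + G A = F (A ∩ (D0 ∪ D1)) + G (A ∩ (D0 ∪ D1))
  rw [← h1, ← h2]

theorem Loc.smul {D0 : Finset (Pt d × Pt d)}
    {F : Finset (Pt d × Pt d) → ℝ} (hF : Loc D0 F) (c : ℝ) :
    Loc D0 (fun A => c * F A) := by
  intro A
  show c * F A = c * F (A ∩ D0)
  rw [← hF A]

theorem IE_add {p q : ℝ} (hq : 1 ≤ q) (hp0 : 0 ≤ p) (hp1 : p ≤ 1) {D0 D1 : Finset (Pt d × Pt d)}
    {F G : Finset (Pt d × Pt d) → ℝ} (hF : Loc D0 F) (hG : Loc D1 G) :
    IE p q (fun A => F A + G A) = IE p q F + IE p q G := by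
  have h1 := limB_tendsto hq hp0 hp1 (hF.add hG)
  have h2 := (limB_tendsto hq hp0 hp1 hF).add (limB_tendsto hq hp0 hp1 hG)
  refine tendsto_nhds_unique h1 (h2.congr (fun m => ?_))
  rw [E_add]

theorem IE_smul {p q : ℝ} (hq : 1 ≤ q) (hp0 : 0 ≤ p) (hp1 : p ≤ 1) {D0 : Finset (Pt d × Pt d)}
    {F : Finset (Pt d × Pt d) → ℝ} (hF : Loc D0 F) (c : ℝ) :
    IE p q (fun A => c * F A) = c * IE p q F := by
  have h1 := limB_tendsto hq hp0 hp1 (hF.smul c)
  have h2 := (limB_tendsto hq hp0 hp1 hF).const_mul c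
  refine tendsto_nhds_unique h1 (h2.congr (fun m => ?_))
  rw [E_smul]

theorem IE_const {p q : ℝ} (hq : 1 ≤ q) (hp0 : 0 ≤ p) (hp1 : p ≤ 1) (c : ℝ) :
    IE (d := d) p q (fun _ => c) = c := by
  have hq0 : 0 < q := lt_of_lt_of_le one_pos hq
  unfold IE
  refine Tendsto.limUnder_eq ?_
  refine tendsto_const_nhds.congr (fun m => ?_)
  rw [E_const hq0 (limB_adm hp0 hp1)]

theorem IE_mono {p q : ℝ} (hq : 1 ≤ q) (hp0 : 0 ≤ p) (hp1 : p ≤ 1) {D0 D1 : Finset (Pt d × Pt d)}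
    {F G : Finset (Pt d × Pt d) → ℝ} (hF : Loc D0 F) (hG : Loc D1 G)
    (h : ∀ A, IsLat A → F A ≤ G A) : IE p q F ≤ IE p q G := by
  have hq0 : 0 < q := lt_of_lt_of_le one_pos hq
  refine le_of_tendsto_of_tendsto' (limB_tendsto hq hp0 hp1 hF) (limB_tendsto hq hp0 hp1 hG)
    (fun m => ?_)
  refine E_mono hq0 (limB_adm hp0 hp1) (fun A hA => h A ?_)
  intro e he
  exact isLat_lat _ e (hA he)

/-- increasing local functions: every finite box is a lower bound -/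
theorem IE_dom {p q : ℝ} (hq : 1 ≤ q) (hp0 : 0 ≤ p) (hp1 : p ≤ 1) {D0 : Finset (Pt d × Pt d)}
    {F : Finset (Pt d × Pt d) → ℝ} (hF : Loc D0 F) (hinc : ∀ A B, A ⊆ B → F A ≤ F B)
    (H : Finset (Pt d)) : E (lat H) (fun _ => p) q F ≤ IE p q F := by
  have hH : ∃ m0 : ℕ, H ⊆ cube (0 : Pt d) m0 := by
    refine ⟨∑ x ∈ H, ∑ i, (x i).natAbs, fun x hx => ?_⟩
    rw [mem_cube]
    intro i
    have h1 : (x i).natAbs ≤ ∑ i, (x i).natAbs :=
      Finset.single_le_sum (f := fun i => (x i).natAbs) (fun _ _ => Nat.zero_le _) (mem_univ i)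
    have h2 : ∑ i, (x i).natAbs ≤ ∑ x ∈ H, ∑ i, (x i).natAbs :=
      Finset.single_le_sum (f := fun x : Pt d => ∑ i, (x i).natAbs)
        (fun _ _ => Nat.zero_le _) hx
    have h3 : |x i - (0 : Pt d) i| = ((x i).natAbs : ℤ) := by
      rw [Pi.zero_apply, sub_zero, Int.natCast_natAbs]
    rw [h3]
    exact_mod_cast h1.trans h2
  obtain ⟨m0, hm0⟩ := hH
  refine ge_of_tendsto (limB_tendsto hq hp0 hp1 hF) ?_
  filter_upwards [eventually_ge_atTop m0] with m hm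
  exact E_dom hq (limB_adm hp0 hp1) (limB_adm hp0 hp1)
    (lat_mono (hm0.trans (limB_cube_mono hm))) (fun _ _ => le_refl _)
    (fun A B hAB _ => hinc A B hAB)

theorem limB_mem_sh (v : Pt d) (A : Finset (Pt d × Pt d)) (e : Pt d × Pt d) :
    e ∈ sh v A ↔ (e.1 - v, e.2 - v) ∈ A := by
  unfold sh
  rw [Finset.mem_map]
  constructor
  · rintro ⟨y, hy, rfl⟩
    show (y.1 + v - v, y.2 + v - v) ∈ A
    rw [add_sub_cancel_right, add_sub_cancel_right]
    exact hy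
  · intro h
    refine ⟨_, h, ?_⟩
    show (e.1 - v + v, e.2 - v + v) = e
    rw [sub_add_cancel, sub_add_cancel]

theorem Loc.sh {D0 : Finset (Pt d × Pt d)}
    {F : Finset (Pt d × Pt d) → ℝ} (hF : Loc D0 F) (v : Pt d) :
    Loc (FKB.sh (-v) D0) (fun A => F (FKB.sh v A)) := by
  intro A
  show F (FKB.sh v A) = F (FKB.sh v (A ∩ FKB.sh (-v) D0))
  rw [hF, hF (FKB.sh v (A ∩ FKB.sh (-v) D0))]
  congr 1
  ext e
  rw [mem_inter, mem_inter, limB_mem_sh, limB_mem_sh, mem_inter, limB_mem_sh]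
  simp only [sub_neg_eq_add, sub_add_cancel, Prod.mk.eta]
  tauto

/-- translation invariance -/
theorem IE_shift {p q : ℝ} (hq : 1 ≤ q) (hp0 : 0 ≤ p) (hp1 : p ≤ 1) {D0 : Finset (Pt d × Pt d)}
    {F : Finset (Pt d × Pt d) → ℝ} (hF : Loc D0 F) (v : Pt d) :
    IE p q (fun A => F (sh v A)) = IE p q F := by
  refine eq_of_abs_sub_le_all (fun ε hε => ?_)
  obtain ⟨m0, hm0⟩ := IE_unif hq hp0 hp1 hF hε
  have h1 : Tendsto (fun m : ℕ => |E (lat (cube (0 : Pt d) m)) (fun _ => p) q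
      (fun A => F (sh v A)) - IE p q F|) atTop
      (nhds |IE p q (fun A => F (sh v A)) - IE p q F|) :=
    ((limB_tendsto hq hp0 hp1 (hF.sh v)).sub_const _).abs
  refine le_of_tendsto h1 ?_
  filter_upwards [eventually_ge_atTop (m0 + ∑ i, (v i).natAbs)] with m hm
  have h2 : E (lat (cube (0 : Pt d) m)) (fun _ => p) q (fun A => F (sh v A)) =
      E (lat ((cube (0 : Pt d) m).map (tr v))) (fun _ => p) q F := by
    rw [tr_lat, E_map]
    rfl
  rw [h2]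
  apply hm0
  intro x hx
  rw [mem_cube] at hx
  rw [tr_mem, mem_cube]
  intro i
  have h3 := hx i
  have h4 : (v i).natAbs ≤ ∑ i, (v i).natAbs :=
    Finset.single_le_sum (f := fun i => (v i).natAbs) (fun _ _ => Nat.zero_le _) (mem_univ i)
  have h5 : ((v i).natAbs : ℤ) = |v i| := Int.natCast_natAbs _
  simp only [Pi.zero_apply, sub_zero, Pi.sub_apply] at h3 ⊢
  have h6 : ((m0 + (v i).natAbs : ℕ) : ℤ) ≤ m := by
    have : m0 + (v i).natAbs ≤ m := by omega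
    exact_mod_cast this
  push_cast at h6
  have h7 := abs_sub (x i) (v i)
  omega

end FKB
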