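import Pool.Agent.BK.Uniq
import Pool.Agent.BK.Hit

open Finset Filter
noncomputable section
namespace FKB

theorem Lower_cube_mono {d : ℕ} {c : Pt d} {m m' : ℕ} (h : m ≤ m') : cube c m ⊆ cube c m' := by
  intro x hx
  rw [mem_cube] at hx ⊢
  intro i
  have h1 := hx i
  have h2 : (m : ℤ) ≤ m' := by exact_mod_cast h
  omega

theorem Lower_sub {d : ℕ} {a b : Pt d} {n m : ℕ} (h : m ≤ n) (ha : ∀ i, a i ≤ -(n : ℤ))
    (hb : ∀ i, (n : ℤ) ≤ b i) : cube (0 : Pt d) m ⊆ Finset.Icc a b := by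
  intro x hx
  rw [mem_cube] at hx
  rw [Finset.mem_Icc]
  have h2 : (m : ℤ) ≤ n := by exact_mod_cast h
  constructor
  · intro i
    have h3 := hx i
    rw [Pi.zero_apply, sub_zero, abs_le] at h3
    linarith [ha i, h3.1]
  · intro i
    have h3 := hx i
    rw [Pi.zero_apply, sub_zero, abs_le] at h3
    linarith [hb i, h3.2]

/-- a boundary point of a large box is outside a given cube -/
theorem Lower_bd {d : ℕ} {a b : Pt d} {R : ℕ} (h : cube (0 : Pt d) (R + 1) ⊆ Finset.Icc a b)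
    {y : Pt d} (hy : y ∈ bd (Finset.Icc a b)) : y ∉ cube (0 : Pt d) R := by
  intro hyR
  rw [bd, mem_filter] at hy
  obtain ⟨_, i, hi⟩ := hy
  rw [mem_cube] at hyR
  have key : ∀ t : ℤ, |t| ≤ 1 → y + Pi.single i t ∈ Finset.Icc a b := by
    intro t ht
    apply h
    rw [mem_cube]
    intro j
    have h1 := hyR j
    rw [Pi.zero_apply, sub_zero] at h1 ⊢
    rw [Pi.add_apply]
    have h2 : |(Pi.single i t : Pt d) j| ≤ 1 := by
      by_cases hj : j = i
      · subst hj; rw [Pi.single_eq_same]; exact ht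
      · rw [Pi.single_eq_of_ne hj]; simp
    calc |y j + (Pi.single i t : Pt d) j| ≤ |y j| + |(Pi.single i t : Pt d) j| := abs_add_le _ _
      _ ≤ R + 1 := add_le_add h1 h2
      _ = ((R + 1 : ℕ) : ℤ) := by push_cast; ring
  rcases hi with hi | hi
  · exact hi (key 1 (by simp))
  · apply hi
    have h1 := key (-1) (by simp)
    have h2 : y + Pi.single i (-1) = y - Pi.single i (1 : ℤ) := by
      rw [sub_eq_add_neg, ← Pi.single_neg]
    rwa [h2] at h1

/-- the lower bound at every `p` above the critical point -/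
theorem blower_box {d : ℕ} {q : ℝ} (hd : 1 ≤ d) (hq : 1 ≤ q) (HM : MainCube d q) {p : ℝ}
    (hp0 : 0 < p) (hp1 : p ≤ 1) (hsup : ∃ p', 0 ≤ p' ∧ p' < p ∧ 0 < th0 d p' q)
    {ε : ℝ} (hε : 0 < ε) :
    ∃ n0 : ℕ, ∀ a b : Pt d, (∀ i, a i ≤ -(n0 : ℤ)) → (∀ i, (n0 : ℤ) ≤ b i) →
      th0 d p q - ε ≤ P (lat (Finset.Icc a b)) (fun _ => p) q
          (fun A => ∃ y ∈ bd (Finset.Icc a b), Conn A 0 y) := by
  have hq0 : (0 : ℝ) < q := by linarith
  obtain ⟨p', h00, h0p, hpos⟩ := hsup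
  obtain ⟨p2, hp2a, hp2b, hth, hlc⟩ := limB_point hq h00 h0p hp1 hpos
  have hp2'0 : 0 < p2 := lt_of_le_of_lt h00 hp2a
  have hp2'1 : p2 < 1 := lt_of_lt_of_le hp2b hp1
  have hε3 : 0 < ε / 3 := by linarith
  obtain ⟨l, n1, hn1⟩ := hit hd hq HM hp2'0 hp2'1 hth hlc hε3
  obtain ⟨R, hlR, m0, hm0⟩ := uniq_fin hd hq hp0 hp1 l hε3
  obtain ⟨m1, hm1⟩ : ∃ m1 : ℕ, th0 d p q - ε / 3 < fth d m1 R p q := by
    have h1 : th0 d p q ≤ ⨆ m : ℕ, fth d m R p q :=
      ciInf_le (limA_bddBelow hq hp0.le hp1) R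
    exact exists_lt_of_lt_ciSup (lt_of_lt_of_le (by linarith) h1)
  refine ⟨max n1 (max m0 (max m1 (R + 1))), fun a b ha hb => ?_⟩
  set n := max n1 (max m0 (max m1 (R + 1))) with hn
  have hle1 : n1 ≤ n := le_max_left _ _
  have hle2 : m0 ≤ n := (le_max_left _ _).trans (le_max_right _ _)
  have hle3 : m1 ≤ n := (le_max_left _ _).trans ((le_max_right _ _).trans (le_max_right _ _))
  have hle4 : R + 1 ≤ n := (le_max_right _ _).trans ((le_max_right _ _).trans (le_max_right _ _))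
  have hle1' : (n1 : ℤ) ≤ n := by exact_mod_cast hle1
  set L := Finset.Icc a b with hL
  set D := lat L with hD
  have hadm : Adm D (fun _ : Pt d × Pt d => p) := fun _ _ => ⟨hp0.le, hp1⟩
  -- the three events
  have e1 : 1 - ε / 3 ≤ P D (fun _ => p) q
      (fun A => ∃ x ∈ cube (0 : Pt d) l, ∃ y ∈ bd L, Conn A x y) := by
    have h1 := hn1 a b (fun i => by linarith [ha i]) (fun i => by linarith [hb i])
    refine h1.trans ?_
    apply E_dom hq (fun _ _ => ⟨hp2'0.le, hp2'1.le⟩) hadm (Finset.Subset.refl _)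
      (fun _ _ => hp2b.le)
    intro A B hAB _
    apply ind_mono
    rintro ⟨x, hx, y, hy, hc⟩
    exact ⟨x, hx, y, hy, hc.mono' hAB⟩
  have e2 : P D (fun _ => p) q (TwoC (0 : Pt d) l R) ≤ ε / 3 :=
    hm0 L (Lower_sub hle2 ha hb)
  have e3 : th0 d p q - ε / 3 ≤ P D (fun _ => p) q (fun A => Far R A 0) := by
    refine hm1.le.trans ?_
    exact E_dom hq (fun _ _ => ⟨hp0.le, hp1⟩) hadm (lat_mono (Lower_sub hle3 ha hb))
      (fun _ _ => le_refl p) (limA_inc_far _ _ _)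
  have e1' : P D (fun _ => p) q
      (fun A => ¬ ∃ x ∈ cube (0 : Pt d) l, ∃ y ∈ bd L, Conn A x y) ≤ ε / 3 := by
    rw [P_compl hq0 hadm]; linarith
  have e4 : P D (fun _ => p) q (fun A => Far R A 0) ≤
      P D (fun _ => p) q (fun A => ∃ y ∈ bd L, Conn A 0 y) +
      (P D (fun _ => p) q (fun A => ¬ ∃ x ∈ cube (0 : Pt d) l, ∃ y ∈ bd L, Conn A x y) +
      P D (fun _ => p) q (TwoC (0 : Pt d) l R)) := by
    unfold P
    rw [← E_add, ← E_add]
    refine E_mono hq0 hadm fun A hA => ?_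
    by_cases hF : Far R A 0
    · have hIL : IsLat A := fun e he => isLat_lat _ e (hA he)
      rw [ind_true hF]
      by_cases h1 : ∃ x ∈ cube (0 : Pt d) l, ∃ y ∈ bd L, Conn A x y
      · by_cases h2 : TwoC (0 : Pt d) l R A
        · rw [ind_true h2]
          have := ind_nonneg (∃ y ∈ bd L, Conn A 0 y)
          have := ind_nonneg (¬ ∃ x ∈ cube (0 : Pt d) l, ∃ y ∈ bd L, Conn A x y)
          linarith
        · have h3 : ∃ y ∈ bd L, Conn A 0 y := by
            obtain ⟨x, hx, y, hy, hc⟩ := h1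
            have hyR : y ∉ cube (0 : Pt d) R := Lower_bd (Lower_sub hle4 ha hb) hy
            have hx' : x ∈ cube (0 : Pt d) R := Lower_cube_mono hlR hx
            have hcr : Cross (0 : Pt d) R A x := cross_of_conn hIL hx' (Or.inl hyR) hc
            have h4 : Conn (A ∩ lat (cube (0 : Pt d) R)) 0 x := by
              by_contra hcon
              exact h2 ⟨0, latgeo_self_mem 0 l, x, hx, hF, hcr, hcon⟩
            exact ⟨y, hy, (h4.mono' inter_subset_left).trans' hc⟩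
          rw [ind_true h3]
          have := ind_nonneg (TwoC (0 : Pt d) l R A)
          have := ind_nonneg (¬ ∃ x ∈ cube (0 : Pt d) l, ∃ y ∈ bd L, Conn A x y)
          linarith
      · rw [ind_true h1]
        have := ind_nonneg (∃ y ∈ bd L, Conn A 0 y)
        have := ind_nonneg (TwoC (0 : Pt d) l R A)
        linarith
    · rw [ind_false hF]
      have h1 := ind_nonneg (∃ y ∈ bd L, Conn A 0 y)
      have h2 := ind_nonneg (TwoC (0 : Pt d) l R A)
      have h3 := ind_nonneg (¬ ∃ x ∈ cube (0 : Pt d) l, ∃ y ∈ bd L, Conn A x y)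
      linarith
  linarith

end FKB
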