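import Pool.Agent.BK.LimB
import Pool.Agent.FKB.DomainB

open Finset Filter
noncomputable section
namespace FKB

variable {d : ℕ}

namespace Mix

theorem cube_mono {m n : ℕ} (h : m ≤ n) : cube (0 : Pt d) m ⊆ cube (0 : Pt d) n := by
  intro x hx
  rw [mem_cube] at hx ⊢
  intro i
  have h' : (m : ℤ) ≤ n := by exact_mod_cast h
  exact (hx i).trans h'

theorem tendsto_E {p q : ℝ} (hq : 1 ≤ q) (hp0 : 0 ≤ p) (hp1 : p ≤ 1) {D0 : Finset (Pt d × Pt d)}
    {F : Finset (Pt d × Pt d) → ℝ} (hF : Loc D0 F) :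
    Tendsto (fun m : ℕ => E (lat (cube (0 : Pt d) m)) (fun _ => p) q F) atTop
      (nhds (IE p q F)) := by
  rw [Metric.tendsto_atTop]
  intro ε hε
  obtain ⟨m0, h0⟩ := IE_unif hq hp0 hp1 hF (half_pos hε)
  refine ⟨m0, fun m hm => ?_⟩
  rw [Real.dist_eq]
  have := h0 (cube (0 : Pt d) m) (cube_mono hm)
  linarith

/-- increasing `F`, nonnegative far `G` -/
theorem lower {p q : ℝ} (hq : 1 ≤ q) (hp0 : 0 ≤ p) (hp1 : p ≤ 1) {M m : ℕ} (hMm : M ≤ m)
    {D1 : Finset (Pt d × Pt d)} {F G : Finset (Pt d × Pt d) → ℝ}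
    (hF : ∀ A B, A ⊆ B → F A ≤ F B) (hG : Loc D1 G) (hG0 : ∀ A, 0 ≤ G A)
    (hdis : Disjoint D1 (lat (cube (0 : Pt d) M))) :
    E (lat (cube (0 : Pt d) M)) (fun _ => p) q F *
        E (lat (cube (0 : Pt d) m)) (fun _ => p) q G ≤
      E (lat (cube (0 : Pt d) m)) (fun _ => p) q (fun A => F A * G A) := by
  have hq0 : 0 < q := lt_of_lt_of_le one_pos hq
  obtain ⟨L, hL⟩ : ∃ L, L = lat (cube (0 : Pt d) M) := ⟨_, rfl⟩
  obtain ⟨D, hD⟩ : ∃ D, D = lat (cube (0 : Pt d) m) := ⟨_, rfl⟩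
  have hLD : L ⊆ D := by rw [hL, hD]; exact lat_mono (cube_mono hMm)
  rw [← hL] at hdis ⊢
  rw [← hD]
  have hw : Adm D (fun _ : Pt d × Pt d => p) := fun e _ => ⟨hp0, hp1⟩
  have hwL : Adm L (fun _ : Pt d × Pt d => p) := fun e _ => ⟨hp0, hp1⟩
  have hGA : ∀ A, G A = G (A \ L) := by
    intro A
    rw [hG A, hG (A \ L)]
    congr 1
    ext e
    simp only [Finset.mem_inter, Finset.mem_sdiff]
    constructor
    · rintro ⟨h1, h2⟩
      exact ⟨⟨h1, Finset.disjoint_left.1 hdis h2⟩, h2⟩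
    · rintro ⟨⟨h1, _⟩, h2⟩
      exact ⟨h1, h2⟩
  have e1 : E D (fun _ => p) q (fun A => F A * G A) =
      E D (fun _ => p) q (fun A => G (A \ L) * F A) := by
    congr 1
    funext A
    rw [hGA A]
    ring
  have e2 : E D (fun _ => p) q G = E D (fun _ => p) q (fun A => G (A \ L) * 1) := by
    congr 1
    funext A
    rw [mul_one]
    exact hGA A
  rw [e1, e2, E_cond hq0 hw hLD, E_cond hq0 hw hLD, Finset.mul_sum]
  apply Finset.sum_le_sum
  intro B _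
  have hpin : Adm D (pin (fun _ : Pt d × Pt d => p) L B) := by
    intro e _
    unfold pin
    split_ifs
    · exact ⟨hp0, hp1⟩
    · exact ⟨zero_le_one, le_rfl⟩
    · exact ⟨le_rfl, zero_le_one⟩
  rw [E_const hq0 hpin, mul_one]
  have h1 : E L (fun _ => p) q F ≤ E D (pin (fun _ => p) L B) q F := by
    apply E_dom hq hwL hpin hLD
    · intro e he
      unfold pin
      rw [if_pos he]
    · intro A A' h _
      exact hF A A' h
  have h2 : 0 ≤ G B * P D (fun _ => p) q (fun A => A \ L = B) :=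
    mul_nonneg (hG0 B) (P_nonneg hq0 hw _)
  calc E L (fun _ => p) q F * (G B * P D (fun _ => p) q (fun A => A \ L = B))
      = G B * P D (fun _ => p) q (fun A => A \ L = B) * E L (fun _ => p) q F := by ring
    _ ≤ _ := mul_le_mul_of_nonneg_left h1 h2

/-- mixing in finite volume, increasing indicator -/
theorem fin_ind {p q : ℝ} (hq : 1 ≤ q) (hp0 : 0 ≤ p) (hp1 : p ≤ 1) (B : Finset (Pt d × Pt d))
    {ε : ℝ} (hε : 0 < ε) :
    ∃ M : ℕ, ∀ (D1 : Finset (Pt d × Pt d)) (G : Finset (Pt d × Pt d) → ℝ), Loc D1 G →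
      (∀ A, 0 ≤ G A ∧ G A ≤ 1) → ∀ M' : ℕ, M ≤ M' →
      Disjoint D1 (lat (cube (0 : Pt d) M')) → ∀ m : ℕ, M' ≤ m →
      |E (lat (cube (0 : Pt d) m)) (fun _ => p) q (fun A => ind (B ⊆ A) * G A) -
        E (lat (cube (0 : Pt d) m)) (fun _ => p) q (fun A => ind (B ⊆ A)) *
          E (lat (cube (0 : Pt d) m)) (fun _ => p) q G| ≤ ε := by
  have hq0 : 0 < q := lt_of_lt_of_le one_pos hq
  have hloc : Loc B (fun A => ind (B ⊆ A)) := by
    intro A
    have : (B ⊆ A) ↔ (B ⊆ A ∩ B) := by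
      constructor
      · intro h
        exact Finset.subset_inter h (Finset.Subset.refl _)
      · intro h
        exact h.trans Finset.inter_subset_left
    simp only [ind_congr this]
  obtain ⟨M, hM⟩ := IE_unif hq hp0 hp1 hloc (show 0 < ε / 4 by positivity)
  refine ⟨M, ?_⟩
  intro D1 G hG hG01 M' hMM hdis m hm
  have hw : Adm (lat (cube (0 : Pt d) m)) (fun _ : Pt d × Pt d => p) := fun e _ => ⟨hp0, hp1⟩
  have hinc : ∀ A A' : Finset (Pt d × Pt d), A ⊆ A' → ind (B ⊆ A) ≤ ind (B ⊆ A') :=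
    fun A A' h => ind_mono fun h' => h'.trans h
  have h1 := lower (d := d) hq hp0 hp1 hm (F := fun A => ind (B ⊆ A)) (G := G) hinc hG
    (fun A => (hG01 A).1) hdis
  have hG' : Loc D1 (fun A => 1 - G A) := by
    intro A
    show 1 - G A = 1 - G (A ∩ D1)
    rw [← hG A]
  have h2 := lower (d := d) hq hp0 hp1 hm (F := fun A => ind (B ⊆ A)) (G := fun A => 1 - G A) hinc
    hG' (fun A => by have := (hG01 A).2; linarith) hdis
  have e1 : E (lat (cube (0 : Pt d) m)) (fun _ => p) q (fun A => 1 - G A) =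
      1 - E (lat (cube (0 : Pt d) m)) (fun _ => p) q G := by
    rw [E_sub (fun _ => (1 : ℝ)) G, E_const hq0 hw]
  have e2 : E (lat (cube (0 : Pt d) m)) (fun _ => p) q (fun A => ind (B ⊆ A) * (1 - G A)) =
      E (lat (cube (0 : Pt d) m)) (fun _ => p) q (fun A => ind (B ⊆ A)) -
        E (lat (cube (0 : Pt d) m)) (fun _ => p) q (fun A => ind (B ⊆ A) * G A) := by
    rw [← E_sub]
    congr 1
    funext A
    ring
  rw [e1, e2] at h2
  have a1 := hM (cube (0 : Pt d) M') (cube_mono hMM)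
  have a2 := hM (cube (0 : Pt d) m) (cube_mono (hMM.trans hm))
  have g0 : 0 ≤ E (lat (cube (0 : Pt d) m)) (fun _ => p) q G := by
    have := E_mono (D := lat (cube (0 : Pt d) m)) (F := fun _ => (0 : ℝ)) (G := G) hq0 hw
      (fun A _ => (hG01 A).1)
    rwa [E_const hq0 hw] at this
  have g1 : E (lat (cube (0 : Pt d) m)) (fun _ => p) q G ≤ 1 := by
    have := E_mono (D := lat (cube (0 : Pt d) m)) (F := G) (G := fun _ => (1 : ℝ)) hq0 hw
      (fun A _ => (hG01 A).2)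
    rwa [E_const hq0 hw] at this
  obtain ⟨x, hx⟩ : ∃ x, x = E (lat (cube (0 : Pt d) m)) (fun _ => p) q
    (fun A => ind (B ⊆ A)) := ⟨_, rfl⟩
  obtain ⟨y, hy⟩ : ∃ y, y = E (lat (cube (0 : Pt d) M')) (fun _ => p) q
    (fun A => ind (B ⊆ A)) := ⟨_, rfl⟩
  obtain ⟨z, hz⟩ : ∃ z, z = E (lat (cube (0 : Pt d) m)) (fun _ => p) q
    (fun A => ind (B ⊆ A) * G A) := ⟨_, rfl⟩
  obtain ⟨g, hg⟩ : ∃ g, g = E (lat (cube (0 : Pt d) m)) (fun _ => p) q G := ⟨_, rfl⟩
  obtain ⟨i, hi⟩ : ∃ i, i = IE p q (fun A : Finset (Pt d × Pt d) => ind (B ⊆ A)) := ⟨_, rfl⟩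
  rw [← hi, ← hy] at a1
  rw [← hi, ← hx] at a2
  rw [← hy, ← hg, ← hz] at h1
  rw [← hx, ← hy, ← hg, ← hz] at h2
  rw [← hg] at g0 g1
  rw [← hx, ← hz, ← hg]
  rw [abs_le] at a1 a2 ⊢
  have hxy : x - y ≤ ε / 2 := by linarith
  have hxy' : -(ε / 2) ≤ x - y := by linarith
  have b1 : (x - y) * g ≤ ε / 2 := by nlinarith
  have b2 : -(ε / 2) ≤ (x - y) * g := by nlinarith
  constructor <;> nlinarith

/-- mixing in finite volume -/
theorem fin {p q : ℝ} (hq : 1 ≤ q) (hp0 : 0 ≤ p) (hp1 : p ≤ 1) {D0 : Finset (Pt d × Pt d)}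
    {F : Finset (Pt d × Pt d) → ℝ} (hF : Loc D0 F) {ε : ℝ} (hε : 0 < ε) :
    ∃ M : ℕ, ∀ (D1 : Finset (Pt d × Pt d)) (G : Finset (Pt d × Pt d) → ℝ), Loc D1 G →
      (∀ A, 0 ≤ G A ∧ G A ≤ 1) → Disjoint D1 (lat (cube (0 : Pt d) M)) → ∀ m : ℕ, M ≤ m →
      |E (lat (cube (0 : Pt d) m)) (fun _ => p) q (fun A => F A * G A) -
        E (lat (cube (0 : Pt d) m)) (fun _ => p) q F *
          E (lat (cube (0 : Pt d) m)) (fun _ => p) q G| ≤ ε := by
  classical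
  obtain ⟨a, ha⟩ := loc_mobius hF
  obtain ⟨C, hC⟩ : ∃ C : ℝ, C = 1 + ∑ B ∈ D0.powerset, |a B| := ⟨_, rfl⟩
  have hC0 : 0 < C := by
    rw [hC]
    have : 0 ≤ ∑ B ∈ D0.powerset, |a B| := Finset.sum_nonneg fun _ _ => abs_nonneg _
    linarith
  have hex : ∀ B : Finset (Pt d × Pt d), ∃ M : ℕ, ∀ (D1 : Finset (Pt d × Pt d))
      (G : Finset (Pt d × Pt d) → ℝ), Loc D1 G → (∀ A, 0 ≤ G A ∧ G A ≤ 1) →
      ∀ M' : ℕ, M ≤ M' → Disjoint D1 (lat (cube (0 : Pt d) M')) → ∀ m : ℕ, M' ≤ m →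
      |E (lat (cube (0 : Pt d) m)) (fun _ => p) q (fun A => ind (B ⊆ A) * G A) -
        E (lat (cube (0 : Pt d) m)) (fun _ => p) q (fun A => ind (B ⊆ A)) *
          E (lat (cube (0 : Pt d) m)) (fun _ => p) q G| ≤ ε / C :=
    fun B => fin_ind hq hp0 hp1 B (div_pos hε hC0)
  choose M hM using hex
  refine ⟨D0.powerset.sup M, ?_⟩
  intro D1 G hG hG01 hdis m hm
  have e1 : (fun A => F A * G A) =
      (fun A => ∑ B ∈ D0.powerset, a B * (ind (B ⊆ A) * G A)) := by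
    funext A
    rw [ha A, Finset.sum_mul]
    exact Finset.sum_congr rfl fun B _ => by ring
  have e2 : F = (fun A => ∑ B ∈ D0.powerset, a B * ind (B ⊆ A)) := funext ha
  have e3 : E (lat (cube (0 : Pt d) m)) (fun _ => p) q (fun A => F A * G A) =
      ∑ B ∈ D0.powerset, a B *
        E (lat (cube (0 : Pt d) m)) (fun _ => p) q (fun A => ind (B ⊆ A) * G A) := by
    rw [e1, E_sum D0.powerset (fun B A => a B * (ind (B ⊆ A) * G A))]
    exact Finset.sum_congr rfl fun B _ => E_smul (a B) (fun A => ind (B ⊆ A) * G A)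
  have e4 : E (lat (cube (0 : Pt d) m)) (fun _ => p) q F =
      ∑ B ∈ D0.powerset, a B *
        E (lat (cube (0 : Pt d) m)) (fun _ => p) q (fun A => ind (B ⊆ A)) := by
    conv_lhs => rw [e2]
    rw [E_sum D0.powerset (fun B A => a B * ind (B ⊆ A))]
    exact Finset.sum_congr rfl fun B _ => E_smul (a B) (fun A => ind (B ⊆ A))
  rw [e3, e4, Finset.sum_mul, ← Finset.sum_sub_distrib]
  have hb : ∀ B ∈ D0.powerset, |a B *
        E (lat (cube (0 : Pt d) m)) (fun _ => p) q (fun A => ind (B ⊆ A) * G A) -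
      a B * E (lat (cube (0 : Pt d) m)) (fun _ => p) q (fun A => ind (B ⊆ A)) *
        E (lat (cube (0 : Pt d) m)) (fun _ => p) q G| ≤ |a B| * (ε / C) := by
    intro B hB
    rw [mul_assoc, ← mul_sub, abs_mul]
    exact mul_le_mul_of_nonneg_left
      (hM B D1 G hG hG01 _ (Finset.le_sup hB) hdis m hm) (abs_nonneg _)
  refine (Finset.abs_sum_le_sum_abs _ _).trans ((Finset.sum_le_sum hb).trans ?_)
  rw [← Finset.sum_mul]
  have h1 : ∑ B ∈ D0.powerset, |a B| ≤ C := by rw [hC]; linarith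
  calc (∑ B ∈ D0.powerset, |a B|) * (ε / C) ≤ C * (ε / C) :=
        mul_le_mul_of_nonneg_right h1 (div_pos hε hC0).le
    _ = ε := by field_simp

end Mix

/-- mixing: a local function is asymptotically independent of far edges -/
theorem IE_mix {p q : ℝ} (hq : 1 ≤ q) (hp0 : 0 ≤ p) (hp1 : p ≤ 1) {D0 : Finset (Pt d × Pt d)}
    {F : Finset (Pt d × Pt d) → ℝ} (hF : Loc D0 F) {ε : ℝ} (hε : 0 < ε) :
    ∃ M : ℕ, ∀ (D1 : Finset (Pt d × Pt d)) (G : Finset (Pt d × Pt d) → ℝ), Loc D1 G →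
      (∀ A, 0 ≤ G A ∧ G A ≤ 1) → Disjoint D1 (lat (cube (0 : Pt d) M)) →
      |IE p q (fun A => F A * G A) - IE p q F * IE p q G| ≤ ε := by
  obtain ⟨M, hM⟩ := Mix.fin (d := d) hq hp0 hp1 hF hε
  refine ⟨M, ?_⟩
  intro D1 G hG hG01 hdis
  have hFG : Loc (D0 ∪ D1) (fun A => F A * G A) := by
    intro A
    show F A * G A = F (A ∩ (D0 ∪ D1)) * G (A ∩ (D0 ∪ D1))
    rw [hF (A ∩ (D0 ∪ D1)), hG (A ∩ (D0 ∪ D1)), hF A, hG A]
    congr 2
    · ext e
      simp only [Finset.mem_inter, Finset.mem_union]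
      tauto
    · ext e
      simp only [Finset.mem_inter, Finset.mem_union]
      tauto
  have t1 := Mix.tendsto_E hq hp0 hp1 hFG
  have t2 := Mix.tendsto_E hq hp0 hp1 hF
  have t3 := Mix.tendsto_E hq hp0 hp1 hG
  have t4 := (t1.sub (t2.mul t3)).abs
  refine le_of_tendsto t4 ?_
  filter_upwards [eventually_ge_atTop M] with m hm
  exact hM D1 G hG hG01 hdis m hm

end FKB
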