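import Pool.Agent.BK.Alpha

open Finset Filter
noncomputable section
namespace FKB

/-- uniqueness, in finite volume -/
theorem uniq_fin {d : ℕ} (hd : 1 ≤ d) {p q : ℝ} (hq : 1 ≤ q) (hp0 : 0 < p) (hp1 : p ≤ 1)
    (l : ℕ) {ε : ℝ} (hε : 0 < ε) :
    ∃ R : ℕ, l ≤ R ∧ ∃ m0 : ℕ, ∀ H : Finset (Pt d), cube (0 : Pt d) m0 ⊆ H →
      P (lat H) (fun _ => p) q (TwoC (0 : Pt d) l R) ≤ ε := by
  have hsq := alp_sq hd hq hp0 hp1
  have hm := alp_merge hd hq hp0 hp1
  have hal := fun l => al_le_alp (d := d) (q := q) hq hp0 hp1 l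
  have halp0 : 0 ≤ alp d p q := (hal 0).1.trans (hal 0).2.1
  have halp1 : alp d p q ≤ 1 := (hal 0).2.2
  -- `alp = 0`
  have hz : alp d p q = 0 := by
    rcases eq_or_lt_of_le halp0 with h | h
    · exact h.symm
    · have h1 : 1 ≤ alp d p q := by
        by_contra hlt
        push Not at hlt
        nlinarith
      have h2 : alp d p q = 1 := le_antisymm halp1 h1
      have h3 : ∀ l, al d p q l ≤ 0 := by
        intro l
        have := hm l
        rw [h2] at this
        simpa using this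
      have h4 : alp d p q ≤ 0 := by
        unfold alp
        exact ciSup_le h3
      exact le_antisymm h4 halp0
  have hl0 : al d p q l = 0 := le_antisymm ((hal l).2.1.trans hz.le) (hal l).1
  have hlt : (⨅ k : ℕ, IP p q (TwoC (0 : Pt d) l (l + k))) < ε / 2 := by
    have : al d p q l < ε / 2 := by rw [hl0]; positivity
    exact this
  obtain ⟨k, hk⟩ := exists_lt_of_ciInf_lt hlt
  refine ⟨l + k, Nat.le_add_right _ _, ?_⟩
  have hloc : Loc (lat (cube (0 : Pt d) (l + k)))
      (fun A => ind (TwoC (0 : Pt d) l (l + k) A)) := by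
    intro A
    have : TwoC (0 : Pt d) l (l + k) A ↔
        TwoC (0 : Pt d) l (l + k) (A ∩ lat (cube (0 : Pt d) (l + k))) := by
      simp only [TwoC, Cross, Finset.inter_assoc, Finset.inter_self]
    simp only [this]
  obtain ⟨m0, hm0⟩ := IE_unif hq hp0.le hp1 hloc (half_pos hε)
  refine ⟨m0, fun H hH => ?_⟩
  have h1 := hm0 H hH
  have h2 : IE p q (fun A => ind (TwoC (0 : Pt d) l (l + k) A)) < ε / 2 := hk
  have h3 := (abs_le.mp h1).2
  have h4 : P (lat H) (fun _ => p) q (TwoC (0 : Pt d) l (l + k)) =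
      E (lat H) (fun _ => p) q (fun A => ind (TwoC (0 : Pt d) l (l + k) A)) := rfl
  rw [h4]
  linarith

end FKB
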